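import Pool.Agent.MG.G0.One

/-!
# Laurent series: products, pole orders, the grading modulo `d`
-/

namespace Pool.Agent.MG.G0.ZL

open Polynomial

section

variable {A B : Type} [CommRing A] [CommRing B]

/-- Laurent series with a pole of order at most `n`. -/
noncomputable abbrev Pl (A : Type) [CommRing A] (n : ℤ) : Submodule A (LaurentSeries A) := Po A n

theorem mem_Pl {n : ℤ} {f : LaurentSeries A} : f ∈ Pl A n ↔ ∀ m, m < -n → f.coeff m = 0 :=
  Iff.rfl

theorem Pl_mono {n m : ℤ} (h : n ≤ m) : Pl A n ≤ Pl A m := fun _ hf k hk =>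
  hf k (lt_of_lt_of_le hk (neg_le_neg h))

theorem exists_Pl (f : LaurentSeries A) : ∃ n : ℕ, f ∈ Pl A n := by
  refine ⟨(-f.order).toNat, fun m hm => ?_⟩
  apply HahnSeries.coeff_eq_zero_of_lt_order
  omega

theorem mul_mem_Pl {a b : ℤ} {f g : LaurentSeries A} (hf : f ∈ Pl A a) (hg : g ∈ Pl A b) :
    f * g ∈ Pl A (a + b) := by
  intro m hm
  exact mul_low hf hg m (by omega)

theorem coeff_mul_Pl {a b : ℤ} {f g : LaurentSeries A} (hf : f ∈ Pl A a) (hg : g ∈ Pl A b) :
    (f * g).coeff (-(a + b)) = f.coeff (-a) * g.coeff (-b) := by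
  rw [neg_add]
  exact mul_lead hf hg

theorem single_mem_Pl {n m : ℤ} (a : A) (h : -n ≤ m) : (HahnSeries.single m a) ∈ Pl A n := by
  intro k hk
  rw [HahnSeries.coeff_single_of_ne (by omega)]

theorem one_mem_Pl {n : ℤ} (h : 0 ≤ n) : (1 : LaurentSeries A) ∈ Pl A n := by
  rw [← HahnSeries.single_zero_one]
  exact single_mem_Pl 1 (by omega)

theorem pow_mem_Pl {a : ℤ} {f : LaurentSeries A} (hf : f ∈ Pl A a) (n : ℕ) :
    f ^ n ∈ Pl A (n * a) := by
  induction n with
  | zero => simpa using one_mem_Pl (le_refl (0 : ℤ))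
  | succ n ih =>
    rw [pow_succ]
    have := mul_mem_Pl ih hf
    have h1 : (n : ℤ) * a + a = ((n + 1 : ℕ) : ℤ) * a := by push_cast; ring
    rwa [h1] at this

theorem coeff_pow_Pl {a : ℤ} {f : LaurentSeries A} (hf : f ∈ Pl A a) (n : ℕ) :
    (f ^ n).coeff (-(n * a)) = f.coeff (-a) ^ n := by
  induction n with
  | zero => simp
  | succ n ih =>
    have h1 : -(((n + 1 : ℕ) : ℤ) * a) = -((n : ℤ) * a + a) := by push_cast; ring
    rw [pow_succ, h1, coeff_mul_Pl (pow_mem_Pl hf n) hf, ih, pow_succ]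

theorem lmap_mem_Pl (φ : A →+* B) {n : ℤ} {f : LaurentSeries A} (hf : f ∈ Pl A n) :
    lmap φ f ∈ Pl B n := by
  intro m hm
  rw [lmap_coeff, hf m hm, map_zero]

/-! ### Polynomials in `z` -/

/-- Polynomials in `z`. -/
noncomputable abbrev ev (d : ℕ) : A[X] →ₐ[A] LaurentSeries A := zpol A d

theorem zz_pow (d k : ℕ) : zz A d ^ k = HahnSeries.single (-((d * k : ℕ) : ℤ)) 1 := by
  have h1 : k • (-(d : ℤ)) = -((d * k : ℕ) : ℤ) := by
    rw [nsmul_eq_mul]
    push_cast
    ring
  rw [zz, HahnSeries.single_pow, one_pow, h1]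

theorem ev_X (d : ℕ) : ev d (X : A[X]) = zz A d := by rw [ev, zpol, aeval_X]

theorem ev_C (d : ℕ) (a : A) : ev d (C a) = algebraMap A (LaurentSeries A) a := by
  rw [ev, zpol, aeval_C]

theorem algebraMap_eq (a : A) : algebraMap A (LaurentSeries A) a = HahnSeries.single 0 a := rfl

theorem algebraMap_mul_coeff (a : A) (f : LaurentSeries A) (n : ℤ) :
    (algebraMap A (LaurentSeries A) a * f).coeff n = a * f.coeff n := by
  rw [← Algebra.smul_def, HahnSeries.coeff_smul, smul_eq_mul]

theorem ev_eq_sum (d : ℕ) (q : A[X]) :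
    ev d q = ∑ k ∈ q.support, HahnSeries.single (-((d * k : ℕ) : ℤ)) (q.coeff k) := by
  rw [ev, zpol, aeval_eq_sum_range' (Nat.lt_succ_self _)]
  have h1 : ∀ k, q.coeff k • zz A d ^ k =
      HahnSeries.single (-((d * k : ℕ) : ℤ)) (q.coeff k) := by
    intro k
    rw [zz_pow]
    ext m
    rw [HahnSeries.coeff_smul, smul_eq_mul]
    by_cases h : m = -((d * k : ℕ) : ℤ)
    · rw [h, HahnSeries.coeff_single_same, HahnSeries.coeff_single_same, mul_one]
    · rw [HahnSeries.coeff_single_of_ne h, HahnSeries.coeff_single_of_ne h, mul_zero]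
  rw [Finset.sum_congr rfl fun k _ => h1 k]
  symm
  refine Finset.sum_subset ?_ ?_
  · intro k hk
    rw [Finset.mem_range]
    exact Nat.lt_succ_of_le (le_natDegree_of_mem_supp k hk)
  · intro k _ hk
    rw [notMem_support_iff] at hk
    rw [hk, HahnSeries.single_eq_zero]

theorem ev_coeff (d : ℕ) (hd : d ≠ 0) (q : A[X]) (k : ℕ) :
    (ev d q).coeff (-((d * k : ℕ) : ℤ)) = q.coeff k := by
  classical
  rw [ev_eq_sum, HahnSeries.coeff_sum]
  have h1 : ∀ l, (HahnSeries.single (-((d * l : ℕ) : ℤ)) (q.coeff l)).coeff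
      (-((d * k : ℕ) : ℤ)) = if l = k then q.coeff k else 0 := by
    intro l
    by_cases hl : l = k
    · rw [if_pos hl, hl, HahnSeries.coeff_single_same]
    · rw [if_neg hl, HahnSeries.coeff_single_of_ne]
      intro h
      apply hl
      have h2 : d * k = d * l := by
        have := neg_injective h
        exact_mod_cast this
      exact (Nat.eq_of_mul_eq_mul_left (Nat.pos_of_ne_zero hd) h2).symm
  rw [Finset.sum_congr rfl fun l _ => h1 l, Finset.sum_ite_eq']
  split_ifs with h
  · rfl
  · rw [notMem_support_iff] at h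
    exact h.symm

theorem ev_coeff_ne (d : ℕ) (q : A[X]) (n : ℤ) (hn : ∀ k : ℕ, n ≠ -((d * k : ℕ) : ℤ)) :
    (ev d q).coeff n = 0 := by
  rw [ev_eq_sum, HahnSeries.coeff_sum]
  exact Finset.sum_eq_zero fun k _ => HahnSeries.coeff_single_of_ne (hn k)

theorem ev_coeff_pos (d : ℕ) (q : A[X]) (n : ℤ) (hn : 0 < n) : (ev d q).coeff n = 0 := by
  apply ev_coeff_ne
  intro k
  omega

theorem ev_injective (d : ℕ) (hd : d ≠ 0) : Function.Injective (ev d : A[X] →ₐ[A] _) := by
  intro p q h
  ext k
  rw [← ev_coeff d hd, h, ev_coeff d hd]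

theorem ev_mem_Pl (d : ℕ) (q : A[X]) {n : ℕ} (h : q.natDegree ≤ n) :
    ev d q ∈ Pl A ((d * n : ℕ) : ℤ) := by
  intro m hm
  rw [ev_eq_sum, HahnSeries.coeff_sum]
  refine Finset.sum_eq_zero fun k hk => HahnSeries.coeff_single_of_ne ?_
  have h1 : k ≤ n := (le_natDegree_of_mem_supp k hk).trans h
  have h2 : ((d * k : ℕ) : ℤ) ≤ ((d * n : ℕ) : ℤ) := by
    exact_mod_cast Nat.mul_le_mul_left d h1
  omega

theorem lmap_ev (φ : A →+* B) (d : ℕ) (q : A[X]) : lmap φ (ev d q) = ev d (q.map φ) :=
  lmap_zpol φ d q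

theorem lmap_injective {φ : A →+* B} (hφ : Function.Injective φ) :
    Function.Injective (lmap φ) := by
  intro f g h
  ext m
  apply hφ
  rw [← lmap_coeff, h, lmap_coeff]

/-! ### The grading modulo `d` -/

variable {d : ℕ}

/-- The part with exponents congruent to `j` modulo `d`. -/
noncomputable def pr (j : ZMod d) : LaurentSeries A →ₗ[A] LaurentSeries A where
  toFun f :=
    { coeff := fun n => if ((n : ℤ) : ZMod d) = j then f.coeff n else 0
      isPWO_support' := f.isPWO_support.mono fun n hn => by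
        rw [Function.mem_support] at hn
        rw [HahnSeries.mem_support]
        intro h
        apply hn
        rw [h, ite_self] }
  map_add' f g := by
    ext n
    simp only [HahnSeries.coeff_add]
    split_ifs
    · rfl
    · rw [add_zero]
  map_smul' a f := by
    ext n
    simp only [HahnSeries.coeff_smul, RingHom.id_apply]
    split_ifs
    · rfl
    · rw [smul_zero]

theorem pr_coeff (j : ZMod d) (f : LaurentSeries A) (n : ℤ) :
    (pr j f).coeff n = if ((n : ℤ) : ZMod d) = j then f.coeff n else 0 := rfl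

theorem pr_coeff_same {j : ZMod d} (f : LaurentSeries A) {n : ℤ} (h : ((n : ℤ) : ZMod d) = j) :
    (pr j f).coeff n = f.coeff n := if_pos h

theorem pr_coeff_ne {j : ZMod d} (f : LaurentSeries A) {n : ℤ} (h : ((n : ℤ) : ZMod d) ≠ j) :
    (pr j f).coeff n = 0 := if_neg h

theorem pr_mem_Pl (j : ZMod d) {n : ℤ} {f : LaurentSeries A} (hf : f ∈ Pl A n) :
    pr j f ∈ Pl A n := by
  intro m hm
  rw [pr_coeff, hf m hm, ite_self]

theorem pr_pr_same (j : ZMod d) (f : LaurentSeries A) : pr j (pr j f) = pr j f := by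
  ext n
  rw [pr_coeff, pr_coeff]
  split_ifs <;> rfl

theorem pr_pr_ne {i j : ZMod d} (h : i ≠ j) (f : LaurentSeries A) : pr i (pr j f) = 0 := by
  ext n
  rw [pr_coeff, pr_coeff, HahnSeries.coeff_zero]
  split_ifs with h1 h2
  · exact absurd (h1.symm.trans h2) h
  · rfl
  · rfl

theorem pr_mul_of {i : ZMod d} {f : LaurentSeries A} (hf : pr i f = f) (k : ZMod d)
    (g : LaurentSeries A) : pr k (f * g) = f * pr (k - i) g := by
  obtain ⟨a, ha⟩ := exists_Pl f
  obtain ⟨b, hb⟩ := exists_Pl g
  ext n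
  rw [pr_coeff, coeff_mul_Icc ha hb, coeff_mul_Icc ha (pr_mem_Pl (k - i) hb)]
  have h1 : ∀ m, f.coeff m * (pr (k - i) g).coeff (n - m) =
      if ((n : ℤ) : ZMod d) = k then f.coeff m * g.coeff (n - m) else 0 := by
    intro m
    by_cases hm : f.coeff m = 0
    · rw [hm, zero_mul, zero_mul, ite_self]
    · have h2 : ((m : ℤ) : ZMod d) = i := by
        by_contra hcon
        apply hm
        rw [← hf, pr_coeff_ne _ hcon]
      rw [pr_coeff]
      by_cases hn : ((n : ℤ) : ZMod d) = k
      · rw [if_pos hn, if_pos]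
        push_cast
        rw [hn, h2]
      · rw [if_neg hn, if_neg, mul_zero]
        push_cast
        rw [h2]
        intro h3
        exact hn (sub_left_injective h3)
  rw [Finset.sum_congr rfl fun m _ => h1 m]
  split_ifs
  · rfl
  · rw [Finset.sum_const_zero]

theorem pr_zero_eq (f : LaurentSeries A) : pr (0 : ZMod d) f = pr0 A d f := by
  ext n
  rw [pr_coeff, pr0_coeff]
  simp only [ZMod.intCast_zmod_eq_zero_iff_dvd]

theorem sum_pr [NeZero d] (f : LaurentSeries A) : ∑ j : ZMod d, pr j f = f := by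
  ext n
  rw [HahnSeries.coeff_sum]
  simp only [pr_coeff]
  rw [Finset.sum_ite_eq, if_pos (Finset.mem_univ _)]

theorem pr_mul [NeZero d] (k : ZMod d) (f g : LaurentSeries A) :
    pr k (f * g) = ∑ i : ZMod d, pr i f * pr (k - i) g := by
  conv_lhs => rw [← sum_pr (d := d) f, Finset.sum_mul, map_sum]
  exact Finset.sum_congr rfl fun i _ => pr_mul_of (pr_pr_same i f) k g

theorem pr_ev [NeZero d] (q : A[X]) : pr (0 : ZMod d) (ev d q) = ev d q := by
  ext n
  rw [pr_coeff]
  split_ifs with h
  · rfl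
  · symm
    apply ev_coeff_ne
    rintro k rfl
    apply h
    push_cast
    simp

theorem pr_algebraMap (a : A) : pr (0 : ZMod d) (algebraMap A (LaurentSeries A) a) =
    algebraMap A (LaurentSeries A) a := by
  ext n
  rw [pr_coeff, algebraMap_eq]
  split_ifs with h
  · rfl
  · rw [HahnSeries.coeff_single_of_ne]
    rintro rfl
    simp at h

theorem pr_ev_mul [NeZero d] (k : ZMod d) (q : A[X]) (g : LaurentSeries A) :
    pr k (ev d q * g) = ev d q * pr k g := by
  rw [pr_mul_of (pr_ev q), sub_zero]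

theorem lmap_pr (φ : A →+* B) (j : ZMod d) (f : LaurentSeries A) :
    lmap φ (pr j f) = pr j (lmap φ f) := by
  ext n
  rw [lmap_coeff, pr_coeff, pr_coeff, lmap_coeff]
  split_ifs
  · rfl
  · rw [map_zero]

/-! ### The matrix of the multiplication -/

variable [NeZero d]

/-- The matrix of the multiplication by `x`. -/
noncomputable def cm (d : ℕ) [NeZero d] :
    LaurentSeries A →+* Matrix (ZMod d) (ZMod d) (LaurentSeries A) where
  toFun x := Matrix.of fun i j => pr (j - i) x
  map_one' := by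
    ext1 i j
    have h1 : (1 : LaurentSeries A) = algebraMap A _ 1 := (map_one _).symm
    rw [Matrix.of_apply, Matrix.one_apply]
    by_cases h : i = j
    · rw [if_pos h, h, sub_self, h1, pr_algebraMap]
    · rw [if_neg h, h1, ← pr_algebraMap (d := d), pr_pr_ne]
      intro h2
      exact h (sub_eq_zero.1 h2).symm
  map_zero' := by
    ext1 i j
    rw [Matrix.of_apply, map_zero]
    rfl
  map_add' x y := by
    ext1 i j
    rw [Matrix.add_apply, Matrix.of_apply, Matrix.of_apply, Matrix.of_apply, map_add]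
  map_mul' x y := by
    ext1 i k
    rw [Matrix.mul_apply, Matrix.of_apply, pr_mul]
    simp only [Matrix.of_apply]
    refine Fintype.sum_equiv (Equiv.addLeft i) _ _ fun j => ?_
    show pr j x * pr (k - i - j) y = pr (i + j - i) x * pr (k - (i + j)) y
    rw [add_sub_cancel_left, sub_sub]

theorem cm_apply (x : LaurentSeries A) (i j : ZMod d) : cm d x i j = pr (j - i) x := rfl

theorem cm_of_pr {s : LaurentSeries A} (hs : pr (0 : ZMod d) s = s) :
    cm d s = Matrix.scalar (ZMod d) s := by
  ext1 i j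
  rw [cm_apply, Matrix.scalar_apply, Matrix.diagonal_apply]
  split_ifs with h
  · rw [h, sub_self, hs]
  · rw [← hs, pr_pr_ne]
    intro h2
    exact h (sub_eq_zero.1 h2).symm

theorem trace_cm (x : LaurentSeries A) :
    (cm d x).trace = (d : LaurentSeries A) * pr (0 : ZMod d) x := by
  rw [Matrix.trace]
  simp only [Matrix.diag_apply, cm_apply, sub_self]
  rw [Finset.sum_const, Finset.card_univ, ZMod.card, nsmul_eq_mul]

theorem cm_mulVec_one (x : LaurentSeries A) :
    (cm d x).mulVec (fun _ => 1) = fun _ => x := by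
  funext i
  rw [Matrix.mulVec, dotProduct]
  simp only [cm_apply, mul_one]
  conv_rhs => rw [← sum_pr (d := d) x]
  refine Fintype.sum_equiv (Equiv.subRight i) _ _ fun j => rfl

theorem aeval_cm_mulVec (x : LaurentSeries A) (p : (LaurentSeries A)[X]) :
    (aeval (cm d x) p).mulVec (fun _ => 1) = fun _ => p.eval x := by
  induction p using Polynomial.induction_on with
  | C a =>
    rw [aeval_C, eval_C]
    funext i
    rw [Matrix.algebraMap_eq_diagonal, Matrix.mulVec_diagonal]
    simp
  | add p q hp hq =>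
    rw [map_add, Matrix.add_mulVec, hp, hq, eval_add]
    rfl
  | monomial n a h =>
    have h1 : (C a * X ^ (n + 1) : (LaurentSeries A)[X]) = (C a * X ^ n) * X := by
      rw [pow_succ, mul_assoc]
    rw [h1, map_mul, aeval_X, ← Matrix.mulVec_mulVec, cm_mulVec_one]
    have h2 : (fun _ : ZMod d => x) = x • (fun _ : ZMod d => (1 : LaurentSeries A)) := by
      funext i
      simp
    rw [h2, Matrix.mulVec_smul, h, eval_mul (q := X), eval_X]
    funext i
    rw [Pi.smul_apply, smul_eq_mul, mul_comm]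

/-- The characteristic polynomial of the multiplication annihilates the element. -/
theorem charpoly_cm_eval (x : LaurentSeries A) : (cm d x).charpoly.eval x = 0 := by
  have h1 := aeval_cm_mulVec (d := d) x (cm d x).charpoly
  rw [Matrix.aeval_self_charpoly, Matrix.zero_mulVec] at h1
  exact (congrFun h1 0).symm

theorem cm_lmap (φ : A →+* B) (x : LaurentSeries A) :
    cm d (lmap φ x) = (cm d x).map (lmap φ) := by
  ext1 i j
  rw [Matrix.map_apply, cm_apply, cm_apply, lmap_pr]

theorem charpoly_cm_lmap (φ : A →+* B) (x : LaurentSeries A) :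
    (cm d (lmap φ x)).charpoly = (cm d x).charpoly.map (lmap φ) := by
  rw [cm_lmap]
  exact Matrix.charpoly_map (cm d x) (lmap φ)

end

end Pool.Agent.MG.G0.ZL
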