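import Pool.Agent.MG.G0.ZL.L4

/-!
# Discriminants
-/

namespace Pool.Agent.MG.G0.ZL

open Polynomial

section

variable {A : Type} [CommRing A] {g : ℕ} {R : Subalgebra A (LaurentSeries A)} {d : ℕ} [NeZero d]

/-- The discriminant condition in terms of families indexed by `ZMod d`. -/
def Dsc (R : Subalgebra A (LaurentSeries A)) (d : ℕ) [NeZero d] (f : A[X]) : Prop :=
  ∃ e : ZMod d → LaurentSeries A, Spn R e ∧ ∃ u : A[X], IsUnit u ∧
    (gram e).det = ev d (u * f)

/-- Change of basis. -/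
theorem exists_change (hR : Kr g R) {e e' : ZMod d → LaurentSeries A} (he : Spn R e)
    (he' : Spn R e') : ∃ a : Matrix (ZMod d) (ZMod d) A[X], IsUnit a.det ∧
      ∀ i, e i = ∑ j, ev d (a i j) * e' j := by
  classical
  choose a ha using fun i => he'.2 (e i) (he.1 i)
  choose b hb using fun i => he.2 (e' i) (he'.1 i)
  refine ⟨Matrix.of a, ?_, ha⟩
  have h1 : (Matrix.of a : Matrix (ZMod d) (ZMod d) A[X]) * Matrix.of b = 1 := by
    have h2 : ∀ i, (fun j => ((Matrix.of a : Matrix (ZMod d) (ZMod d) A[X]) *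
        Matrix.of b) i j) = fun j => (1 : Matrix (ZMod d) (ZMod d) A[X]) i j := by
      intro i
      apply coef_unique (cmat_isUnit hR he)
      have h3 : ∑ j, ev d ((1 : Matrix (ZMod d) (ZMod d) A[X]) i j) * e j = e i := by
        have h4 : ∀ j, ev d ((1 : Matrix (ZMod d) (ZMod d) A[X]) i j) * e j =
            if i = j then e i else 0 := by
          intro j
          rw [Matrix.one_apply]
          split_ifs with h
          · rw [map_one, one_mul, h]
          · rw [map_zero, zero_mul]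
        rw [Finset.sum_congr rfl fun j _ => h4 j, Finset.sum_ite_eq,
          if_pos (Finset.mem_univ _)]
      rw [h3]
      conv_rhs => rw [ha i]
      have h5 : ∀ j, ev d (((Matrix.of a : Matrix (ZMod d) (ZMod d) A[X]) *
          Matrix.of b) i j) * e j = ∑ l, ev d (a i l) * (ev d (b l j) * e j) := by
        intro j
        rw [Matrix.mul_apply, map_sum, Finset.sum_mul]
        refine Finset.sum_congr rfl fun l _ => ?_
        rw [map_mul, mul_assoc]
        rfl
      rw [Finset.sum_congr rfl fun j _ => h5 j, Finset.sum_comm]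
      refine Finset.sum_congr rfl fun l _ => ?_
      rw [← Finset.mul_sum, ← hb l]
    ext1 i j
    exact congrFun (h2 i) j
  refine IsUnit.of_mul_eq_one (Matrix.of b).det ?_
  rw [← Matrix.det_mul, h1, Matrix.det_one]

theorem disc_of_dsc (hR : Kr g R) (hd : IsUnit (d : A)) {f : A[X]}
    (h : Dsc R d f) : Disc d R f := by
  classical
  obtain ⟨e, he, u, hu, hdet⟩ := h
  let σ : Fin d ≃ ZMod d := (ZMod.finEquiv d).toEquiv
  choose G hG using fun i j : ZMod d => pr_mem_ev hR he hd (mul_mem (he.1 i) (he.1 j))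
  have hsum : ∀ c : ZMod d → A[X], ∑ i, zpol A d (c (σ i)) * e (σ i) =
      ∑ i, ev d (c i) * e i := fun c => Equiv.sum_comp σ fun i => ev d (c i) * e i
  refine ⟨fun i => e (σ i), Matrix.of fun i j => G (σ i) (σ j), ⟨fun i => he.1 _, ?_⟩, ?_, u, hu,
    ?_⟩
  · intro x hx
    obtain ⟨q, hq⟩ := he.2 x hx
    refine ⟨fun i => q (σ i), ?_, ?_⟩
    · show x = ∑ i, zpol A d (q (σ i)) * e (σ i)
      rw [hsum, hq]
    · intro c hc
      have h1 : ∑ i, ev d ((fun i => c (σ.symm i)) i) * e i = ∑ i, ev d (q i) * e i := by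
        rw [← hq, ← hsum (fun i => c (σ.symm i))]
        simp only [Equiv.symm_apply_apply]
        exact hc.symm
      have h2 := coef_unique (cmat_isUnit hR he) h1
      funext i
      rw [← h2]
      show c i = c (σ.symm (σ i))
      rw [Equiv.symm_apply_apply]
  · intro i j
    show zpol A d (G (σ i) (σ j)) = pr0 A d (e (σ i) * e (σ j))
    rw [← pr_zero_eq, hG]
  · apply ev_injective (A := A) d (NeZero.ne d)
    rw [← hdet, ← det_map_ev]
    have h1 : gram e = (Matrix.of G).map (ev d) := by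
      ext1 i j
      exact hG i j
    rw [h1, ← Matrix.det_submatrix_equiv_self σ]
    rfl

theorem dsc_of_disc {f : A[X]} (h : Disc d R f) : Dsc R d f := by
  classical
  obtain ⟨e, G, he, hG, u, hu, hdet⟩ := h
  let σ : Fin d ≃ ZMod d := (ZMod.finEquiv d).toEquiv
  refine ⟨fun i => e (σ.symm i), ⟨fun i => he.mem _, fun x hx => ?_⟩, u, hu, ?_⟩
  · obtain ⟨c, hc, -⟩ := he.uni x hx
    refine ⟨fun i => c (σ.symm i), ?_⟩
    have h1 := Equiv.sum_comp σ.symm fun i => ev d (c i) * e i
    exact hc.trans h1.symm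
  · rw [← hdet, ← det_map_ev, ← Matrix.det_submatrix_equiv_self σ]
    congr 1
    ext1 i j
    rw [Matrix.submatrix_apply, Matrix.map_apply]
    show pr (0 : ZMod d) (e (σ.symm (σ i)) * e (σ.symm (σ j))) = ev d (G i j)
    rw [Equiv.symm_apply_apply, Equiv.symm_apply_apply, pr_zero_eq]
    exact (hG i j).symm

end

section

variable {κ : Type} [Field κ] {g : ℕ} {R : Subalgebra κ (LaurentSeries κ)} {d : ℕ} [NeZero d]

/-- The degree of a polynomial from the order of its value. -/
theorem natDegree_of_lead {p : κ[X]} {b : ℕ} (h1 : ev d p ∈ Pl κ ((d * b : ℕ) : ℤ))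
    (h2 : (ev d p).coeff (-((d * b : ℕ) : ℤ)) ≠ 0) : p.natDegree = b := by
  rw [ev_coeff d (NeZero.ne d)] at h2
  apply le_antisymm
  · rw [natDegree_le_iff_coeff_eq_zero]
    intro n hn
    rw [← ev_coeff d (NeZero.ne d)]
    apply h1
    have h3 : d * b < d * n := (Nat.mul_lt_mul_left (Nat.pos_of_ne_zero (NeZero.ne d))).2 hn
    omega
  · exact le_natDegree_of_ne_zero h2

/-- Existence of the echelon basis. -/
theorem exists_echelon (hR : Kr g R) (hz : zz κ d ∈ R) :
    ∃ (N : ZMod d → ℕ) (e : ZMod d → LaurentSeries κ), (∀ i, (N i : ZMod d) = i) ∧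
      (∀ n : ℕ, Ord R n ↔ N n ≤ n) ∧ Spn R e ∧ (∀ i, e i ∈ Pl κ (N i)) ∧
      (∀ i, (e i).coeff (-(N i : ℤ)) = 1) := by
  obtain ⟨N, hN, hN'⟩ := exists_ech hR hz
  have h1 : ∀ i, Ord R (N i) := by
    intro i
    rw [hN', hN]
  choose e he he1 he2 using h1
  exact ⟨N, e, hN, hN', spn_of_ech hR hz N hN hN' e he he1 he2, he1, he2⟩

/-- The degree of the Gram determinant. -/
theorem gram_natDegree (hR : Kr g R) (hz : zz κ d ∈ R) {e : ZMod d → LaurentSeries κ}
    (he : Spn R e) {p : κ[X]} (hp : (gram e).det = ev d p) :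
    p ≠ 0 ∧ p.natDegree = 2 * g + (d - 1) := by
  classical
  obtain ⟨N, e', hN, hN', he', h1, h2⟩ := exists_echelon hR hz
  obtain ⟨a, ha, hae⟩ := exists_change hR he' he
  have h3 := gram_det_mul a e' e hae
  rw [hp, ← map_mul] at h3
  have hNZ : ∀ i, (((N i : ℕ) : ℤ) : ZMod d) = i := by
    intro i
    rw [Int.cast_natCast, hN]
  obtain ⟨h4, h5⟩ := gram_det_lead e' (fun i => (N i : ℤ)) hNZ h1
  have h6 : (2 : ℤ) * ∑ i, (N i : ℤ) = ((d * (2 * g + (d - 1)) : ℕ) : ℤ) := by
    have h7 : 2 * ∑ i, N i = d * (2 * g + (d - 1)) := by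
      rw [sum_ech hR N hN hN', mul_add, two_sum_val]
      ring
    rw [← h7]
    push_cast
    rfl
  have h8 : (gram e').det.coeff (-((d * (2 * g + (d - 1)) : ℕ) : ℤ)) ≠ 0 := by
    rw [h6] at h5
    have h9 : ∏ i, (e' i).coeff (-(N i : ℤ)) = 1 := Finset.prod_eq_one fun i _ => h2 i
    rcases h5 with h | h
    · rw [h, h9]
      simp
    · rw [h, h9]
      simp
  rw [h6, h3] at h4
  rw [h3] at h8
  have h10 := natDegree_of_lead h4 h8
  have h11 : a.det ^ 2 * p ≠ 0 := by
    intro h
    rw [h, map_zero, HahnSeries.coeff_zero] at h8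
    exact h8 rfl
  have h12 : p ≠ 0 := right_ne_zero_of_mul h11
  refine ⟨h12, ?_⟩
  rw [← h10, natDegree_mul (left_ne_zero_of_mul h11) h12, natDegree_pow,
    natDegree_eq_zero_of_isUnit ha, mul_zero, zero_add]

end

end Pool.Agent.MG.G0.ZL
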