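import Pool.Agent.MG.G0.StmtsZL
import Pool.Agent.MG.G0.ZL.L5

/-!
# Section ZD: traces, bases and discriminants
-/

namespace Pool.Agent.MG.G0.ZL

open Polynomial

section

variable {A B : Type} [CommRing A] [CommRing B] {g : ℕ} {R : Subalgebra A (LaurentSeries A)}
  {d : ℕ} [NeZero d]

/-- The identification of the two index sets. -/
noncomputable def sg (d : ℕ) [NeZero d] : Fin d ≃ ZMod d := (ZMod.finEquiv d).toEquiv

theorem spn_of_zbas {e : Fin d → LaurentSeries A} (he : ZBas d R e) :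
    Spn R fun i => e ((sg d).symm i) := by
  refine ⟨fun i => he.mem _, fun x hx => ?_⟩
  obtain ⟨c, hc, -⟩ := he.uni x hx
  refine ⟨fun i => c ((sg d).symm i), ?_⟩
  have h1 := Equiv.sum_comp (sg d).symm fun i => ev d (c i) * e i
  exact hc.trans h1.symm

theorem zbas_of_spn (hR : Kr g R) {e : Fin d → LaurentSeries A}
    (he : Spn R fun i => e ((sg d).symm i)) : ZBas d R e := by
  have hsum : ∀ c : ZMod d → A[X], ∑ i, zpol A d (c (sg d i)) * e i =
      ∑ i, ev d (c i) * e ((sg d).symm i) := by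
    intro c
    rw [← Equiv.sum_comp (sg d) fun i => ev d (c i) * e ((sg d).symm i)]
    simp only [Equiv.symm_apply_apply]
  refine ⟨fun i => ?_, fun x hx => ?_⟩
  · have h : e ((sg d).symm (sg d i)) ∈ R := he.1 (sg d i)
    rwa [Equiv.symm_apply_apply] at h
  · obtain ⟨q, hq⟩ := he.2 x hx
    refine ⟨fun i => q (sg d i), ?_, ?_⟩
    · show x = ∑ i, zpol A d (q (sg d i)) * e i
      rw [hsum, hq]
    · intro c hc
      have h1 : ∑ i, ev d ((fun i => c ((sg d).symm i)) i) * e ((sg d).symm i) =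
          ∑ i, ev d (q i) * e ((sg d).symm i) := by
        rw [← hq, ← hsum (fun i => c ((sg d).symm i))]
        simp only [Equiv.symm_apply_apply]
        exact hc.symm
      have h2 := coef_unique (cmat_isUnit hR he) h1
      funext i
      rw [← h2]
      show c i = c ((sg d).symm (sg d i))
      rw [Equiv.symm_apply_apply]

/-- The base change of a generating family. -/
theorem spn_bc (hKBC : Stmt_KBC) (φ : A →+* B) {e : ZMod d → LaurentSeries A}
    (he : Spn R e) : Spn (bc1 φ R) fun i => lmap φ (e i) := by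
  refine ⟨fun i => Algebra.subset_adjoin ⟨e i, he.1 i, rfl⟩, fun x hx => ?_⟩
  have h1 : (fun _ : Unit => x) ∈ Submodule.span B (kmap φ '' (uno R : Set (KK Unit A))) := by
    rw [← hKBC.1 φ (uno R), bc_uno]
    exact hx
  have key : ∀ y ∈ Submodule.span B (kmap φ '' (uno R : Set (KK Unit A))),
      ∃ q : ZMod d → B[X], y () = ∑ i, ev d (q i) * lmap φ (e i) := by
    intro y hy
    induction hy using Submodule.span_induction with
    | mem y hy =>
      obtain ⟨w, hw, rfl⟩ := hy
      obtain ⟨q, hq⟩ := he.2 (w ()) hw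
      refine ⟨fun i => (q i).map φ, ?_⟩
      rw [kmap_apply, hq, map_sum]
      refine Finset.sum_congr rfl fun i _ => ?_
      rw [map_mul, lmap_ev]
    | zero => exact ⟨0, by simp⟩
    | add y y' _ _ h h' =>
      obtain ⟨q, hq⟩ := h
      obtain ⟨q', hq'⟩ := h'
      refine ⟨q + q', ?_⟩
      rw [Pi.add_apply, hq, hq', ← Finset.sum_add_distrib]
      refine Finset.sum_congr rfl fun i _ => ?_
      rw [Pi.add_apply, map_add, add_mul]
    | smul b y _ h =>
      obtain ⟨q, hq⟩ := h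
      refine ⟨fun i => C b * q i, ?_⟩
      rw [Pi.smul_apply, hq, Finset.smul_sum]
      refine Finset.sum_congr rfl fun i _ => ?_
      rw [map_mul, ev_C, mul_assoc, Algebra.smul_def]
  exact key _ h1

theorem kr_bc (hKBC : Stmt_KBC) (hR : Kr g R) (φ : A →+* B) : Kr g (bc1 φ R) := by
  have h1 := (hKBC.2.2.2 (I := Unit) (P := uno R) hR φ).1
  rw [bc_uno] at h1
  exact h1

theorem zz_mem_bc (hz : zz A d ∈ R) (φ : A →+* B) : zz B d ∈ bc1 φ R :=
  Algebra.subset_adjoin ⟨zz A d, hz, lmap_zz φ d⟩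

end

end Pool.Agent.MG.G0.ZL

namespace Pool.Agent.MG.G0

open ZL Polynomial

/-- Base change. -/
theorem t_ZDB (hKBC : Stmt_KBC) : Stmt_ZDB := by
  intro A B _ _ φ g d R hd hR hz
  have : NeZero d := ⟨hd.ne'⟩
  refine ⟨zz_mem_bc hz φ, fun e he => ?_, fun f hf => ?_⟩
  · exact zbas_of_spn (kr_bc hKBC hR φ) (spn_bc hKBC φ (spn_of_zbas he))
  · obtain ⟨e, G, he, hG, u, hu, hdet⟩ := hf
    refine ⟨fun i => lmap φ (e i), G.map (Polynomial.map φ), zbas_of_spn (kr_bc hKBC hR φ)
      (spn_bc hKBC φ (spn_of_zbas he)), fun i j => ?_, u.map φ,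
      hu.map (Polynomial.mapRingHom φ), ?_⟩
    · rw [Matrix.map_apply, ← lmap_zpol, hG i j, lmap_pr0, map_mul]
    · have h1 := RingHom.map_det (Polynomial.mapRingHom φ) G
      rw [hdet, Polynomial.coe_mapRingHom, Polynomial.map_mul] at h1
      rw [h1]
      rfl

/-- Traces. -/
theorem t_ZD1 : Stmt_ZD1 := by
  intro A _ g d R hd hR e he x hx
  have : NeZero d := ⟨hd.ne'⟩
  have hs := spn_of_zbas he
  refine ⟨fun m hm => ?_, fun hu => ?_⟩
  · have hC := cmat_isUnit hR hs
    rw [← pr_zero_eq, ← trace_cm]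
    let m' : Matrix (ZMod d) (ZMod d) A[X] := m.submatrix (sg d).symm (sg d).symm
    have hm' : ∀ i, x * e ((sg d).symm i) = ∑ j, ev d (m' i j) * e ((sg d).symm j) := by
      intro i
      rw [hm, ← Equiv.sum_comp (sg d).symm]
      rfl
    have ht : m'.trace = m.trace := by
      rw [Matrix.trace, Matrix.trace, ← Equiv.sum_comp (sg d).symm]
      rfl
    rw [← ht]
    set e' : ZMod d → LaurentSeries A := fun i => e ((sg d).symm i) with he'
    have h1 : cmat e' * cm d x = m'.map (ev d) * cmat e' := by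
      ext1 i k
      rw [Matrix.mul_apply, Matrix.mul_apply]
      have h2 : ∑ j, cmat e' i j * cm d x j k = pr k (x * e' i) := by
        rw [mul_comm x, pr_mul]
        rfl
      rw [h2, hm' i, map_sum]
      refine Finset.sum_congr rfl fun l _ => ?_
      rw [pr_ev_mul]
      rfl
    obtain ⟨u, hu'⟩ := (Matrix.isUnit_iff_isUnit_det _).2 hC
    have h2 : cm d x = (↑u⁻¹ : Matrix (ZMod d) (ZMod d) (LaurentSeries A)) * m'.map (ev d) *
        (u : Matrix (ZMod d) (ZMod d) (LaurentSeries A)) := by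
      rw [mul_assoc, hu', ← h1, ← hu', ← mul_assoc, Units.inv_mul, one_mul]
    rw [h2, Matrix.trace_units_conj']
    simp only [Matrix.trace, Matrix.diag_apply, Matrix.map_apply, map_sum]
  · obtain ⟨q, hq⟩ := pr_mem_ev hR hs hu hx
    exact ⟨q, by rw [← pr_zero_eq, hq]⟩

/-- Curves over a field. -/
theorem t_ZD2 : Stmt_ZD2 := by
  classical
  intro κ _ g d R hd hdκ hR hz
  have : NeZero d := ⟨hd.ne'⟩
  have hu : IsUnit (d : κ) := IsUnit.mk0 _ hdκ
  refine ⟨?_, fun f hf => ?_, fun n hn => ord_of_two_mul_le hR hz hn⟩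
  · obtain ⟨N, e, -, -, he, -, -⟩ := exists_echelon hR hz
    choose G hG using fun i j : ZMod d => pr_mem_ev hR he hu (mul_mem (he.1 i) (he.1 j))
    have h1 : gram e = (Matrix.of G : Matrix (ZMod d) (ZMod d) κ[X]).map (ev d) := by
      ext1 i j
      exact hG i j
    have h2 : (gram e).det = ev d (Matrix.of G : Matrix (ZMod d) (ZMod d) κ[X]).det := by
      rw [h1, det_map_ev]
    obtain ⟨h3, -⟩ := gram_natDegree hR hz he h2
    set p := (Matrix.of G : Matrix (ZMod d) (ZMod d) κ[X]).det with hp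
    refine ⟨C p.leadingCoeff⁻¹ * p, ?_, disc_of_dsc hR hu ⟨e, he, C p.leadingCoeff, ?_, ?_⟩⟩
    · rw [mul_comm]
      exact monic_mul_leadingCoeff_inv h3
    · exact isUnit_C.2 (IsUnit.mk0 _ (leadingCoeff_ne_zero.2 h3))
    · rw [h2, ← mul_assoc, ← C_mul, mul_inv_cancel₀ (leadingCoeff_ne_zero.2 h3), C_1, one_mul]
  · obtain ⟨e, he, u, hu', hdet⟩ := dsc_of_disc hf
    obtain ⟨h1, h2⟩ := gram_natDegree hR hz he hdet
    have h3 : f ≠ 0 := right_ne_zero_of_mul h1
    refine ⟨h3, ?_⟩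
    rw [← h2, natDegree_mul hu'.ne_zero h3, natDegree_eq_zero_of_isUnit hu', zero_add]

end Pool.Agent.MG.G0
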