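import Pool.Agent.MG.G0.ZL.L1

/-!
# Leading coefficients of determinants, Gram matrices
-/

namespace Pool.Agent.MG.G0.ZL

open Polynomial

section

variable {A B : Type} [CommRing A] [CommRing B]

theorem prod_mem_Pl {ι : Type} (s : Finset ι) (f : ι → LaurentSeries A) (N : ι → ℤ)
    (hf : ∀ i ∈ s, f i ∈ Pl A (N i)) :
    ∏ i ∈ s, f i ∈ Pl A (∑ i ∈ s, N i) ∧
      (∏ i ∈ s, f i).coeff (-∑ i ∈ s, N i) = ∏ i ∈ s, (f i).coeff (-N i) := by
  classical
  induction s using Finset.induction_on with
  | empty =>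
    simp only [Finset.prod_empty, Finset.sum_empty]
    refine ⟨one_mem_Pl le_rfl, ?_⟩
    simp
  | insert i s hi ih =>
    obtain ⟨h1, h2⟩ := ih fun j hj => hf j (Finset.mem_insert_of_mem hj)
    have h3 := hf i (Finset.mem_insert_self i s)
    rw [Finset.prod_insert hi, Finset.sum_insert hi, Finset.prod_insert hi]
    exact ⟨mul_mem_Pl h3 h1, by rw [coeff_mul_Pl h3 h1, h2]⟩

/-- The leading coefficient of a determinant. -/
theorem det_lead {ι : Type} [Fintype ι] [DecidableEq ι] (M : Matrix ι ι (LaurentSeries A))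
    (N : ι → ℤ) (hM : ∀ i j, M i j ∈ Pl A (N i)) :
    M.det ∈ Pl A (∑ i, N i) ∧
      M.det.coeff (-∑ i, N i) = (Matrix.of fun i j => (M i j).coeff (-N i)).det := by
  classical
  have h1 : ∀ σ : Equiv.Perm ι, ∏ i, M (σ i) i ∈ Pl A (∑ i, N i) ∧
      (∏ i, M (σ i) i).coeff (-∑ i, N i) = ∏ i, (M (σ i) i).coeff (-N (σ i)) := by
    intro σ
    have h2 := prod_mem_Pl Finset.univ (fun i => M (σ i) i) (fun i => N (σ i))
      fun i _ => hM _ _
    rw [Equiv.sum_comp σ N] at h2
    exact h2
  have hs : ∀ (σ : Equiv.Perm ι) (f : LaurentSeries A) (n : ℤ),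
      (Equiv.Perm.sign σ • f).coeff n = Equiv.Perm.sign σ • f.coeff n := by
    intro σ f n
    rcases Int.units_eq_one_or (Equiv.Perm.sign σ) with h | h
    · rw [h, one_smul, one_smul]
    · rw [h, Units.neg_smul, one_smul, Units.neg_smul, one_smul, HahnSeries.coeff_neg]
  refine ⟨?_, ?_⟩
  · rw [Matrix.det_apply]
    refine Submodule.sum_mem _ fun σ _ => ?_
    intro m hm
    rw [hs, (h1 σ).1 m hm, smul_zero]
  · rw [Matrix.det_apply, Matrix.det_apply, HahnSeries.coeff_sum]
    refine Finset.sum_congr rfl fun σ _ => ?_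
    rw [hs, (h1 σ).2]
    rfl

theorem single_isUnit (n : ℤ) : IsUnit (HahnSeries.single n (1 : A) : LaurentSeries A) := by
  refine IsUnit.of_mul_eq_one (HahnSeries.single (-n) 1) ?_
  rw [HahnSeries.single_mul_single, add_neg_cancel, one_mul]
  rfl

/-- A Laurent series whose leading coefficient is a unit is a unit. -/
theorem isUnit_of_lead {n : ℤ} {f : LaurentSeries A} (hf : f ∈ Pl A n)
    (hu : IsUnit (f.coeff (-n))) : IsUnit f := by
  let g : PowerSeries A := PowerSeries.mk fun k => f.coeff (k - n)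
  have hg : IsUnit g := by
    rw [PowerSeries.isUnit_iff_constantCoeff, ← PowerSeries.coeff_zero_eq_constantCoeff_apply,
      PowerSeries.coeff_mk]
    simpa using hu
  have h1 : f = HahnSeries.single (-n) 1 * HahnSeries.ofPowerSeries ℤ A g := by
    ext m
    rw [HahnSeries.coeff_single_mul, one_mul]
    by_cases hm : m < -n
    · rw [hf m hm]
      symm
      rw [PowerSeries.coeff_coe, if_pos (by omega)]
    · obtain ⟨k, hk⟩ := Int.eq_ofNat_of_zero_le (a := m - -n) (by omega)
      rw [hk, PowerSeries.coeff_coe, if_neg (by omega), Int.natAbs_natCast,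
        PowerSeries.coeff_mk]
      congr 1
      omega
  rw [h1]
  exact (single_isUnit _).mul (hg.map (HahnSeries.ofPowerSeries ℤ A))

end

section

variable {A B : Type} [CommRing A] [CommRing B] {d : ℕ} [NeZero d]

/-- The matrix of the components of a family. -/
noncomputable def cmat (e : ZMod d → LaurentSeries A) :
    Matrix (ZMod d) (ZMod d) (LaurentSeries A) := Matrix.of fun i j => pr j (e i)

/-- The Gram matrix. -/
noncomputable def gram (e : ZMod d → LaurentSeries A) :
    Matrix (ZMod d) (ZMod d) (LaurentSeries A) :=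
  Matrix.of fun i j => pr (0 : ZMod d) (e i * e j)

variable (A d) in
/-- The permutation matrix of the negation. -/
noncomputable def Jm : Matrix (ZMod d) (ZMod d) A :=
  (Equiv.neg (ZMod d)).permMatrix A

theorem Jm_apply (i j : ZMod d) : Jm A d i j = if -i = j then 1 else 0 := by
  rw [Jm, Equiv.Perm.permMatrix, Equiv.toPEquiv, PEquiv.toMatrix_apply]
  simp [eq_comm]

theorem Jm_det : (Jm A d).det = 1 ∨ (Jm A d).det = -1 := by
  rw [Jm, Matrix.det_permutation]
  rcases Int.units_eq_one_or (Equiv.Perm.sign (Equiv.neg (ZMod d))) with h | h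
  · left
    rw [h]
    simp
  · right
    rw [h]
    simp

theorem gram_eq (e : ZMod d → LaurentSeries A) :
    gram e = cmat e * Jm (LaurentSeries A) d * (cmat e).transpose := by
  ext1 i j
  rw [gram, Matrix.of_apply, pr_mul, Matrix.mul_apply]
  have h1 : ∀ k, (cmat e * Jm (LaurentSeries A) d) i k = pr (-k) (e i) := by
    intro k
    rw [Matrix.mul_apply]
    have h2 : ∀ l, cmat e i l * Jm (LaurentSeries A) d l k =
        if l = -k then pr (-k) (e i) else 0 := by
      intro l
      rw [Jm_apply]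
      by_cases h : l = -k
      · rw [if_pos h, if_pos (by rw [h, neg_neg]), h, mul_one]
        rfl
      · rw [if_neg h, if_neg, mul_zero]
        intro h3
        exact h (by rw [← h3, neg_neg])
    rw [Finset.sum_congr rfl fun l _ => h2 l, Finset.sum_ite_eq', if_pos (Finset.mem_univ _)]
  refine Fintype.sum_equiv (Equiv.neg (ZMod d)) _ _ fun k => ?_
  rw [Equiv.neg_apply, h1, neg_neg, zero_sub]
  rfl

theorem gram_det (e : ZMod d → LaurentSeries A) :
    (gram e).det = (cmat e).det ^ 2 * (Jm (LaurentSeries A) d).det := by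
  rw [gram_eq, Matrix.det_mul, Matrix.det_mul, Matrix.det_transpose]
  ring

/-- The leading coefficient of the matrix of components of elements of orders congruent to `i`. -/
theorem cmat_det_lead (e : ZMod d → LaurentSeries A) (N : ZMod d → ℤ)
    (hN : ∀ i, ((N i : ℤ) : ZMod d) = i) (he : ∀ i, e i ∈ Pl A (N i)) :
    (cmat e).det ∈ Pl A (∑ i, N i) ∧
      (cmat e).det.coeff (-∑ i, N i) = (∏ i, (e i).coeff (-N i)) * (Jm A d).det := by
  have h1 := det_lead (cmat e) N fun i j => pr_mem_Pl j (he i)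
  refine ⟨h1.1, ?_⟩
  rw [h1.2]
  have h2 : (Matrix.of fun i j => (cmat e i j).coeff (-N i)) =
      Matrix.diagonal (fun i => (e i).coeff (-N i)) * Jm A d := by
    ext1 i j
    rw [Matrix.of_apply, Matrix.diagonal_mul, Jm_apply, cmat, Matrix.of_apply, pr_coeff]
    push_cast
    rw [hN, mul_ite, mul_one, mul_zero]
  rw [h2, Matrix.det_mul, Matrix.det_diagonal]

/-- The leading coefficient of the determinant of the Gram matrix. -/
theorem gram_det_lead (e : ZMod d → LaurentSeries A) (N : ZMod d → ℤ)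
    (hN : ∀ i, ((N i : ℤ) : ZMod d) = i) (he : ∀ i, e i ∈ Pl A (N i)) :
    (gram e).det ∈ Pl A (2 * ∑ i, N i) ∧
      ((gram e).det.coeff (-(2 * ∑ i, N i)) = (∏ i, (e i).coeff (-N i)) ^ 2 ∨
        (gram e).det.coeff (-(2 * ∑ i, N i)) = -(∏ i, (e i).coeff (-N i)) ^ 2) := by
  obtain ⟨h1, h2⟩ := cmat_det_lead e N hN he
  have h3 := pow_mem_Pl h1 2
  have h4 := coeff_pow_Pl h1 2
  rw [h2, mul_pow] at h4
  have h5 : (Jm A d).det ^ 2 = 1 := by
    rcases Jm_det (A := A) (d := d) with h | h
    · rw [h, one_pow]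
    · rw [h]
      ring
  rw [h5, mul_one] at h4
  rw [gram_det]
  push_cast at h3 h4
  rcases Jm_det (A := LaurentSeries A) (d := d) with h | h
  · rw [h, mul_one]
    exact ⟨h3, Or.inl h4⟩
  · rw [h, mul_neg, mul_one]
    refine ⟨Submodule.neg_mem _ h3, Or.inr ?_⟩
    rw [HahnSeries.coeff_neg, h4]

/-- Change of the family. -/
theorem cmat_mul (a : Matrix (ZMod d) (ZMod d) A[X]) (e e' : ZMod d → LaurentSeries A)
    (h : ∀ i, e i = ∑ j, ev d (a i j) * e' j) :
    cmat e = a.map (ev d) * cmat e' := by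
  ext1 i j
  rw [Matrix.mul_apply, cmat, Matrix.of_apply, h i, map_sum]
  refine Finset.sum_congr rfl fun k _ => ?_
  rw [pr_ev_mul]
  rfl

theorem det_map_ev {ι : Type} [Fintype ι] [DecidableEq ι] (a : Matrix ι ι A[X]) :
    (a.map (ev d)).det = ev d a.det := by
  exact (RingHom.map_det (ev d : A[X] →ₐ[A] LaurentSeries A).toRingHom a).symm

theorem gram_det_mul (a : Matrix (ZMod d) (ZMod d) A[X]) (e e' : ZMod d → LaurentSeries A)
    (h : ∀ i, e i = ∑ j, ev d (a i j) * e' j) :
    (gram e).det = ev d (a.det ^ 2) * (gram e').det := by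
  rw [gram_det, gram_det, cmat_mul a e e' h, Matrix.det_mul, det_map_ev, map_pow]
  ring

theorem lmap_gram (φ : A →+* B) (e : ZMod d → LaurentSeries A) :
    gram (fun i => lmap φ (e i)) = (gram e).map (lmap φ) := by
  ext1 i j
  rw [Matrix.map_apply, gram, gram, Matrix.of_apply, Matrix.of_apply, lmap_pr,
    map_mul (lmap φ)]

theorem lmap_gram_det (φ : A →+* B) (e : ZMod d → LaurentSeries A) :
    (gram (fun i => lmap φ (e i))).det = lmap φ (gram e).det := by
  rw [lmap_gram]
  exact (RingHom.map_det (lmap φ) (gram e)).symm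

end

end Pool.Agent.MG.G0.ZL
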