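import Pool.Agent.MG.G0.ZL.L2

/-!
# Krichever rings with one puncture which contain `z`: bases over `A[z]`, traces
-/

namespace Pool.Agent.MG.G0.ZL

open Polynomial

section

variable {A B : Type} [CommRing A] [CommRing B] {g : ℕ} {R : Subalgebra A (LaurentSeries A)}

/-- Approximation by elements of `R`. -/
theorem kr_dense (hR : Kr g R) :
    ∃ N : ℕ, ∀ f : LaurentSeries A, ∃ p ∈ R, f - p ∈ Pl A N := by
  classical
  obtain ⟨-, L, hL, hk⟩ := Kr_iff.1 hR
  choose v hv using fun j : Fin g => hL (Pi.single j 1)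
  choose n hn using fun j : Fin g => exists_Pl (v j)
  refine ⟨Finset.univ.sup n, fun f => ?_⟩
  have h1 : L (f - ∑ j, L f j • v j) = 0 := by
    rw [map_sub, map_sum]
    have h2 : ∀ j, L (L f j • v j) = Pi.single j (L f j) := by
      intro j
      rw [map_smul, hv, ← Pi.single_smul, smul_eq_mul, mul_one]
    rw [Finset.sum_congr rfl fun j _ => h2 j, Finset.univ_sum_single, sub_self]
  obtain ⟨p, hp, hq⟩ := (hk _).1 h1
  refine ⟨p, hp, ?_⟩
  have h3 : f - p = (f - ∑ j, L f j • v j - p) + ∑ j, L f j • v j := by abel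
  rw [h3]
  refine Submodule.add_mem _ (Pl_mono (by omega) hq) (Submodule.sum_mem _ fun j _ =>
    Submodule.smul_mem _ _ (Pl_mono ?_ (hn j)))
  exact_mod_cast Finset.le_sup (f := n) (Finset.mem_univ j)

/-- There are monic elements of all large orders. -/
theorem kr_monic (hR : Kr g R) :
    ∃ N : ℕ, ∀ n : ℕ, N < n → ∃ p ∈ R, p ∈ Pl A n ∧ p.coeff (-(n : ℤ)) = 1 := by
  obtain ⟨N, hN⟩ := kr_dense hR
  refine ⟨N, fun n hn => ?_⟩
  obtain ⟨p, hp, hq⟩ := hN (HahnSeries.single (-(n : ℤ)) 1)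
  have h1 : p = HahnSeries.single (-(n : ℤ)) 1 - (HahnSeries.single (-(n : ℤ)) 1 - p) := by abel
  refine ⟨p, hp, ?_, ?_⟩
  · rw [h1]
    exact Submodule.sub_mem _ (single_mem_Pl 1 (by omega)) (Pl_mono (by omega) hq)
  · rw [h1, HahnSeries.coeff_sub, HahnSeries.coeff_single_same, hq _ (by omega), sub_zero]

variable {d : ℕ} [NeZero d]

/-- The family `e` generates `R` over `A[z]`. -/
def Spn (R : Subalgebra A (LaurentSeries A)) (e : ZMod d → LaurentSeries A) : Prop :=
  (∀ i, e i ∈ R) ∧ ∀ x ∈ R, ∃ q : ZMod d → A[X], x = ∑ i, ev d (q i) * e i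

/-- A generating family with `d` elements is a basis of `A((τ))` over `A((τᵈ))`. -/
theorem cmat_isUnit (hR : Kr g R) {e : ZMod d → LaurentSeries A} (he : Spn R e) :
    IsUnit (cmat e).det := by
  classical
  obtain ⟨N, hN⟩ := kr_dense hR
  have hd : 0 < d := Nat.pos_of_ne_zero (NeZero.ne d)
  -- the orders
  let M : ZMod d → ℤ := fun i => ((d * (N + 2) : ℕ) : ℤ) - (i.val : ℤ)
  have hM : ∀ i, (N : ℤ) < M i := by
    intro i
    have h1 : i.val < d := ZMod.val_lt i
    have h2 : N + 2 ≤ d * (N + 2) := Nat.le_mul_of_pos_left _ hd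
    have h3 : (N + 1) + d ≤ d * (N + 2) := by nlinarith
    show (N : ℤ) < ((d * (N + 2) : ℕ) : ℤ) - (i.val : ℤ)
    omega
  have hMi : ∀ i, ((-M i : ℤ) : ZMod d) = i := by
    intro i
    show ((-(((d * (N + 2) : ℕ) : ℤ) - (i.val : ℤ)) : ℤ) : ZMod d) = i
    push_cast
    rw [ZMod.natCast_self, ZMod.natCast_zmod_val]
    ring
  choose p hp hq using fun i : ZMod d => hN (HahnSeries.single (-M i) 1)
  have hp' : ∀ i, p i = HahnSeries.single (-M i) 1 - (HahnSeries.single (-M i) 1 - p i) :=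
    fun i => by abel
  have h1 : ∀ i j, cmat p i j ∈ Pl A (M i) := by
    intro i j
    refine pr_mem_Pl j ?_
    rw [hp' i]
    exact Submodule.sub_mem _ (single_mem_Pl 1 (by omega)) (Pl_mono (hM i).le (hq i))
  have h2 : ∀ i j, (cmat p i j).coeff (-M i) = if i = j then 1 else 0 := by
    intro i j
    show (pr j (p i)).coeff (-M i) = if i = j then 1 else 0
    rw [pr_coeff, hMi]
    split_ifs with h
    · rw [hp' i, HahnSeries.coeff_sub, HahnSeries.coeff_single_same,
        hq i _ (by have := hM i; omega), sub_zero]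
    · rfl
  have h3 : IsUnit (cmat p).det := by
    obtain ⟨h4, h5⟩ := det_lead (cmat p) M h1
    refine isUnit_of_lead h4 ?_
    rw [h5]
    have h6 : (Matrix.of fun i j => (cmat p i j).coeff (-M i)) = (1 : Matrix _ _ A) := by
      ext1 i j
      rw [Matrix.of_apply, h2, Matrix.one_apply]
    rw [h6, Matrix.det_one]
    exact isUnit_one
  choose q hq' using fun i => he.2 (p i) (hp i)
  rw [cmat_mul (Matrix.of q) p e hq', Matrix.det_mul] at h3
  exact isUnit_of_mul_isUnit_right h3

/-- Uniqueness of the coefficients. -/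
theorem coef_unique {e : ZMod d → LaurentSeries A} (he : IsUnit (cmat e).det)
    {q q' : ZMod d → A[X]} (h : ∑ i, ev d (q i) * e i = ∑ i, ev d (q' i) * e i) : q = q' := by
  classical
  have h1 : Matrix.vecMul (fun i => ev d (q i) - ev d (q' i)) (cmat e) = 0 := by
    funext j
    rw [Matrix.vecMul, dotProduct]
    have h2 : ∀ i, (ev d (q i) - ev d (q' i)) * cmat e i j =
        pr j (ev d (q i) * e i) - pr j (ev d (q' i) * e i) := by
      intro i
      rw [pr_ev_mul, pr_ev_mul, sub_mul]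
      rfl
    rw [Finset.sum_congr rfl fun i _ => h2 i, Finset.sum_sub_distrib, ← map_sum, ← map_sum, h,
      sub_self]
    rfl
  have h3 : (fun i => ev d (q i) - ev d (q' i)) = 0 := by
    have h4 := congrArg (fun v => Matrix.vecMul v (cmat e)⁻¹) h1
    simp only [Matrix.vecMul_vecMul, Matrix.mul_nonsing_inv _ he, Matrix.vecMul_one,
      Matrix.zero_vecMul] at h4
    exact h4
  funext i
  apply ev_injective d (NeZero.ne d)
  exact sub_eq_zero.1 (congrFun h3 i)

/-- The matrix of the multiplication by `x` in a basis. -/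
theorem exists_mulMat (hR : Kr g R) {e : ZMod d → LaurentSeries A} (he : Spn R e)
    {x : LaurentSeries A} (hx : x ∈ R) : ∃ m : Matrix (ZMod d) (ZMod d) A[X],
      (cm d x).charpoly = m.charpoly.map (ev d : A[X] →ₐ[A] LaurentSeries A).toRingHom ∧
      (cm d x).trace = ev d m.trace := by
  classical
  have hu := cmat_isUnit hR he
  choose q hq using fun i => he.2 (x * e i) (mul_mem hx (he.1 i))
  let m : Matrix (ZMod d) (ZMod d) A[X] := Matrix.of q
  have h1 : cmat e * cm d x = m.map (ev d) * cmat e := by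
    ext1 i k
    rw [Matrix.mul_apply, Matrix.mul_apply]
    have h2 : ∑ j, cmat e i j * cm d x j k = pr k (x * e i) := by
      rw [mul_comm x, pr_mul]
      rfl
    rw [h2, hq i, map_sum]
    refine Finset.sum_congr rfl fun l _ => ?_
    rw [pr_ev_mul]
    rfl
  have hC : IsUnit (cmat e) := (Matrix.isUnit_iff_isUnit_det _).2 hu
  obtain ⟨u, hu'⟩ := hC
  have h2 : cm d x = (↑u⁻¹ : Matrix (ZMod d) (ZMod d) (LaurentSeries A)) * m.map (ev d) *
      (u : Matrix (ZMod d) (ZMod d) (LaurentSeries A)) := by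
    rw [mul_assoc, hu', ← h1, ← hu', ← mul_assoc, Units.inv_mul, one_mul]
  refine ⟨m, ?_, ?_⟩
  · rw [h2, Matrix.coe_units_inv, Matrix.charpoly_units_conj']
    exact Matrix.charpoly_map m (ev d : A[X] →ₐ[A] LaurentSeries A).toRingHom
  · rw [h2, Matrix.trace_units_conj']
    simp only [Matrix.trace, Matrix.diag_apply, Matrix.map_apply, map_sum]

/-- The coefficients of the characteristic polynomial are polynomials in `z`. -/
theorem charpoly_coeff_mem (hR : Kr g R) {e : ZMod d → LaurentSeries A} (he : Spn R e)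
    {x : LaurentSeries A} (hx : x ∈ R) (k : ℕ) : ∃ q : A[X],
      (cm d x).charpoly.coeff k = ev d q := by
  obtain ⟨m, hm, -⟩ := exists_mulMat hR he hx
  refine ⟨m.charpoly.coeff k, ?_⟩
  rw [hm, coeff_map]
  rfl

/-- The trace of an element of `R` is a polynomial in `z`. -/
theorem pr_mem_ev (hR : Kr g R) {e : ZMod d → LaurentSeries A} (he : Spn R e)
    (hd : IsUnit (d : A)) {x : LaurentSeries A} (hx : x ∈ R) : ∃ q : A[X],
      pr (0 : ZMod d) x = ev d q := by
  obtain ⟨m, -, hm⟩ := exists_mulMat hR he hx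
  obtain ⟨u, hu⟩ := hd
  refine ⟨C (↑u⁻¹ : A) * m.trace, ?_⟩
  rw [trace_cm] at hm
  rw [map_mul, ← hm, ← mul_assoc]
  have h1 : (d : LaurentSeries A) = ev d (C (d : A)) := by
    rw [map_natCast, map_natCast]
  rw [h1, ← map_mul, ← C_mul, ← hu, Units.inv_mul, C_1, map_one, one_mul]

end

end Pool.Agent.MG.G0.ZL
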