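import Pool.Agent.MG.G0.ZL.L3

/-!
# Krichever rings over a field: gaps, the echelon basis, the degree of the discriminant
-/

namespace Pool.Agent.MG.G0.ZL

open Polynomial

section

variable {A : Type} [CommRing A]

/-- Lowering the order. -/
theorem mem_Pl_pred {n : ℤ} {f : LaurentSeries A} (hf : f ∈ Pl A n) (h0 : f.coeff (-n) = 0) :
    f ∈ Pl A (n - 1) := by
  intro m hm
  by_cases h : m = -n
  · rw [h, h0]
  · exact hf m (by omega)

theorem zzpow_mul_mem_Pl {d : ℕ} (k : ℕ) {n : ℤ} {f : LaurentSeries A} (hf : f ∈ Pl A n) :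
    ev d (X ^ k) * f ∈ Pl A ((d * k : ℕ) + n) := by
  rw [map_pow, ev_X, zz_pow]
  exact mul_mem_Pl (single_mem_Pl 1 (by omega)) hf

theorem zzpow_mul_coeff {d : ℕ} (k : ℕ) {n : ℤ} {f : LaurentSeries A} (hf : f ∈ Pl A n) :
    (ev d (X ^ k) * f).coeff (-((d * k : ℕ) + n)) = f.coeff (-n) := by
  have h1 : (HahnSeries.single (-((d * k : ℕ) : ℤ)) (1 : A) : LaurentSeries A) ∈
      Pl A ((d * k : ℕ) : ℤ) := single_mem_Pl 1 (by omega)
  rw [map_pow, ev_X, zz_pow, coeff_mul_Pl h1 hf, HahnSeries.coeff_single_same, one_mul]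

end

section

variable {κ : Type} [Field κ] {g : ℕ} {R : Subalgebra κ (LaurentSeries κ)} {d : ℕ} [NeZero d]

/-- There is a monic element of order `n`. -/
def Ord (R : Subalgebra κ (LaurentSeries κ)) (n : ℕ) : Prop :=
  ∃ p ∈ R, p ∈ Pl κ n ∧ p.coeff (-(n : ℤ)) = 1

theorem ord_of_coeff {n : ℕ} {p : LaurentSeries κ} (hp : p ∈ R) (hn : p ∈ Pl κ n)
    (h : p.coeff (-(n : ℤ)) ≠ 0) : Ord R n := by
  refine ⟨(p.coeff (-(n : ℤ)))⁻¹ • p, R.smul_mem hp _, Submodule.smul_mem _ _ hn, ?_⟩
  rw [HahnSeries.coeff_smul, smul_eq_mul, inv_mul_cancel₀ h]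

theorem ord_zero (R : Subalgebra κ (LaurentSeries κ)) : Ord R 0 := by
  refine ⟨1, one_mem R, one_mem_Pl (by simp), ?_⟩
  simp

theorem ord_add {n m : ℕ} (hn : Ord R n) (hm : Ord R m) : Ord R (n + m) := by
  obtain ⟨p, hp, h1, h2⟩ := hn
  obtain ⟨q, hq, h3, h4⟩ := hm
  refine ⟨p * q, mul_mem hp hq, ?_, ?_⟩
  · push_cast
    exact mul_mem_Pl h1 h3
  · push_cast
    rw [coeff_mul_Pl h1 h3, h2, h4, one_mul]

theorem ord_d (hz : zz κ d ∈ R) : Ord R d :=
  ⟨zz κ d, hz, single_mem_Pl 1 le_rfl, HahnSeries.coeff_single_same _ _⟩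

theorem ord_add_mul (hz : zz κ d ∈ R) {n : ℕ} (hn : Ord R n) (k : ℕ) : Ord R (n + d * k) := by
  induction k with
  | zero => simpa using hn
  | succ k ih =>
    have h1 : n + d * (k + 1) = (n + d * k) + d := by ring
    rw [h1]
    exact ord_add ih (ord_d hz)

theorem eq_zero_of_neg (hR : Kr g R) {x : LaurentSeries κ} (hx : x ∈ R) (h : x ∈ Pl κ (-1)) :
    x = 0 := by
  obtain ⟨a, ha⟩ := (Kr_iff.1 hR).1 x hx (Pl_mono (by omega) h)
  have h1 := h 0 (by omega)
  rw [ha, coeff_algebraMap, if_pos rfl] at h1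
  rw [ha, h1, map_zero]

/-- The least order in every class. -/
theorem exists_ech (hR : Kr g R) (hz : zz κ d ∈ R) :
    ∃ N : ZMod d → ℕ, (∀ i, (N i : ZMod d) = i) ∧ (∀ n : ℕ, Ord R n ↔ N n ≤ n) := by
  classical
  have hd : 0 < d := Nat.pos_of_ne_zero (NeZero.ne d)
  obtain ⟨M, hM⟩ := kr_monic hR
  have h1 : ∀ i : ZMod d, ∃ n : ℕ, (n : ZMod d) = i ∧ Ord R n := by
    intro i
    refine ⟨i.val + d * (M + 1), ?_, ?_⟩
    · push_cast
      rw [ZMod.natCast_self, ZMod.natCast_zmod_val]
      ring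
    · refine hM _ ?_
      have : M + 1 ≤ d * (M + 1) := Nat.le_mul_of_pos_left _ hd
      omega
  refine ⟨fun i => Nat.find (h1 i), fun i => (Nat.find_spec (h1 i)).1, fun n => ⟨fun h => ?_,
    fun h => ?_⟩⟩
  · exact Nat.find_min' _ ⟨rfl, h⟩
  · have h' : Nat.find (h1 (n : ZMod d)) ≤ n := h
    obtain ⟨h2, h3⟩ := Nat.find_spec (h1 (n : ZMod d))
    have h4 : d ∣ n - Nat.find (h1 (n : ZMod d)) := by
      rw [← ZMod.natCast_eq_zero_iff, Nat.cast_sub h', h2, sub_self]
    obtain ⟨k, hk⟩ := h4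
    have h5 : n = Nat.find (h1 (n : ZMod d)) + d * k := by omega
    rw [h5]
    exact ord_add_mul hz h3 k

/-- Elements with monic leading terms of the least orders generate. -/
theorem spn_of_ech (hR : Kr g R) (hz : zz κ d ∈ R) (N : ZMod d → ℕ)
    (hN : ∀ i, (N i : ZMod d) = i) (hN' : ∀ n : ℕ, Ord R n ↔ N n ≤ n)
    (e : ZMod d → LaurentSeries κ) (he : ∀ i, e i ∈ R) (he1 : ∀ i, e i ∈ Pl κ (N i))
    (he2 : ∀ i, (e i).coeff (-(N i : ℤ)) = 1) : Spn R e := by
  classical
  refine ⟨he, ?_⟩
  have key : ∀ n : ℕ, ∀ x ∈ R, x ∈ Pl κ ((n : ℤ) - 1) →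
      ∃ q : ZMod d → κ[X], x = ∑ i, ev d (q i) * e i := by
    intro n
    induction n with
    | zero =>
      intro x hx hx'
      refine ⟨0, ?_⟩
      rw [eq_zero_of_neg hR hx (by simpa using hx')]
      simp
    | succ n ih =>
      intro x hx hx'
      have hx'' : x ∈ Pl κ n := by
        have h1 : ((n + 1 : ℕ) : ℤ) - 1 = n := by push_cast; ring
        rwa [h1] at hx'
      by_cases ha : x.coeff (-(n : ℤ)) = 0
      · exact ih x hx (mem_Pl_pred hx'' ha)
      · have h1 : N n ≤ n := (hN' n).1 (ord_of_coeff hx hx'' ha)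
        have h2 : d ∣ n - N n := by
          rw [← ZMod.natCast_eq_zero_iff, Nat.cast_sub h1, hN, sub_self]
        obtain ⟨k, hk⟩ := h2
        have h3 : (n : ℤ) = (d * k : ℕ) + (N n : ℤ) := by omega
        let y : LaurentSeries κ := ev d (C (x.coeff (-(n : ℤ))) * X ^ k) * e n
        have hy : y ∈ R := by
          refine mul_mem ?_ (he _)
          rw [map_mul, ev_C, map_pow, ev_X]
          exact mul_mem (R.algebraMap_mem _) (pow_mem hz k)
        have hy1 : y = x.coeff (-(n : ℤ)) • (ev d (X ^ k) * e n) := by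
          show ev d (C (x.coeff (-(n : ℤ))) * X ^ k) * e n = _
          rw [map_mul, ev_C, mul_assoc, ← Algebra.smul_def]
        have hy2 : y ∈ Pl κ n := by
          rw [hy1, h3]
          exact Submodule.smul_mem _ _ (zzpow_mul_mem_Pl k (he1 _))
        have hy3 : y.coeff (-(n : ℤ)) = x.coeff (-(n : ℤ)) := by
          have h4 := zzpow_mul_coeff (d := d) k (he1 (n : ZMod d))
          rw [← h3, he2] at h4
          rw [hy1, HahnSeries.coeff_smul, h4, smul_eq_mul, mul_one]
        obtain ⟨q, hq⟩ := ih (x - y) (sub_mem hx hy)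
          (mem_Pl_pred (Submodule.sub_mem _ hx'' hy2) (by
            rw [HahnSeries.coeff_sub, hy3, sub_self]))
        refine ⟨q + Pi.single (n : ZMod d) (C (x.coeff (-(n : ℤ))) * X ^ k), ?_⟩
        have h5 : x = (x - y) + y := by abel
        conv_lhs => rw [h5, hq]
        have h6 : ∀ i, ev d ((q + Pi.single (n : ZMod d)
            (C (x.coeff (-(n : ℤ))) * X ^ k) : ZMod d → κ[X]) i) * e i = ev d (q i) * e i + if i = (n : ZMod d) then y else 0 := by
          intro i
          rw [Pi.add_apply, map_add, add_mul]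
          congr 1
          by_cases hi : i = (n : ZMod d)
          · rw [if_pos hi, hi, Pi.single_eq_same]
          · rw [if_neg hi, Pi.single_eq_of_ne hi, map_zero, zero_mul]
        rw [Finset.sum_congr rfl fun i _ => h6 i, Finset.sum_add_distrib, Finset.sum_ite_eq',
          if_pos (Finset.mem_univ _)]
  intro x hx
  obtain ⟨n, hn⟩ := exists_Pl x
  refine key (n + 1) x hx ?_
  push_cast
  rwa [add_sub_cancel_right]

/-- The number of gaps. -/
theorem sum_ech_aux (hR : Kr g R) (N : ZMod d → ℕ)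
    (hN : ∀ i, (N i : ZMod d) = i) (hN' : ∀ n : ℕ, Ord R n ↔ N n ≤ n) :
    ∑ i, N i = d * g + ∑ i : ZMod d, i.val ∧
      ∃ s : Finset ℕ, (∀ n, n ∈ s ↔ ¬ Ord R n) ∧ s.card = g := by
  classical
  have hd : 0 < d := Nat.pos_of_ne_zero (NeZero.ne d)
  obtain ⟨-, L, hL, hk⟩ := Kr_iff.1 hR
  -- `N i = i.val + d * k i`
  have h1 : ∀ i : ZMod d, ∃ k : ℕ, N i = i.val + d * k := by
    intro i
    have h2 : (N i) % d = i.val := by
      rw [← ZMod.val_natCast, hN]
    exact ⟨N i / d, by rw [← h2, Nat.mod_add_div]⟩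
  choose k hk' using h1
  let ι := (i : ZMod d) × Fin (k i)
  let ex : ι → ℕ := fun s => s.1.val + d * (s.2 : ℕ)
  have hexi : ∀ s : ι, ((ex s : ℕ) : ZMod d) = s.1 := by
    intro s
    show ((s.1.val + d * (s.2 : ℕ) : ℕ) : ZMod d) = s.1
    push_cast
    rw [ZMod.natCast_self, ZMod.natCast_zmod_val]
    ring
  have hexlt : ∀ s : ι, ex s < N s.1 := by
    intro s
    rw [hk']
    show s.1.val + d * (s.2 : ℕ) < s.1.val + d * k s.1
    have := (Nat.mul_lt_mul_left hd).2 s.2.2
    omega
  have hexno : ∀ s : ι, ¬ Ord R (ex s) := by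
    intro s
    rw [hN', hexi]
    have := hexlt s
    omega
  have hexinj : Function.Injective ex := by
    intro s t hst
    have h2 : s.1 = t.1 := by rw [← hexi s, ← hexi t, hst]
    obtain ⟨i, a⟩ := s
    obtain ⟨j, b⟩ := t
    simp only at h2
    subst h2
    have h3 : i.val + d * (a : ℕ) = i.val + d * (b : ℕ) := hst
    have h4 : (a : ℕ) = b := Nat.eq_of_mul_eq_mul_left hd (by omega)
    rw [Fin.ext h4]
  have hexsurj : ∀ n : ℕ, ¬ Ord R n → ∃ s : ι, ex s = n := by
    intro n hn
    rw [hN', not_le, hk'] at hn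
    have h2 : n = (n : ZMod d).val + d * (n / d) := by
      rw [ZMod.val_natCast, Nat.mod_add_div]
    have h3 : n / d < k (n : ZMod d) := by
      have h4 : (n : ZMod d).val + d * (n / d) < (n : ZMod d).val + d * k (n : ZMod d) := by
        rw [← h2]
        exact hn
      exact (Nat.mul_lt_mul_left hd).1 (by omega)
    exact ⟨⟨(n : ZMod d), ⟨n / d, h3⟩⟩, h2.symm⟩
  let v : ι → (Fin g → κ) := fun s => L (HahnSeries.single (-(ex s : ℤ)) 1)
  -- independence
  have hli : LinearIndependent κ v := by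
    rw [Fintype.linearIndependent_iff]
    intro c hc
    have h2 : L (∑ s, c s • (HahnSeries.single (-(ex s : ℤ)) (1 : κ))) = 0 := by
      rw [map_sum, ← hc]
      exact Finset.sum_congr rfl fun s _ => map_smul _ _ _
    obtain ⟨p, hp, hq⟩ := (hk _).1 h2
    set f : LaurentSeries κ := ∑ s, c s • (HahnSeries.single (-(ex s : ℤ)) (1 : κ)) with hf
    have hfc : ∀ t : ι, f.coeff (-(ex t : ℤ)) = c t := by
      intro t
      rw [hf, HahnSeries.coeff_sum]
      have h3 : ∀ s, (c s • (HahnSeries.single (-(ex s : ℤ)) (1 : κ))).coeff (-(ex t : ℤ)) =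
          if s = t then c t else 0 := by
        intro s
        rw [HahnSeries.coeff_smul, smul_eq_mul]
        by_cases hs : s = t
        · rw [if_pos hs, hs, HahnSeries.coeff_single_same, mul_one]
        · rw [if_neg hs, HahnSeries.coeff_single_of_ne, mul_zero]
          intro h4
          apply hs
          apply hexinj
          omega
      rw [Finset.sum_congr rfl fun s _ => h3 s, Finset.sum_ite_eq', if_pos (Finset.mem_univ _)]
    by_contra hcon
    push Not at hcon
    obtain ⟨s0, hs0⟩ := hcon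
    obtain ⟨t, ht, htmax⟩ := Finset.exists_max_image
      (Finset.univ.filter fun s => c s ≠ 0) ex ⟨s0, by simpa using hs0⟩
    have ht0 : c t ≠ 0 := (Finset.mem_filter.1 ht).2
    have hfP : f ∈ Pl κ (ex t) := by
      rw [hf]
      refine Submodule.sum_mem _ fun s _ => ?_
      by_cases hs : c s = 0
      · rw [hs, zero_smul]
        exact Submodule.zero_mem _
      · refine Submodule.smul_mem _ _ (single_mem_Pl 1 ?_)
        have := htmax s (by simpa using hs)
        omega
    have ht1 : 0 < ex t := by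
      rcases Nat.eq_zero_or_pos (ex t) with h | h
      · exact absurd (h ▸ ord_zero R) (hexno t)
      · exact h
    have hp1 : p = f - (f - p) := by abel
    apply hexno t
    refine ord_of_coeff hp ?_ ?_
    · rw [hp1]
      exact Submodule.sub_mem _ hfP (Pl_mono (by omega) hq)
    · rw [hp1, HahnSeries.coeff_sub, hq _ (by omega), sub_zero, hfc]
      exact ht0
  -- generation
  have hsp : ⊤ ≤ Submodule.span κ (Set.range v) := by
    rintro c -
    obtain ⟨f, rfl⟩ := hL c
    obtain ⟨n, hn⟩ := exists_Pl f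
    have key : ∀ n : ℕ, ∀ f : LaurentSeries κ, f ∈ Pl κ n →
        L f ∈ Submodule.span κ (Set.range v) := by
      intro n
      induction n with
      | zero =>
        intro f hf
        have h2 : L f = 0 := (hk f).2 ⟨0, zero_mem R, by simpa using hf⟩
        rw [h2]
        exact Submodule.zero_mem _
      | succ n ih =>
        intro f hf
        by_cases ho : Ord R (n + 1)
        · obtain ⟨p, hp, hp1, hp2⟩ := ho
          have h2 : L p = 0 := (hk p).2 ⟨p, hp, by rw [sub_self]; exact Submodule.zero_mem _⟩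
          have h3 : f = (f - f.coeff (-((n + 1 : ℕ) : ℤ)) • p) +
              f.coeff (-((n + 1 : ℕ) : ℤ)) • p := by abel
          rw [h3, map_add, map_smul, h2, smul_zero, add_zero]
          refine ih _ ?_
          have h4 := mem_Pl_pred (Submodule.sub_mem _ hf (Submodule.smul_mem _
            (f.coeff (-((n + 1 : ℕ) : ℤ))) hp1)) (by
              rw [HahnSeries.coeff_sub, HahnSeries.coeff_smul, hp2, smul_eq_mul, mul_one,
                sub_self])
          have h5 : ((n + 1 : ℕ) : ℤ) - 1 = n := by push_cast; ring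
          rwa [h5] at h4
        · obtain ⟨s, hs⟩ := hexsurj _ ho
          have h3 : f = (f - f.coeff (-((n + 1 : ℕ) : ℤ)) •
              (HahnSeries.single (-((n + 1 : ℕ) : ℤ)) (1 : κ))) +
              f.coeff (-((n + 1 : ℕ) : ℤ)) •
                (HahnSeries.single (-((n + 1 : ℕ) : ℤ)) (1 : κ)) := by abel
          rw [h3, map_add, map_smul]
          refine Submodule.add_mem _ (ih _ ?_) (Submodule.smul_mem _ _
            (Submodule.subset_span ⟨s, ?_⟩))
          · have h4 := mem_Pl_pred (Submodule.sub_mem _ hf (Submodule.smul_mem _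
              (f.coeff (-((n + 1 : ℕ) : ℤ)))
              (single_mem_Pl (n := ((n + 1 : ℕ) : ℤ)) (1 : κ) le_rfl))) (by
                rw [HahnSeries.coeff_sub, HahnSeries.coeff_smul, HahnSeries.coeff_single_same,
                  smul_eq_mul, mul_one, sub_self])
            have h5 : ((n + 1 : ℕ) : ℤ) - 1 = n := by push_cast; ring
            rwa [h5] at h4
          · show L (HahnSeries.single (-(ex s : ℤ)) 1) = _
            rw [hs]
    exact key n f hn
  have hb := Module.finrank_eq_card_basis (Module.Basis.mk hli hsp)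
  rw [Module.finrank_fin_fun] at hb
  have hcard : Fintype.card ι = ∑ i, k i := by
    rw [Fintype.card_sigma]
    simp
  refine ⟨?_, Finset.univ.image ex, fun n => ⟨fun hn => ?_, fun hn => ?_⟩, ?_⟩
  · rw [hcard] at hb
    rw [Finset.sum_congr rfl fun i _ => hk' i, Finset.sum_add_distrib, ← Finset.mul_sum, ← hb,
      add_comm]
  · obtain ⟨s, -, rfl⟩ := Finset.mem_image.1 hn
    exact hexno s
  · obtain ⟨s, hs⟩ := hexsurj n hn
    exact Finset.mem_image.2 ⟨s, Finset.mem_univ _, hs⟩
  · rw [Finset.card_image_of_injective _ hexinj, Finset.card_univ, ← hb]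

/-- The sum of the orders of the echelon basis. -/
theorem sum_ech (hR : Kr g R) (N : ZMod d → ℕ)
    (hN : ∀ i, (N i : ZMod d) = i) (hN' : ∀ n : ℕ, Ord R n ↔ N n ≤ n) :
    ∑ i, N i = d * g + ∑ i : ZMod d, i.val := (sum_ech_aux hR N hN hN').1

/-- All orders `n ≥ 2g` occur. -/
theorem ord_of_two_mul_le (hR : Kr g R) (hz : zz κ d ∈ R) {n : ℕ} (hn : 2 * g ≤ n) :
    Ord R n := by
  classical
  obtain ⟨N, hN, hN'⟩ := exists_ech hR hz
  obtain ⟨s, hs, hcard⟩ := (sum_ech_aux hR N hN hN').2
  by_contra hno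
  have h1 : Finset.range (n + 1) ⊆ s ∪ s.image fun m => n - m := by
    intro m hm
    rw [Finset.mem_range] at hm
    rw [Finset.mem_union]
    by_cases h2 : Ord R m
    · right
      rw [Finset.mem_image]
      refine ⟨n - m, ?_, by omega⟩
      rw [hs]
      intro h3
      apply hno
      have h4 : n = m + (n - m) := by omega
      rw [h4]
      exact ord_add h2 h3
    · left
      exact (hs m).2 h2
  have h2 := Finset.card_le_card h1
  have h3 := Finset.card_union_le s (s.image fun m => n - m)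
  have h4 : (s.image fun m => n - m).card ≤ s.card := Finset.card_image_le
  rw [Finset.card_range] at h2
  omega

theorem two_sum_val : 2 * ∑ i : ZMod d, i.val = d * (d - 1) := by
  obtain ⟨n, hn⟩ : ∃ n, d = n + 1 := Nat.exists_eq_succ_of_ne_zero (NeZero.ne d)
  subst hn
  have h1 : ∑ i : ZMod (n + 1), i.val = ∑ i ∈ Finset.range (n + 1), i := by
    rw [← Fin.sum_univ_eq_sum_range (fun i => i) (n + 1)]
    rfl
  rw [h1, mul_comm, Finset.sum_range_id_mul_two]

end

end Pool.Agent.MG.G0.ZL
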