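import Pool.Agent.MG.G0.StmtsZL
import Pool.Agent.MG.G0.ZL.L4

/-!
# ZINT: integrality of the coefficients
-/

namespace Pool.Agent.MG.G0.ZL

open Polynomial

section

variable {E : Type} [CommRing E]

/-- The series with coefficients in a subring. -/
def lsub (E₀ : Subring E) : Subring (LaurentSeries E) where
  carrier := {f | ∀ m, f.coeff m ∈ E₀}
  mul_mem' {f g} hf hg m := by
    obtain ⟨a, ha⟩ := exists_low f
    obtain ⟨b, hb⟩ := exists_low g
    rw [coeff_mul_Icc ha hb]
    exact sum_mem fun i _ => mul_mem (hf i) (hg _)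
  one_mem' m := by
    rw [HahnSeries.coeff_one]
    split_ifs
    · exact one_mem _
    · exact zero_mem _
  add_mem' {f g} hf hg m := by
    rw [HahnSeries.coeff_add]
    exact add_mem (hf m) (hg m)
  zero_mem' m := by
    rw [HahnSeries.coeff_zero]
    exact zero_mem _
  neg_mem' {f} hf m := by
    rw [HahnSeries.coeff_neg]
    exact neg_mem (hf m)

theorem mem_lsub {E₀ : Subring E} {f : LaurentSeries E} : f ∈ lsub E₀ ↔ ∀ m, f.coeff m ∈ E₀ :=
  Iff.rfl

theorem single_mem_lsub {E₀ : Subring E} {a : E} (ha : a ∈ E₀) (n : ℤ) :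
    (HahnSeries.single n a : LaurentSeries E) ∈ lsub E₀ := by
  intro m
  by_cases h : m = n
  · rw [h, HahnSeries.coeff_single_same]
    exact ha
  · rw [HahnSeries.coeff_single_of_ne h]
    exact zero_mem _

/-- Truncation. -/
theorem exists_trunc {E₀ : Subring E} (h : LaurentSeries E) (n : ℤ) (hn : h ∈ Pl E n) (j : ℕ)
    (hE : ∀ i ≤ j, h.coeff (-n + (i : ℤ)) ∈ E₀) :
    ∃ h' : LaurentSeries E, h' ∈ lsub E₀ ∧ h - h' ∈ Pl E (n - (j + 1)) ∧
      h'.coeff (-n + (j + 1 : ℕ)) = 0 := by
  classical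
  refine ⟨∑ i ∈ Finset.range (j + 1), HahnSeries.single (-n + (i : ℤ)) (h.coeff (-n + (i : ℤ))),
    sum_mem fun i hi => single_mem_lsub (hE i ?_) _, ?_, ?_⟩
  · rw [Finset.mem_range] at hi
    omega
  · intro m hm
    rw [HahnSeries.coeff_sub, HahnSeries.coeff_sum]
    by_cases hm' : m < -n
    · rw [hn m hm', Finset.sum_eq_zero, sub_zero]
      intro i _
      exact HahnSeries.coeff_single_of_ne (by omega)
    · obtain ⟨k, hk⟩ := Int.eq_ofNat_of_zero_le (a := m - -n) (by omega)
      have hmk : m = -n + (k : ℤ) := by omega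
      have h1 : ∀ i : ℕ, (HahnSeries.single (-n + (i : ℤ)) (h.coeff (-n + (i : ℤ)))).coeff m =
          if i = k then h.coeff m else 0 := by
        intro i
        by_cases hi : i = k
        · rw [if_pos hi, hmk, hi, HahnSeries.coeff_single_same]
        · rw [if_neg hi, HahnSeries.coeff_single_of_ne (by omega)]
      have hk' : k ∈ Finset.range (j + 1) := by
        rw [Finset.mem_range]
        omega
      rw [Finset.sum_congr rfl fun i _ => h1 i, Finset.sum_ite_eq', if_pos hk', sub_self]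
  · rw [HahnSeries.coeff_sum]
    refine Finset.sum_eq_zero fun i hi => HahnSeries.coeff_single_of_ne ?_
    rw [Finset.mem_range] at hi
    push_cast
    omega

/-- The coefficient of a power. -/
theorem pow_sub_pow_coeff {h h' : LaurentSeries E} {n m : ℤ} (hn : h ∈ Pl E n)
    (h1 : h.coeff (-n) = 1) (hm : h - h' ∈ Pl E m) (hmn : m < n) (d : ℕ) :
    (h ^ (d + 1) - h' ^ (d + 1)).coeff (-(d * n + m)) = ((d + 1 : ℕ) : E) * (h - h').coeff (-m) := by
  have hn' : h' ∈ Pl E n := by
    have h2 : h' = h - (h - h') := by abel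
    rw [h2]
    exact Submodule.sub_mem _ hn (Pl_mono hmn.le hm)
  have h1' : h'.coeff (-n) = 1 := by
    have h2 : h' = h - (h - h') := by abel
    rw [h2, HahnSeries.coeff_sub, h1, hm _ (by omega), sub_zero]
  have hterm : ∀ i ∈ Finset.range (d + 1), h ^ i * h' ^ (d + 1 - 1 - i) ∈ Pl E (d * n) ∧
      (h ^ i * h' ^ (d + 1 - 1 - i)).coeff (-(d * n)) = 1 := by
    intro i hi
    rw [Finset.mem_range] at hi
    have h3 : (d : ℤ) * n = (i : ℤ) * n + ((d + 1 - 1 - i : ℕ) : ℤ) * n := by
      have h4 : ((d + 1 - 1 - i : ℕ) : ℤ) = (d : ℤ) - i := by omega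
      rw [h4]
      ring
    rw [h3]
    refine ⟨mul_mem_Pl (pow_mem_Pl hn i) (pow_mem_Pl hn' _), ?_⟩
    rw [coeff_mul_Pl (pow_mem_Pl hn i) (pow_mem_Pl hn' _), coeff_pow_Pl hn, coeff_pow_Pl hn',
      h1, h1', one_pow, one_pow, one_mul]
  have hS : ∑ i ∈ Finset.range (d + 1), h ^ i * h' ^ (d + 1 - 1 - i) ∈ Pl E (d * n) :=
    Submodule.sum_mem _ fun i hi => (hterm i hi).1
  have hS' : (∑ i ∈ Finset.range (d + 1), h ^ i * h' ^ (d + 1 - 1 - i)).coeff (-(d * n)) =
      ((d + 1 : ℕ) : E) := by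
    rw [HahnSeries.coeff_sum, Finset.sum_congr rfl fun i hi => (hterm i hi).2,
      Finset.sum_const, Finset.card_range, nsmul_eq_mul, mul_one]
  rw [← (Commute.all h h').geom_sum₂_mul, coeff_mul_Pl hS hm, hS']

end

end Pool.Agent.MG.G0.ZL

namespace Pool.Agent.MG.G0

open ZL Polynomial

theorem t_ZINT : Stmt_ZINT := by
  classical
  intro E _ E₀ d R n₀ hd hdE hE₀ hz hmon hlead x hx m
  obtain ⟨c, hc, hcd⟩ := hdE
  obtain ⟨d', rfl⟩ : ∃ d', d = d' + 1 := ⟨d - 1, by omega⟩
  have claim : ∀ j n : ℕ, n₀ + j ≤ n → ∀ x ∈ R, x ∈ Po E n → ∀ i ≤ j,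
      x.coeff (-(n : ℤ) + (i : ℤ)) ∈ E₀ := by
    intro j
    induction j with
    | zero =>
      intro n hn x hx hxn i hi
      have : i = 0 := by omega
      subst this
      simpa using hlead n (by omega) x hx hxn
    | succ j ih =>
      intro n hn x hx hxn
      obtain ⟨h, hh, hhn, hh1⟩ := hmon n (by omega)
      have hlow : ∀ i ≤ j, h.coeff (-(n : ℤ) + (i : ℤ)) ∈ E₀ := ih n (by omega) h hh hhn
      -- the next coefficient of `h`
      have hnext : h.coeff (-(n : ℤ) + ((j + 1 : ℕ) : ℤ)) ∈ E₀ := by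
        obtain ⟨h', hh', hr, hr0⟩ := exists_trunc (E₀ := E₀) h n hhn j hlow
        have hpow : (h ^ (d' + 1)).coeff (-((d' : ℤ) * n + ((n : ℤ) - (j + 1)))) ∈ E₀ := by
          have hy : h ^ (d' + 1) - zz E (d' + 1) ^ n ∈ R :=
            sub_mem (pow_mem hh _) (pow_mem hz _)
          have hzp : zz E (d' + 1) ^ n = HahnSeries.single (-(((d' + 1) * n : ℕ) : ℤ)) 1 :=
            zz_pow (d' + 1) n
          have hyP : h ^ (d' + 1) - zz E (d' + 1) ^ n ∈ Po E ((((d' + 1) * n : ℕ) : ℤ) - 1) := by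
            refine mem_Pl_pred (Submodule.sub_mem _ ?_ ?_) ?_
            · have := pow_mem_Pl hhn (d' + 1)
              have h2 : (((d' + 1 : ℕ) : ℤ)) * (n : ℤ) = (((d' + 1) * n : ℕ) : ℤ) := by
                push_cast
                ring
              rwa [h2] at this
            · rw [hzp]
              exact single_mem_Pl 1 le_rfl
            · rw [HahnSeries.coeff_sub, hzp, HahnSeries.coeff_single_same]
              have := coeff_pow_Pl hhn (d' + 1)
              have h2 : (((d' + 1 : ℕ) : ℤ)) * (n : ℤ) = (((d' + 1) * n : ℕ) : ℤ) := by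
                push_cast
                ring
              rw [h2, hh1, one_pow] at this
              rw [this, sub_self]
          have h3 : 1 ≤ (d' + 1) * n := by
            have : 1 ≤ n := by omega
            nlinarith
          have h4 : n ≤ (d' + 1) * n := by nlinarith
          have h5 : ((((d' + 1) * n - 1 : ℕ)) : ℤ) = (((d' + 1) * n : ℕ) : ℤ) - 1 := by omega
          have h6 := ih ((d' + 1) * n - 1) (by omega) _ hy (by rw [h5]; exact hyP) j le_rfl
          rw [h5] at h6
          have h7 : -((((d' + 1) * n : ℕ) : ℤ) - 1) + (j : ℤ) =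
              -((d' : ℤ) * n + ((n : ℤ) - (j + 1))) := by
            push_cast
            ring
          rw [h7, HahnSeries.coeff_sub, hzp, HahnSeries.coeff_single_of_ne, sub_zero] at h6
          · exact h6
          · push_cast
            intro h8
            nlinarith
        have hpow' : (h' ^ (d' + 1)).coeff (-((d' : ℤ) * n + ((n : ℤ) - (j + 1)))) ∈ E₀ :=
          (pow_mem hh' (d' + 1)) _
        have hdiff := pow_sub_pow_coeff hhn hh1 hr (by omega) d'
        have hcoef : (h - h').coeff (-((n : ℤ) - (j + 1))) =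
            h.coeff (-(n : ℤ) + ((j + 1 : ℕ) : ℤ)) := by
          have h8 : -((n : ℤ) - (j + 1)) = -(n : ℤ) + ((j + 1 : ℕ) : ℤ) := by
            push_cast
            ring
          rw [h8, HahnSeries.coeff_sub, hr0, sub_zero]
        rw [hcoef, HahnSeries.coeff_sub] at hdiff
        have h9 : h.coeff (-(n : ℤ) + ((j + 1 : ℕ) : ℤ)) =
            c * (((d' + 1 : ℕ) : E) * h.coeff (-(n : ℤ) + ((j + 1 : ℕ) : ℤ))) := by
          rw [← mul_assoc, hcd, one_mul]
        rw [h9, ← hdiff]
        exact mul_mem hc (sub_mem hpow hpow')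
      have hall : ∀ i ≤ j + 1, h.coeff (-(n : ℤ) + (i : ℤ)) ∈ E₀ := by
        intro i hi
        rcases Nat.lt_or_ge i (j + 1) with h1 | h1
        · exact hlow i (by omega)
        · have : i = j + 1 := by omega
          rw [this]
          exact hnext
      -- the general element
      have ha : x.coeff (-(n : ℤ)) ∈ E₀ := hlead n (by omega) x hx hxn
      intro i hi
      rcases Nat.eq_zero_or_pos i with hi0 | hi0
      · subst hi0
        simpa using ha
      · obtain ⟨i', rfl⟩ : ∃ i', i = i' + 1 := ⟨i - 1, by omega⟩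
        have hx' : x - algebraMap E _ (x.coeff (-(n : ℤ))) * h ∈ R :=
          sub_mem hx (mul_mem (hE₀ _ ha) hh)
        have hxP : x - algebraMap E _ (x.coeff (-(n : ℤ))) * h ∈ Po E ((n : ℤ) - 1) := by
          refine mem_Pl_pred (Submodule.sub_mem _ hxn ?_) ?_
          · rw [← Algebra.smul_def]
            exact Submodule.smul_mem _ _ hhn
          · rw [HahnSeries.coeff_sub, algebraMap_mul_coeff, hh1, mul_one, sub_self]
        have h5 : ((n - 1 : ℕ) : ℤ) = (n : ℤ) - 1 := by omega
        have h6 := ih (n - 1) (by omega) _ hx' (by rw [h5]; exact hxP) i' (by omega)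
        rw [h5] at h6
        have h7 : -((n : ℤ) - 1) + (i' : ℤ) = -(n : ℤ) + ((i' + 1 : ℕ) : ℤ) := by
          push_cast
          ring
        rw [h7, HahnSeries.coeff_sub, algebraMap_mul_coeff] at h6
        have h8 := add_mem h6 (mul_mem ha (hall (i' + 1) hi))
        rwa [sub_add_cancel] at h8
  -- conclusion
  obtain ⟨N, hN⟩ := exists_low x
  by_cases hm : m < -(N : ℤ)
  · rw [hN m hm]
    exact zero_mem _
  · obtain ⟨j, hj⟩ := Int.eq_ofNat_of_zero_le (a := m + N) (by omega)
    have h1 : zz E (d' + 1) ^ (n₀ + j) * x ∈ R := mul_mem (pow_mem hz _) hx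
    have hxN : x ∈ Po E (N : ℤ) := hN
    have h2 := zzpow_mul_mem_Pl (d := d' + 1) (n₀ + j) hxN
    rw [map_pow, ev_X] at h2
    have h3 : (((d' + 1) * (n₀ + j) : ℕ) : ℤ) + (N : ℤ) =
        (((d' + 1) * (n₀ + j) + N : ℕ) : ℤ) := by push_cast; ring
    rw [h3] at h2
    have h4 : n₀ + j ≤ (d' + 1) * (n₀ + j) + N := by nlinarith
    have h5 := claim j _ h4 _ h1 h2 j le_rfl
    rw [zz_pow, HahnSeries.coeff_single_mul, one_mul] at h5
    have h6 : -(((d' + 1) * (n₀ + j) + N : ℕ) : ℤ) + (j : ℤ) -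
        -(((d' + 1) * (n₀ + j) : ℕ) : ℤ) = m := by
      push_cast
      push_cast at hj
      linarith
    rwa [h6] at h5

end Pool.Agent.MG.G0
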