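import Pool.Agent.MG.G0.ZL.L14
import Pool.Agent.MG.G0.ZL.ZD

/-!
# Section ZL: the reduction of a cover
-/

namespace Pool.Agent.MG.G0.ZL

open Polynomial

section

variable {A B : Type} [CommRing A] [CommRing B] {d : ℕ} [NeZero d]

/-- The base change along a surjective homomorphism. -/
theorem exists_lift_bc {φ : A →+* B} (hφ : Function.Surjective φ)
    {P : Subalgebra A (LaurentSeries A)} {x : LaurentSeries B} (hx : x ∈ bc1 φ P) :
    ∃ y ∈ P, lmap φ y = x := by
  induction hx using Algebra.adjoin_induction with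
  | mem x hx =>
    obtain ⟨y, hy, rfl⟩ := hx
    exact ⟨y, hy, rfl⟩
  | algebraMap b =>
    obtain ⟨a, rfl⟩ := hφ b
    exact ⟨algebraMap A _ a, P.algebraMap_mem a, lmap_algebraMap φ a⟩
  | add x y _ _ hx hy =>
    obtain ⟨x', h1, rfl⟩ := hx
    obtain ⟨y', h2, rfl⟩ := hy
    exact ⟨x' + y', add_mem h1 h2, map_add _ _ _⟩
  | mul x y _ _ hx hy =>
    obtain ⟨x', h1, rfl⟩ := hx
    obtain ⟨y', h2, rfl⟩ := hy
    exact ⟨x' * y', mul_mem h1 h2, map_mul _ _ _⟩

/-- Generators of the base change. -/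
theorem spn_of_image (hKBC : Stmt_KBC) (φ : A →+* B) {P : Subalgebra A (LaurentSeries A)}
    {e : ZMod d → LaurentSeries A} (he : ∀ i, e i ∈ P)
    (h : ∀ x ∈ P, ∃ q : ZMod d → B[X], lmap φ x = ∑ i, ev d (q i) * lmap φ (e i)) :
    Spn (bc1 φ P) fun i => lmap φ (e i) := by
  refine ⟨fun i => Algebra.subset_adjoin ⟨e i, he i, rfl⟩, fun x hx => ?_⟩
  have h1 : (fun _ : Unit => x) ∈ Submodule.span B (kmap φ '' (uno P : Set (KK Unit A))) := by
    rw [← hKBC.1 φ (uno P), bc_uno]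
    exact hx
  have key : ∀ y ∈ Submodule.span B (kmap φ '' (uno P : Set (KK Unit A))),
      ∃ q : ZMod d → B[X], y () = ∑ i, ev d (q i) * lmap φ (e i) := by
    intro y hy
    induction hy using Submodule.span_induction with
    | mem y hy =>
      obtain ⟨w, hw, rfl⟩ := hy
      exact h (w ()) hw
    | zero => exact ⟨0, by simp⟩
    | add y y' _ _ h h' =>
      obtain ⟨q, hq⟩ := h
      obtain ⟨q', hq'⟩ := h'
      refine ⟨q + q', ?_⟩
      rw [Pi.add_apply, hq, hq', ← Finset.sum_add_distrib]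
      refine Finset.sum_congr rfl fun i _ => ?_
      rw [Pi.add_apply, map_add, add_mul]
    | smul b y _ h =>
      obtain ⟨q, hq⟩ := h
      refine ⟨fun i => C b * q i, ?_⟩
      rw [Pi.smul_apply, hq, Finset.smul_sum]
      refine Finset.sum_congr rfl fun i _ => ?_
      rw [map_mul, ev_C, mul_assoc, Algebra.smul_def]
  exact key _ h1

/-- The genus is determined by the ring. -/
theorem genus_unique {κ : Type} [Field κ] {g r : ℕ} {R : Subalgebra κ (LaurentSeries κ)}
    (hR : Kr g R) (hR' : Kr r R) (hz : zz κ d ∈ R) : r = g := by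
  obtain ⟨N, hN, hN'⟩ := exists_ech hR hz
  have h1 := sum_ech hR N hN hN'
  have h2 := sum_ech hR' N hN hN'
  have h3 : d * r = d * g := by omega
  exact Nat.eq_of_mul_eq_mul_left (Nat.pos_of_ne_zero (NeZero.ne d)) h3

end

section

variable {O L : Type} [CommRing O] [IsDomain O] [IsDiscreteValuationRing O] [Field L]
  [Algebra O L] [IsFractionRing O L] {d : ℕ} [NeZero d] {g : ℕ}
  {R : Subalgebra L (LaurentSeries L)}

omit [IsDiscreteValuationRing O] in
theorem bc_cut (hG : Good O d R) : bc1 (algebraMap O L) (cut (algebraMap O L) R) = R := by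
  apply le_antisymm
  · refine Algebra.adjoin_le ?_
    rintro _ ⟨y, hy, rfl⟩
    exact hy
  · intro x hx
    obtain ⟨c, hc, x', hx', h⟩ := hG.den x hx
    have hc' : algebraMap O L c ≠ 0 := by
      rw [Ne, IsFractionRing.to_map_eq_zero_iff (K := L)]
      exact hc
    have h1 : x = algebraMap L (LaurentSeries L) (algebraMap O L c)⁻¹ *
        lmap (algebraMap O L) x' := by
      rw [h, ← mul_assoc, ← map_mul, inv_mul_cancel₀ hc', map_one, one_mul]
    rw [h1]
    exact mul_mem (Subalgebra.algebraMap_mem _ _) (Algebra.subset_adjoin ⟨x', hx', rfl⟩)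

theorem zz_mem_cut (hz : zz L d ∈ R) : zz O d ∈ cut (algebraMap O L) R := by
  rw [mem_cut, lmap_zz]
  exact hz

/-- Generation modulo a power of the uniformizer. -/
theorem gen_mod {ϖ : O} (hϖ : Irreducible ϖ) {e : ZMod d → LaurentSeries O}
    (he : ∀ i, e i ∈ cut (algebraMap O L) R) (hz : zz L d ∈ R)
    (hsp : Spn (bc1 (IsLocalRing.residue O) (cut (algebraMap O L) R))
      fun i => lmap (IsLocalRing.residue O) (e i)) (M : ℕ) :
    ∀ x ∈ cut (algebraMap O L) R, ∃ (q : ZMod d → O[X]) (x₁ : LaurentSeries O),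
      x₁ ∈ cut (algebraMap O L) R ∧ x = ∑ i, ev d (q i) * e i + ϖ ^ M • x₁ := by
  classical
  have hstep : ∀ x ∈ cut (algebraMap O L) R, ∃ (q : ZMod d → O[X]) (x₁ : LaurentSeries O),
      x₁ ∈ cut (algebraMap O L) R ∧ x = ∑ i, ev d (q i) * e i + ϖ • x₁ := by
    intro x hx
    obtain ⟨qb, hqb⟩ := hsp.2 (lmap (IsLocalRing.residue O) x)
      (Algebra.subset_adjoin ⟨x, hx, rfl⟩)
    have hq : ∀ i, ∃ q : O[X], q.map (IsLocalRing.residue O) = qb i := fun i =>
      Polynomial.map_surjective _ IsLocalRing.residue_surjective (qb i)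
    choose q hq using hq
    obtain ⟨x₁, hx₁⟩ := exists_pi_smul hϖ (p := x - ∑ i, ev d (q i) * e i) (by
      rw [map_sub, map_sum, hqb, sub_eq_zero]
      refine Finset.sum_congr rfl fun i _ => ?_
      rw [map_mul, lmap_ev, hq])
    refine ⟨q, x₁, mem_cut_of_smul hϖ.ne_zero (by
      rw [← hx₁]
      exact sub_mem hx (sum_mem fun i _ => mul_mem (ev_mem (zz_mem_cut hz) _) (he i))), ?_⟩
    rw [← hx₁]
    abel
  induction M with
  | zero =>
    intro x hx
    refine ⟨0, x, hx, ?_⟩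
    simp
  | succ M ih =>
    intro x hx
    obtain ⟨q, x₁, hx₁, h⟩ := ih x hx
    obtain ⟨q', x₂, hx₂, h'⟩ := hstep x₁ hx₁
    refine ⟨fun i => q i + C (ϖ ^ M) * q' i, x₂, hx₂, ?_⟩
    rw [h, h', smul_add, smul_smul, ← pow_succ, ← add_assoc]
    congr 1
    rw [Finset.smul_sum, ← Finset.sum_add_distrib]
    refine Finset.sum_congr rfl fun i _ => ?_
    rw [map_add, map_mul, ev_C, add_mul, mul_assoc, ← Algebra.smul_def]

/-- The discriminant of the base change. -/
theorem dsc_cut (hKBC : Stmt_KBC) (hR : Kr g R) (hz : zz L d ∈ R)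
    (hK : Kr g (cut (algebraMap O L) R)) {eL : ZMod d → LaurentSeries L} (heL : Spn R eL)
    {f : O[X]} (hf : f.Monic) {u : L[X]} (hu : IsUnit u)
    (hdet : (gram eL).det = ev d (u * f.map (algebraMap O L)))
    {B : Type} [CommRing B] (φ : O →+* B)
    (hφ : ∀ x ∈ IsLocalRing.maximalIdeal O, IsNilpotent (φ x)) :
    Dsc (bc1 φ (cut (algebraMap O L) R)) d (f.map φ) := by
  classical
  obtain ⟨ϖ, hϖ⟩ := IsDiscreteValuationRing.exists_irreducible O
  have hinj : Function.Injective (algebraMap O L) := IsFractionRing.injective O L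
  have hKκ := kr_bc hKBC hK (IsLocalRing.residue O)
  have hzκ := zz_mem_bc (zz_mem_cut (O := O) hz) (IsLocalRing.residue O)
  obtain ⟨N, eb, -, -, heb, -, -⟩ := exists_echelon hKκ hzκ
  choose e he heb' using fun i => exists_lift_bc IsLocalRing.residue_surjective (heb.1 i)
  have heb'' : (fun i => lmap (IsLocalRing.residue O) (e i)) = eb := funext heb'
  rw [← heb''] at heb
  -- the determinant over `O`
  choose c hc using fun i => heL.2 (lmap (algebraMap O L) (e i)) (he i)
  have h1 := gram_det_mul (Matrix.of c) (fun i => lmap (algebraMap O L) (e i)) eL hc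
  rw [lmap_gram_det, hdet, ← map_mul] at h1
  obtain ⟨Q', hQ1, hQ2⟩ := ev_descend hinj h1
  obtain ⟨Q₁, hQ₁⟩ : ∃ Q₁ : O[X], Q' = Q₁ * f := by
    have h2 : Q' %ₘ f = 0 := by
      apply Polynomial.map_injective _ hinj
      rw [map_modByMonic _ hf, ← hQ2, Polynomial.map_zero, ← mul_assoc]
      exact (modByMonic_eq_zero_iff_dvd (hf.map _)).2 (dvd_mul_left _ _)
    refine ⟨Q' /ₘ f, ?_⟩
    have h3 := modByMonic_add_div Q' f
    rw [h2, zero_add] at h3
    rw [mul_comm, h3]
  rw [hQ₁] at hQ1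
  -- the degrees
  have hdetκ : (gram fun i => lmap (IsLocalRing.residue O) (e i)).det =
      ev d ((Q₁ * f).map (IsLocalRing.residue O)) := by
    rw [lmap_gram_det, hQ1, lmap_ev]
  obtain ⟨h2, h3⟩ := gram_natDegree hKκ hzκ heb hdetκ
  obtain ⟨h4, h5⟩ := gram_natDegree hR hz heL hdet
  rw [Polynomial.map_mul] at h2 h3
  have h6 : Q₁.map (IsLocalRing.residue O) ≠ 0 := left_ne_zero_of_mul h2
  have h7 : f.map (IsLocalRing.residue O) ≠ 0 := right_ne_zero_of_mul h2
  rw [natDegree_mul h6 h7, hf.natDegree_map] at h3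
  rw [natDegree_mul hu.ne_zero (right_ne_zero_of_mul h4), natDegree_eq_zero_of_isUnit hu,
    hf.natDegree_map, zero_add] at h5
  have h8 : (Q₁.map (IsLocalRing.residue O)).natDegree = 0 := by omega
  have h9 : IsUnit (Q₁.coeff 0) := by
    by_contra hnu
    apply h6
    rw [eq_C_of_natDegree_eq_zero h8, coeff_map]
    have h10 : IsLocalRing.residue O (Q₁.coeff 0) = 0 := by
      rw [IsLocalRing.residue_eq_zero_iff, IsLocalRing.mem_maximalIdeal]
      exact hnu
    rw [h10, C_0]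
  have h10 : ∀ i, i ≠ 0 → Q₁.coeff i ∈ IsLocalRing.maximalIdeal O := by
    intro i hi
    rw [← IsLocalRing.residue_eq_zero_iff, ← coeff_map]
    exact coeff_eq_zero_of_natDegree_lt (by omega)
  have hQu : IsUnit (Q₁.map φ) := by
    rw [isUnit_iff_coeff_isUnit_isNilpotent]
    refine ⟨by rw [coeff_map]; exact h9.map φ, fun i hi => ?_⟩
    rw [coeff_map]
    exact hφ _ (h10 i hi)
  -- generation
  have hϖn : IsNilpotent (φ ϖ) := hφ ϖ (by
    rw [hϖ.maximalIdeal_eq]
    exact Ideal.mem_span_singleton_self _)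
  obtain ⟨M, hM⟩ := hϖn
  refine ⟨fun i => lmap φ (e i), spn_of_image hKBC φ he fun x hx => ?_, Q₁.map φ, hQu, ?_⟩
  · obtain ⟨q, x₁, hx₁, h⟩ := gen_mod hϖ he hz heb M x hx
    refine ⟨fun i => (q i).map φ, ?_⟩
    have h11 : lmap φ (ϖ ^ M • x₁) = 0 := by
      ext m
      rw [lmap_coeff, HahnSeries.coeff_smul, smul_eq_mul, map_mul, map_pow, hM, zero_mul,
        HahnSeries.coeff_zero]
    rw [h, map_add, h11, add_zero, map_sum]
    refine Finset.sum_congr rfl fun i _ => ?_
    rw [map_mul, lmap_ev]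
  · rw [lmap_gram_det, hQ1, lmap_ev, Polynomial.map_mul]

end

end Pool.Agent.MG.G0.ZL

namespace Pool.Agent.MG.G0

open ZL Polynomial

/-- The reduction of a cover of the projective line. -/
theorem t_ZL (hKBC : Stmt_KBC) : Stmt_ZL := by
  classical
  intro O L _ _ _ _ _ _ _ g d R f hd hu hR hz hf hDisc
  have : NeZero d := ⟨hd.ne'⟩
  obtain ⟨eL, heL, u, hu', hdet⟩ := dsc_of_disc hDisc
  obtain ⟨ϖ, hϖ⟩ := IsDiscreteValuationRing.exists_irreducible O
  obtain ⟨w, hw⟩ := IsAlgClosed.exists_pow_nat_eq (ec L (algebraMap O L ϖ))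
    (Nat.factorial_pos d)
  have hy : Hyp O ϖ w g R eL := ⟨hR, hz, heL, ⟨Nat.factorial_pos d, hϖ, hw⟩, hu⟩
  obtain ⟨δ, N, H, hm⟩ := exists_mini hy
  have hδ := mini_zero hy hm hf hu' hdet
  have hG := good hy hm hδ
  obtain ⟨r, hr⟩ := cut_kr hR hG
  have hbc := bc_cut hG
  have hrg : r = g := by
    have h1 := kr_bc hKBC hr (algebraMap O L)
    rw [hbc] at h1
    exact genus_unique (d := d) hR h1 hz
  subst hrg
  refine ⟨hr, zz_mem_cut hz, hbc, fun B _ φ hφ => ?_⟩
  refine disc_of_dsc (kr_bc hKBC hr φ) ?_ (dsc_cut hKBC hR hz hr heL hf hu' hdet φ hφ)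
  have h1 := (unit_of_factorial hu hd le_rfl).map φ
  rwa [map_natCast] at h1

end Pool.Agent.MG.G0
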