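import Pool.Agent.MG.G0.ZL.ZD

/-!
# The echelon basis of a Krichever ring over a field
-/

namespace Pool.Agent.MG.G0.ZL

open Polynomial

section

variable {κ : Type} [Field κ] {g : ℕ} {R : Subalgebra κ (LaurentSeries κ)} {d : ℕ} [NeZero d]

/-- The order of a combination of a monic family with different orders modulo `d`. -/
theorem top_of_monic {N : ZMod d → ℕ} {e : ZMod d → LaurentSeries κ}
    (hN : ∀ i, (N i : ZMod d) = i) (he1 : ∀ i, e i ∈ Pl κ (N i))
    (he2 : ∀ i, (e i).coeff (-(N i : ℤ)) = 1) (q : ZMod d → κ[X]) {n : ℕ}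
    (hn : ∑ j, ev d (q j) * e j ∈ Pl κ n) (j : ZMod d) (hj : q j ≠ 0) :
    d * (q j).natDegree + N j ≤ n := by
  classical
  let ord : ZMod d → ℕ := fun j => d * (q j).natDegree + N j
  have hordm : ∀ j, ((ord j : ℕ) : ZMod d) = j := by
    intro j
    show ((d * (q j).natDegree + N j : ℕ) : ZMod d) = j
    push_cast
    rw [ZMod.natCast_self, zero_mul, zero_add, hN]
  obtain ⟨j1, hj1, hmax⟩ := Finset.exists_max_image (Finset.univ.filter fun j => q j ≠ 0) ord
    ⟨j, by simpa using hj⟩
  have hq1 : q j1 ≠ 0 := (Finset.mem_filter.1 hj1).2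
  have hcast : ∀ j, ((d * (q j).natDegree : ℕ) : ℤ) + N j = ord j := by
    intro j
    show ((d * (q j).natDegree : ℕ) : ℤ) + N j = ((d * (q j).natDegree + N j : ℕ) : ℤ)
    push_cast
    rfl
  have hPl : ∀ j, ev d (q j) * e j ∈ Pl κ (ord j) := by
    intro j
    have h1 := mul_mem_Pl (ev_mem_Pl d (q j) le_rfl) (he1 j)
    rwa [hcast] at h1
  have hco : (∑ j, ev d (q j) * e j).coeff (-(ord j1 : ℤ)) = (q j1).leadingCoeff := by
    rw [HahnSeries.coeff_sum, Finset.sum_eq_single j1]
    · have h1 := coeff_mul_Pl (ev_mem_Pl d (q j1) le_rfl) (he1 j1)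
      rw [hcast, ev_coeff d (NeZero.ne d), he2, mul_one] at h1
      exact h1
    · intro j _ hj
      by_cases h0 : q j = 0
      · rw [h0, map_zero, zero_mul, HahnSeries.coeff_zero]
      · apply hPl j
        have h1 := hmax j (by simpa using h0)
        have h2 : ord j ≠ ord j1 := by
          intro h
          apply hj
          rw [← hordm j, h, hordm]
        omega
    · intro h
      exact absurd (Finset.mem_univ _) h
  have h1 : ord j1 ≤ n := by
    by_contra hcon
    push Not at hcon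
    have h2 := hn (-(ord j1 : ℤ)) (by omega)
    rw [hco] at h2
    exact hq1 (leadingCoeff_eq_zero.1 h2)
  exact (hmax j (by simpa using hj)).trans h1

end

end Pool.Agent.MG.G0.ZL

namespace Pool.Agent.MG.G0

open ZL Polynomial

/-- ECH: the echelon basis of a Krichever ring over a field, with explicit bounds. -/
def Stmt_ECH : Prop :=
  ∀ (κ : Type) [Field κ] (g d : ℕ) (R : Subalgebra κ (LaurentSeries κ)), 0 < d →
    Kr g R → zz κ d ∈ R →
    ∃ (N : Fin d → ℕ) (e : Fin d → LaurentSeries κ), ZBas d R e ∧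
      (∀ i, N i ≤ 2 * g + (d - 1)) ∧ (∀ i, e i ∈ Po κ (N i)) ∧
      (∀ i, (e i).coeff (-(N i : ℤ)) = 1) ∧ (∀ i j, i ≠ j → ¬ (N i ≡ N j [MOD d])) ∧
      (∀ n : ℕ, (∃ p ∈ R, p ∈ Po κ n ∧ p.coeff (-(n : ℤ)) = 1) ↔
        ∃ i, ∃ k : ℕ, n = N i + d * k) ∧
      ∀ (n : ℕ) (q : Fin d → κ[X]), (∑ i, zpol κ d (q i) * e i) ∈ Po κ n →
        ∀ i, q i ≠ 0 → d * (q i).natDegree + N i ≤ n

theorem t_ECH : Stmt_ECH := by
  classical
  intro κ _ g d R hd hR hz
  have : NeZero d := ⟨hd.ne'⟩
  obtain ⟨N, e, hN, hN', hsp, he1, he2⟩ := exists_echelon hR hz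
  have hsym : (fun i => (fun i => e (sg d i)) ((sg d).symm i)) = e := by
    funext i
    show e (sg d ((sg d).symm i)) = e i
    rw [Equiv.apply_symm_apply]
  refine ⟨fun i => N (sg d i), fun i => e (sg d i), zbas_of_spn hR (by rw [hsym]; exact hsp),
    fun i => ?_, fun i => he1 _, fun i => he2 _, fun i j hij h => ?_, fun n => ?_,
    fun n q hq i hi => ?_⟩
  · -- an order in the class between `2g` and `2g + d - 1`
    set c := sg d i with hc
    have h1 : ∃ n : ℕ, 2 * g ≤ n ∧ n ≤ 2 * g + (d - 1) ∧ (n : ZMod d) = c := by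
      refine ⟨2 * g + (c - ((2 * g : ℕ) : ZMod d)).val, by omega, ?_, ?_⟩
      · have := ZMod.val_lt (c - ((2 * g : ℕ) : ZMod d))
        omega
      · rw [Nat.cast_add, ZMod.natCast_zmod_val]
        ring
    obtain ⟨n, h2, h3, h4⟩ := h1
    have h5 := (hN' n).1 (ord_of_two_mul_le hR hz h2)
    rw [h4] at h5
    exact h5.trans h3
  · have h1 := (ZMod.natCast_eq_natCast_iff _ _ _).2 h
    rw [hN, hN] at h1
    exact hij ((sg d).injective h1)
  · show Ord R n ↔ _
    rw [hN']
    constructor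
    · intro h
      have h2 : d ∣ n - N n := by
        rw [← ZMod.natCast_eq_zero_iff, Nat.cast_sub h, hN, sub_self]
      obtain ⟨k, hk⟩ := h2
      refine ⟨(sg d).symm (n : ZMod d), k, ?_⟩
      show n = N (sg d ((sg d).symm (n : ZMod d))) + d * k
      rw [Equiv.apply_symm_apply]
      omega
    · rintro ⟨i, k, h⟩
      have h' : n = N (sg d i) + d * k := h
      have h1 : (n : ZMod d) = sg d i := by
        rw [h']
        push_cast
        rw [hN, ZMod.natCast_self, zero_mul, add_zero]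
      rw [h1]
      omega
  · have hsum : ∑ i, zpol κ d (q i) * e (sg d i) =
        ∑ i, ev d (q ((sg d).symm i)) * e i := by
      rw [← Equiv.sum_comp (sg d) fun i => ev d (q ((sg d).symm i)) * e i]
      simp only [Equiv.symm_apply_apply]
    rw [hsum] at hq
    have h1 := top_of_monic hN he1 he2 (fun i => q ((sg d).symm i)) hq (sg d i) (by
      show q ((sg d).symm (sg d i)) ≠ 0
      rw [Equiv.symm_apply_apply]
      exact hi)
    have h2 : q ((sg d).symm (sg d i)) = q i := by rw [Equiv.symm_apply_apply]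
    simp only [h2] at h1
    exact h1

end Pool.Agent.MG.G0
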