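import Pool.Agent.MG.G0.ZL.L9

/-!
# Finiteness modulo the minimal family; the Gram determinant of the minimal family
-/

namespace Pool.Agent.MG.G0.ZL

open Polynomial

section

variable {O L : Type} [CommRing O] [IsDomain O] [IsDiscreteValuationRing O] [Field L]
  [Algebra O L] [IsFractionRing O L] {d : ℕ} [NeZero d] {ϖ : O} {w : EL L} {g : ℕ}
  {R : Subalgebra L (LaurentSeries L)} {e : ZMod d → LaurentSeries L}

omit [IsDomain O] [IsDiscreteValuationRing O] [IsFractionRing O L] in
theorem smulO_eq (a : O) (f : LaurentSeries L) :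
    a • f = algebraMap L (LaurentSeries L) (algebraMap O L a) * f := by
  ext m
  rw [HahnSeries.coeff_smul, Algebra.smul_def, algebraMap_mul_coeff]

omit [IsDomain O] [IsDiscreteValuationRing O] [IsFractionRing O L] in
theorem FF_smulO (a : O) {b : ℤ} {f : LaurentSeries L} (hf : FF O d w b (em L f)) :
    FF O d w b (em L (a • f)) := by
  have h1 : w ^ (-b) * em L (a • f) = phE O L d (C a) * (w ^ (-b) * em L f) := by
    rw [smulO_eq, map_mul, phE_apply, map_C, ← ec_eq_ev, ec_apply]
    ring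
  rw [FF, h1]
  exact mul_mem (SS_map _ _) hf

/-- The elements of `R` of order at most `n` in a step of the filtration. -/
def Wn (O : Type) [CommRing O] {L : Type} [Field L] [Algebra O L] (d : ℕ) [NeZero d] (w : EL L)
    (R : Subalgebra L (LaurentSeries L)) (b n : ℤ) : Submodule O (LaurentSeries L) where
  carrier := {y | y ∈ R ∧ y ∈ Pl L n ∧ FF O d w b (em L y)}
  add_mem' := by
    rintro x y ⟨h1, h2, h3⟩ ⟨h4, h5, h6⟩
    exact ⟨add_mem h1 h4, Submodule.add_mem _ h2 h5, by rw [map_add]; exact FF_add h3 h6⟩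
  zero_mem' := ⟨zero_mem R, Submodule.zero_mem _, by rw [map_zero]; exact FF_zero⟩
  smul_mem' := by
    rintro a x ⟨h1, h2, h3⟩
    refine ⟨?_, ?_, FF_smulO a h3⟩
    · rw [smulO_eq]
      exact mul_mem (R.algebraMap_mem _) h1
    · rw [smulO_eq, ← Algebra.smul_def]
      exact Submodule.smul_mem _ _ h2

omit [IsDomain O] [IsDiscreteValuationRing O] [IsFractionRing O L] in
theorem mem_Wn {b n : ℤ} {y : LaurentSeries L} :
    y ∈ Wn O d w R b n ↔ y ∈ R ∧ y ∈ Pl L n ∧ FF O d w b (em L y) := Iff.rfl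

/-- The coefficients as linear forms. -/
noncomputable def cfO (O : Type) [CommRing O] (L : Type) [Field L] [Algebra O L] (m : ℤ) :
    LaurentSeries L →ₗ[O] L where
  toFun y := y.coeff m
  map_add' _ _ := HahnSeries.coeff_add
  map_smul' _ _ := rfl

theorem Wn_fg (hy : Hyp O ϖ w g R e) (b : ℤ) (n : ℕ) : (Wn O d w R b ((n : ℤ) - 1)).FG := by
  induction n with
  | zero =>
    have h1 : Wn O d w R b (((0 : ℕ) : ℤ) - 1) = ⊥ := by
      rw [eq_bot_iff]
      rintro y ⟨h1, h2, -⟩
      rw [Submodule.mem_bot]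
      exact eq_zero_of_neg hy.kr h1 (by simpa using h2)
    rw [h1]
    exact Submodule.fg_bot
  | succ n ih =>
    refine Submodule.fg_of_fg_map_of_fg_inf_ker (cfO O L (-(n : ℤ))) ?_ ?_
    · have h1 : (Wn O d w R b (((n + 1 : ℕ) : ℤ) - 1)).map (cfO O L (-(n : ℤ))) ≤
          Submodule.span O {algebraMap O L ϖ ^ (-(b.natAbs : ℤ))} := by
        rintro _ ⟨y, ⟨h1, h2, h3⟩, rfl⟩
        have h2' : y ∈ Pl L n := by
          have h4 : ((n + 1 : ℕ) : ℤ) - 1 = n := by push_cast; ring
          rwa [h4] at h2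
        have h4 := FF_lead hy.kr hy.sp hy.rt hy.un h1 h2' h3
        show y.coeff (-(n : ℤ)) ∈ _
        by_cases h0 : y.coeff (-(n : ℤ)) = 0
        · rw [h0]
          exact Submodule.zero_mem _
        · obtain ⟨v, c, hc, hv⟩ := exists_val_L (O := O) hy.rt.irr h0
          rw [FF_ec_iff hy.rt hv hc] at h4
          have h5 : 0 ≤ v + b.natAbs := by
            have hN : (0 : ℤ) < d.factorial := by exact_mod_cast hy.rt.pos
            by_contra hcon
            push Not at hcon
            have h6 : (d.factorial : ℤ) * v ≤ v := by nlinarith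
            omega
          obtain ⟨k, hk⟩ := Int.eq_ofNat_of_zero_le h5
          rw [Submodule.mem_span_singleton]
          refine ⟨ϖ ^ k * c, ?_⟩
          rw [Algebra.smul_def, map_mul, map_pow, hv]
          have h6 : v = k + -(b.natAbs : ℤ) := by omega
          rw [h6, zpow_add₀ hy.rt.pi_ne, zpow_natCast]
          ring
      have : IsNoetherian O (Submodule.span O {algebraMap O L ϖ ^ (-(b.natAbs : ℤ))}) :=
        isNoetherian_span_of_finite O (Set.finite_singleton _)
      exact Submodule.FG.of_le_of_isNoetherian h1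
    · have h1 : Wn O d w R b (((n + 1 : ℕ) : ℤ) - 1) ⊓ LinearMap.ker (cfO O L (-(n : ℤ))) =
          Wn O d w R b ((n : ℤ) - 1) := by
        ext y
        rw [Submodule.mem_inf, mem_Wn, mem_Wn, LinearMap.mem_ker]
        have h4 : ((n + 1 : ℕ) : ℤ) - 1 = n := by push_cast; ring
        rw [h4]
        constructor
        · rintro ⟨⟨h1, h2, h3⟩, h5⟩
          exact ⟨h1, mem_Pl_pred h2 h5, h3⟩
        · rintro ⟨h1, h2, h3⟩
          exact ⟨⟨h1, Pl_mono (by omega) h2, h3⟩, h2 _ (by omega)⟩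
      rw [h1]
      exact ih

variable {δ N : ZMod d → ℕ} {H : ZMod d → LaurentSeries L}

/-- The submodule generated by the minimal family. -/
def Hb (O : Type) [CommRing O] {L : Type} [Field L] [Algebra O L] (d : ℕ) [NeZero d] (w : EL L)
    (δ : ZMod d → ℕ) (H : ZMod d → LaurentSeries L) (b : ℤ) : Submodule O (LaurentSeries L) where
  carrier := {y | ∃ q : ZMod d → L[X], (∀ j, FF O d w (b + δ j) (em L (ev d (q j)))) ∧
    y = ∑ j, ev d (q j) * H j}
  add_mem' := by
    rintro x y ⟨q, h1, rfl⟩ ⟨q', h2, rfl⟩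
    refine ⟨q + q', fun j => ?_, ?_⟩
    · rw [Pi.add_apply, map_add, map_add]
      exact FF_add (h1 j) (h2 j)
    · rw [← Finset.sum_add_distrib]
      refine Finset.sum_congr rfl fun j _ => ?_
      rw [Pi.add_apply, map_add, add_mul]
  zero_mem' := ⟨0, fun j => by rw [Pi.zero_apply, map_zero, map_zero]; exact FF_zero, by simp⟩
  smul_mem' := by
    rintro a x ⟨q, h1, rfl⟩
    refine ⟨fun j => C (algebraMap O L a) * q j, fun j => ?_, ?_⟩
    · rw [map_mul, ev_C, ← smulO_eq]
      exact FF_smulO a (h1 j)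
    · rw [Finset.smul_sum]
      refine Finset.sum_congr rfl fun j _ => ?_
      rw [map_mul, ev_C, smulO_eq, mul_assoc]

omit [IsDomain O] [IsDiscreteValuationRing O] [IsFractionRing O L] in
theorem mem_Hb {b : ℤ} {y : LaurentSeries L} : y ∈ Hb O d w δ H b ↔
    ∃ q : ZMod d → L[X], (∀ j, FF O d w (b + δ j) (em L (ev d (q j)))) ∧
      y = ∑ j, ev d (q j) * H j := Iff.rfl

/-- The multiplication by `z`. -/
noncomputable def Zl (O L : Type) [CommRing O] [Field L] [Algebra O L] (d : ℕ) :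
    LaurentSeries L →ₗ[O] LaurentSeries L where
  toFun y := zz L d * y
  map_add' _ _ := mul_add _ _ _
  map_smul' a y := by
    rw [smulO_eq, smulO_eq, RingHom.id_apply]
    ring

omit [IsDomain O] [IsDiscreteValuationRing O] [IsFractionRing O L] [NeZero d] in
theorem Zl_apply (y : LaurentSeries L) : Zl O L d y = zz L d * y := rfl

theorem Hb_Zl (hy : Hyp O ϖ w g R e) {b : ℤ} {y : LaurentSeries L} (h : y ∈ Hb O d w δ H b) :
    Zl O L d y ∈ Hb O d w δ H b := by
  obtain ⟨q, h1, rfl⟩ := h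
  refine ⟨fun j => X * q j, fun j => ?_, ?_⟩
  · have h2 := FF_mul hy.rt (FF_O (L := L) (d := d) (w := w) (X : O[X])) (h1 j)
    rw [zero_add] at h2
    rw [map_mul, map_mul]
    have h3 : em L (ev d (X : L[X])) = phE O L d X := by
      rw [phE_apply, map_X]
    rw [h3]
    exact h2
  · rw [Zl_apply, Finset.mul_sum]
    refine Finset.sum_congr rfl fun j _ => ?_
    rw [map_mul, ev_X, mul_assoc]

/-- The elements of a step of the filtration are integral modulo the minimal family. -/
theorem exists_Psi (hy : Hyp O ϖ w g R e) (hm : Mini O w R δ N H) (b : ℤ) :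
    ∃ Ψ : O[X], Ψ.Monic ∧ ∀ y ∈ R, FF O d w b (em L y) →
      ∃ q : ZMod d → L[X], (∀ j, FF O d w (b + δ j) (em L (ev d (q j)))) ∧
        phK O L d Ψ * y = ∑ j, ev d (q j) * H j := by
  classical
  -- the quotient
  set HB := Hb O d w δ H b with hHB
  let Zq : (LaurentSeries L ⧸ HB) →ₗ[O] (LaurentSeries L ⧸ HB) :=
    HB.mapQ HB (Zl O L d) fun y h => Hb_Zl hy h
  have hZq : ∀ y, Zq (HB.mkQ y) = HB.mkQ (zz L d * y) := fun y => rfl
  set M := Finset.univ.sup N with hM
  have hNM : ∀ i, N i ≤ M := fun i => Finset.le_sup (Finset.mem_univ i)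
  let Q' : Submodule O (LaurentSeries L ⧸ HB) := (Wn O d w R b M).map HB.mkQ
  have hQ'fg : Q'.FG := by
    have h1 := Wn_fg hy b (M + 1)
    have h2 : ((M + 1 : ℕ) : ℤ) - 1 = M := by push_cast; ring
    rw [h2] at h1
    exact h1.map _
  have hfin : Module.Finite O Q' := Module.Finite.of_fg hQ'fg
  -- every element of the step is in the image
  have hred : ∀ y ∈ R, FF O d w b (em L y) → HB.mkQ y ∈ Q' := by
    intro y hyR hyF
    obtain ⟨n, hn⟩ := exists_Pl y
    obtain ⟨q, h1, h2, h3, h4⟩ := exists_red hy hm hNM b n y hyR hn hyF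
    refine ⟨y - ∑ j, ev d (q j) * H j, ⟨h2, h3, h4⟩, ?_⟩
    rw [map_sub]
    have h5 : HB.mkQ (∑ j, ev d (q j) * H j) = 0 := by
      rw [← LinearMap.mem_ker, Submodule.ker_mkQ]
      exact ⟨q, h1, rfl⟩
    rw [h5, sub_zero]
  have hzF : ∀ y, FF O d w b (em L y) → FF O d w b (em L (zz L d * y)) := by
    intro y h
    have h2 := FF_mul hy.rt (FF_O (L := L) (d := d) (w := w) (X : O[X])) h
    rw [zero_add] at h2
    rw [map_mul]
    have h3 : em L (zz L d) = phE O L d X := by
      rw [phE_apply, map_X, ev_X]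
    rw [h3]
    exact h2
  have hst : ∀ x ∈ Q', Zq x ∈ Q' := by
    rintro _ ⟨y, ⟨h1, h2, h3⟩, rfl⟩
    rw [hZq]
    exact hred _ (mul_mem hy.zm h1) (hzF _ h3)
  let f : Module.End O Q' := Zq.restrict hst
  obtain ⟨Ψ, hΨ, hΨ0⟩ := LinearMap.exists_monic_and_aeval_eq_zero O f
  refine ⟨Ψ, hΨ, fun y hyR hyF => ?_⟩
  -- the action of polynomials
  have key : ∀ (p : O[X]) (y : LaurentSeries L) (h : HB.mkQ y ∈ Q'),
      ((aeval f p) ⟨HB.mkQ y, h⟩ : LaurentSeries L ⧸ HB) = HB.mkQ (phK O L d p * y) := by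
    intro p
    induction p using Polynomial.induction_on with
    | C a =>
      intro y h
      rw [aeval_C, phK_apply, map_C, ev_C, ← smulO_eq, map_smul]
      rfl
    | add p q hp hq =>
      intro y h
      rw [map_add, map_add, add_mul, map_add, ← hp y h, ← hq y h]
      rfl
    | monomial n a hn =>
      intro y h
      have h1 : (C a * X ^ (n + 1) : O[X]) = (C a * X ^ n) * X := by
        rw [pow_succ, mul_assoc]
      have h2 : HB.mkQ (zz L d * y) ∈ Q' := by
        rw [← hZq]
        exact hst _ h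
      have h3 := hn (zz L d * y) h2
      have h4 : phK O L d X = zz L d := by rw [phK_apply, map_X, ev_X]
      have h5 : phK O L d (C a * X ^ n * X) * y = phK O L d (C a * X ^ n) * (zz L d * y) := by
        rw [map_mul (phK O L d) (C a * X ^ n) X, h4, mul_assoc]
      have h6 : aeval f (C a * X ^ n * X : O[X]) = aeval f (C a * X ^ n : O[X]) * f := by
        rw [map_mul (aeval f) (C a * X ^ n) X, aeval_X]
      rw [h1, h5, h6, ← h3]
      rfl
  have h1 := key Ψ y (hred y hyR hyF)
  rw [hΨ0] at h1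
  have h2 : HB.mkQ (phK O L d Ψ * y) = 0 := h1.symm
  rw [← LinearMap.mem_ker, Submodule.ker_mkQ] at h2
  exact h2

/-- The Gram determinant of the minimal family. -/
theorem gram_mini (hy : Hyp O ϖ w g R e) (hm : Mini O w R δ N H) {f : O[X]} (hf : f.Monic)
    {u : L[X]} (hu : IsUnit u) (hdet : (gram e).det = ev d (u * f.map (algebraMap O L))) :
    ∃ Γ : O[X], Γ.Monic ∧ ((gram H).det = phK O L d Γ ∨ (gram H).det = -phK O L d Γ) := by
  classical
  choose c hc using fun i => hy.sp.2 (H i) (hm.mem i)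
  have h1 := gram_det_mul (Matrix.of c) H e hc
  set D := (Matrix.of c : Matrix (ZMod d) (ZMod d) L[X]).det with hD
  -- the determinant divides a monic polynomial
  have h2 : ∀ i, ∃ Ψ : O[X], Ψ.Monic ∧ ∃ q : ZMod d → L[X],
      phK O L d Ψ * e i = ∑ j, ev d (q j) * H j := by
    intro i
    obtain ⟨b, hb⟩ := exists_FF hy.kr hy.sp hy.rt (hy.sp.1 i)
    obtain ⟨Ψ, hΨ, hΨ'⟩ := exists_Psi hy hm (-(b : ℤ))
    obtain ⟨q, -, hq⟩ := hΨ' (e i) (hy.sp.1 i) hb
    exact ⟨Ψ, hΨ, q, hq⟩
  choose Ψ hΨ q hq using h2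
  have h3 : (Matrix.of q : Matrix (ZMod d) (ZMod d) L[X]) * Matrix.of c =
      Matrix.diagonal fun i => (Ψ i).map (algebraMap O L) := by
    have h4 : ∀ i, (fun k => ((Matrix.of q : Matrix (ZMod d) (ZMod d) L[X]) *
        Matrix.of c) i k) = fun k => (Matrix.diagonal fun i =>
          (Ψ i).map (algebraMap O L) : Matrix (ZMod d) (ZMod d) L[X]) i k := by
      intro i
      apply coef_unique (cmat_isUnit hy.kr hy.sp)
      have h5 : ∑ k, ev d ((Matrix.diagonal fun i =>
          (Ψ i).map (algebraMap O L) : Matrix (ZMod d) (ZMod d) L[X]) i k) * e k =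
          phK O L d (Ψ i) * e i := by
        have h6 : ∀ k, ev d ((Matrix.diagonal fun i =>
            (Ψ i).map (algebraMap O L) : Matrix (ZMod d) (ZMod d) L[X]) i k) * e k =
            if i = k then phK O L d (Ψ i) * e i else 0 := by
          intro k
          rw [Matrix.diagonal_apply]
          split_ifs with h
          · rw [h]
            rfl
          · rw [map_zero, zero_mul]
        rw [Finset.sum_congr rfl fun k _ => h6 k, Finset.sum_ite_eq,
          if_pos (Finset.mem_univ _)]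
      rw [h5, hq i]
      have h7 : ∀ k, ev d (((Matrix.of q : Matrix (ZMod d) (ZMod d) L[X]) *
          Matrix.of c) i k) * e k = ∑ l, ev d (q i l) * (ev d (c l k) * e k) := by
        intro k
        rw [Matrix.mul_apply, map_sum, Finset.sum_mul]
        refine Finset.sum_congr rfl fun l _ => ?_
        rw [map_mul, mul_assoc]
        rfl
      rw [Finset.sum_congr rfl fun k _ => h7 k, Finset.sum_comm]
      refine Finset.sum_congr rfl fun l _ => ?_
      rw [← Finset.mul_sum, ← hc l]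
    ext1 i k
    exact congrFun (h4 i) k
  have h4 : D ∣ (∏ i, Ψ i).map (algebraMap O L) := by
    refine ⟨(Matrix.of q : Matrix (ZMod d) (ZMod d) L[X]).det, ?_⟩
    have h5 := congrArg Matrix.det h3
    rw [Matrix.det_mul, Matrix.det_diagonal] at h5
    rw [Polynomial.map_prod, ← h5, mul_comm]
  obtain ⟨D', hD'⟩ := IsIntegrallyClosed.eq_map_mul_C_of_dvd L
    (monic_prod_of_monic _ _ fun i _ => hΨ i) h4
  have hprod0 : (∏ i, Ψ i).map (algebraMap O L) ≠ 0 :=
    ((monic_prod_of_monic _ _ fun i _ => hΨ i).map _).ne_zero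
  have hD0 : D ≠ 0 := by
    rintro h
    rw [h] at h4
    exact hprod0 (zero_dvd_iff.1 h4)
  have hlc : D.leadingCoeff ≠ 0 := leadingCoeff_ne_zero.2 hD0
  have hD'm : D'.Monic := by
    have h5 : (D'.map (algebraMap O L)).leadingCoeff * D.leadingCoeff = D.leadingCoeff := by
      conv_rhs => rw [← hD', leadingCoeff_mul, leadingCoeff_C]
    have h6 : (D'.map (algebraMap O L)).leadingCoeff = 1 :=
      mul_right_cancel₀ hlc (by rw [h5, one_mul])
    exact monic_of_injective (IsFractionRing.injective O L) h6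
  obtain ⟨a, ha, hau⟩ := Polynomial.isUnit_iff.1 hu
  set Γ := D' ^ 2 * f with hΓ
  have hΓm : Γ.Monic := (hD'm.pow 2).mul hf
  set c0 := D.leadingCoeff ^ 2 * a with hc0
  have h5 : (gram H).det = ev d (C c0 * Γ.map (algebraMap O L)) := by
    rw [h1, hdet, ← map_mul]
    congr 1
    rw [← hD', ← hau, hΓ, hc0, Polynomial.map_mul, Polynomial.map_pow, C_mul, C_pow]
    ring
  -- the leading coefficient
  have hNZ : ∀ i, (((N i : ℕ) : ℤ) : ZMod d) = i := by
    intro i
    rw [Int.cast_natCast, hm.cl]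
  obtain ⟨h6, h7⟩ := gram_det_lead H (fun i => (N i : ℤ)) hNZ hm.ord
  have h8 : ∏ i, (H i).coeff (-(N i : ℤ)) = 1 := Finset.prod_eq_one fun i _ => hm.one i
  rw [h8, one_pow] at h7
  have h9 : ∃ k : ℕ, -(2 * ∑ i, (N i : ℤ)) = -((d * k : ℕ) : ℤ) := by
    by_contra hcon
    push Not at hcon
    rw [h5] at h7
    rw [ev_coeff_ne d _ _ hcon] at h7
    rcases h7 with h | h
    · exact zero_ne_one h
    · exact one_ne_zero (neg_eq_zero.1 h.symm)
  obtain ⟨k, hk⟩ := h9
  have hk' : 2 * ∑ i, (N i : ℤ) = ((d * k : ℕ) : ℤ) := neg_injective hk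
  rw [hk'] at h6 h7
  rw [h5] at h6 h7
  have h10 : (ev d (C c0 * Γ.map (algebraMap O L))).coeff (-((d * k : ℕ) : ℤ)) ≠ 0 := by
    rcases h7 with h | h
    · rw [h]
      exact one_ne_zero
    · rw [h]
      exact neg_ne_zero.2 one_ne_zero
  have h11 := natDegree_of_lead h6 h10
  have hc00 : c0 ≠ 0 := mul_ne_zero (pow_ne_zero _ hlc) ha.ne_zero
  have h12 : (Γ.map (algebraMap O L)).natDegree = k := by
    rw [← h11, natDegree_C_mul hc00]
  have h13 : (Γ.map (algebraMap O L)).coeff k = 1 := by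
    rw [← h12]
    exact (hΓm.map (algebraMap O L)).leadingCoeff
  rw [ev_coeff d (NeZero.ne d), coeff_C_mul, h13, mul_one] at h7
  refine ⟨Γ, hΓm, ?_⟩
  rcases h7 with h | h
  · left
    rw [h5, h, C_1, one_mul]
    rfl
  · right
    rw [h5, h, C_neg, C_1, neg_one_mul, map_neg]
    rfl

end

end Pool.Agent.MG.G0.ZL
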