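import Pool.Agent.MG.G0.ZL.L10

/-!
# The minimal family has no defect
-/

namespace Pool.Agent.MG.G0.ZL

open Polynomial

section

variable {A : Type} [CommRing A] {R : Subalgebra A (LaurentSeries A)} {d : ℕ}

theorem ev_mem (hz : zz A d ∈ R) (q : A[X]) : ev d q ∈ R := by
  induction q using Polynomial.induction_on' with
  | add p q hp hq =>
    rw [map_add]
    exact add_mem hp hq
  | monomial n a =>
    rw [← C_mul_X_pow_eq_monomial, map_mul, ev_C, map_pow, ev_X]
    exact mul_mem (R.algebraMap_mem _) (pow_mem hz n)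

end

section

variable {O L : Type} [CommRing O] [IsDomain O] [IsDiscreteValuationRing O] [Field L]
  [Algebra O L] [IsFractionRing O L] {d : ℕ} [NeZero d] {ϖ : O} {Nf : ℕ} {w : EL L}

/-- Congruent matrices have congruent determinants. -/
theorem FF_det_sub (h : Rt ϖ Nf w) {ι : Type} [Fintype ι] [DecidableEq ι]
    (A B : Matrix ι ι (EL L)) (hA : ∀ i j, FF O d w 0 (A i j)) (hB : ∀ i j, FF O d w 0 (B i j))
    (hAB : ∀ i j, FF O d w 1 (A i j - B i j)) : FF O d w 1 (A.det - B.det) := by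
  let A' : Matrix ι ι (SS (phE O L d)) := Matrix.of fun i j => ⟨A i j, FF_zero_iff.1 (hA i j)⟩
  let B' : Matrix ι ι (SS (phE O L d)) := Matrix.of fun i j => ⟨B i j, FF_zero_iff.1 (hB i j)⟩
  let w' : SS (phE O L d) := ⟨w, h.mem⟩
  let I : Ideal (SS (phE O L d)) := Ideal.span {w'}
  have h1 : (Ideal.Quotient.mk I).mapMatrix A' = (Ideal.Quotient.mk I).mapMatrix B' := by
    ext1 i j
    show Ideal.Quotient.mk I (A' i j) = Ideal.Quotient.mk I (B' i j)
    rw [Ideal.Quotient.eq, Ideal.mem_span_singleton]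
    refine ⟨⟨w ^ (-(1 : ℤ)) * (A i j - B i j), hAB i j⟩, Subtype.ext ?_⟩
    show A i j - B i j = w * (w ^ (-(1 : ℤ)) * (A i j - B i j))
    rw [← mul_assoc, zpow_neg_one, mul_inv_cancel₀ h.ne, one_mul]
  have h2 : Ideal.Quotient.mk I A'.det = Ideal.Quotient.mk I B'.det := by
    rw [RingHom.map_det, RingHom.map_det, h1]
  rw [Ideal.Quotient.eq, Ideal.mem_span_singleton] at h2
  obtain ⟨s, hs⟩ := h2
  have h3 : ((A'.det : SS (phE O L d)) : EL L) = A.det := by
    have h4 := RingHom.map_det (SS (phE O L d)).subtype A'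
    exact h4
  have h4 : ((B'.det : SS (phE O L d)) : EL L) = B.det := by
    have h4 := RingHom.map_det (SS (phE O L d)).subtype B'
    exact h4
  have h5 : A.det - B.det = w * (s : EL L) := by
    rw [← h3, ← h4]
    exact congrArg (fun t : SS (phE O L d) => (t : EL L)) hs
  rw [h5, FF, ← mul_assoc, zpow_neg_one, inv_mul_cancel₀ h.ne, one_mul]
  exact s.2

/-- A polynomial over `O` in the first step of the filtration vanishes modulo `ϖ`. -/
theorem residue_of_FF (h : Rt ϖ Nf w) {q : O[X]} (hq : FF O d w 1 (phE O L d q)) :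
    q.map (IsLocalRing.residue O) = 0 := by
  by_contra hcon
  have h1 : FF O d w 1 (em L (ev d (q.map (algebraMap O L)))) := hq
  rw [FF_iff h (v := 0) (q0 := q) ?_ hcon] at h1
  · omega
  · rw [zpow_zero, C_1, one_mul]

theorem FF_wpow (h : Rt ϖ Nf w) (b c : ℤ) {y : EL L} (hy : FF O d w b y) :
    FF O d w (c + b) (w ^ c * y) := by
  have h1 : w ^ (-(c + b)) * (w ^ c * y) = w ^ (-b) * y := by
    rw [← mul_assoc, ← zpow_add₀ h.ne]
    congr 2
    ring
  rw [FF, h1]
  exact hy

end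

section

variable {O L : Type} [CommRing O] [IsDomain O] [IsDiscreteValuationRing O] [Field L]
  [Algebra O L] [IsFractionRing O L] {d : ℕ} [NeZero d] {ϖ : O} {w : EL L} {g : ℕ}
  {R : Subalgebra L (LaurentSeries L)} {e : ZMod d → LaurentSeries L}
  {δ N : ZMod d → ℕ} {H : ZMod d → LaurentSeries L}

/-- The residual Gram matrix. -/
theorem exists_resGram (hy : Hyp O ϖ w g R e) (hm : Mini O w R δ N H) {f : O[X]} (hf : f.Monic)
    {u : L[X]} (hu : IsUnit u) (hdet : (gram e).det = ev d (u * f.map (algebraMap O L)))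
    (hδ : ∃ i, δ i ≠ 0) :
    ∃ (gg : ZMod d → ZMod d → L[X]) (G : Matrix (ZMod d) (ZMod d) O[X]),
      (∀ i j, pr (0 : ZMod d) (H i * H j) = ev d (gg i j)) ∧
      (∀ i j, FF O d w (-(δ i : ℤ) - δ j) (em L (ev d (gg i j)))) ∧
      (∀ i j, (d.factorial : ℤ) ∣ (δ i : ℤ) + δ j →
        gg i j = C (algebraMap O L ϖ ^ (-(((δ i : ℤ) + δ j) / d.factorial))) *
          (G i j).map (algebraMap O L)) ∧
      (∀ i j, ¬ (d.factorial : ℤ) ∣ (δ i : ℤ) + δ j → G i j = 0) ∧
      ∃ v : ZMod d → (IsLocalRing.ResidueField O)[X], v ≠ 0 ∧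
        ∀ i, ∑ j, (G i j).map (IsLocalRing.residue O) * v j = 0 := by
  classical
  have hd : 0 < d := Nat.pos_of_ne_zero (NeZero.ne d)
  have hdO : IsUnit (d : O) := unit_of_factorial hy.un hd le_rfl
  have hdL : IsUnit (d : L) := by
    have := hdO.map (algebraMap O L)
    rwa [map_natCast] at this
  have hNf : (0 : ℤ) < d.factorial := by exact_mod_cast hy.rt.pos
  choose gg hgg using fun i j => pr_mem_ev hy.kr hy.sp hdL (mul_mem (hm.mem i) (hm.mem j))
  have hgF : ∀ i j, FF O d w (-(δ i : ℤ) - δ j) (em L (ev d (gg i j))) := by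
    intro i j
    rw [← hgg]
    refine FF_pr hy.rt hy.un ?_
    rw [map_mul]
    exact FF_mul hy.rt (hm.flt i) (hm.flt j)
  have hG : ∀ i j, ∃ G : O[X], ((d.factorial : ℤ) ∣ (δ i : ℤ) + δ j →
        gg i j = C (algebraMap O L ϖ ^ (-(((δ i : ℤ) + δ j) / d.factorial))) *
          G.map (algebraMap O L)) ∧ (¬ (d.factorial : ℤ) ∣ (δ i : ℤ) + δ j → G = 0) := by
    intro i j
    by_cases hdiv : (d.factorial : ℤ) ∣ (δ i : ℤ) + δ j
    · obtain ⟨k, hk⟩ := hdiv
      have hk' : ((δ i : ℤ) + δ j) / d.factorial = k := by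
        rw [hk, Int.mul_ediv_cancel_left _ hNf.ne']
      by_cases h0 : gg i j = 0
      · refine ⟨0, fun _ => ?_, fun _ => rfl⟩
        rw [h0, Polynomial.map_zero, mul_zero]
      · obtain ⟨v, q0, h1, h2⟩ := exists_val (O := O) (L := L) hy.rt.irr h0
        have h3 := hgF i j
        rw [FF_iff hy.rt h1 h2] at h3
        have h4 : 0 ≤ v + k := by
          have h5 : (d.factorial : ℤ) * 0 ≤ d.factorial * (v + k) := by
            rw [mul_add, mul_zero, ← hk]
            omega
          exact le_of_mul_le_mul_left h5 hNf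
        obtain ⟨n, hn⟩ := Int.eq_ofNat_of_zero_le h4
        refine ⟨C (ϖ ^ n) * q0, fun _ => ?_, fun h => absurd ⟨k, hk⟩ h⟩
        rw [h1, hk', Polynomial.map_mul, map_C, ← mul_assoc, ← C_mul]
        congr 2
        rw [map_pow, ← zpow_natCast, ← zpow_add₀ hy.rt.pi_ne]
        congr 1
        omega
    · exact ⟨0, fun h => absurd h hdiv, fun _ => rfl⟩
  choose G hG1 hG2 using hG
  refine ⟨gg, Matrix.of G, hgg, hgF, hG1, hG2, ?_⟩
  -- the two matrices
  let A : Matrix (ZMod d) (ZMod d) (EL L) :=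
    Matrix.of fun i j => w ^ (δ i : ℤ) * (w ^ (δ j : ℤ) * em L (ev d (gg i j)))
  let B : Matrix (ZMod d) (ZMod d) (EL L) := Matrix.of fun i j => phE O L d (G i j)
  have hA : ∀ i j, FF O d w 0 (A i j) := by
    intro i j
    have h1 := FF_wpow hy.rt _ (δ i : ℤ) (FF_wpow hy.rt _ (δ j : ℤ) (hgF i j))
    have h2 : (δ i : ℤ) + (δ j + (-(δ i : ℤ) - δ j)) = 0 := by ring
    rw [h2] at h1
    exact h1
  have hB : ∀ i j, FF O d w 0 (B i j) := fun i j => FF_O _
  have hAB : ∀ i j, FF O d w 1 (A i j - B i j) := by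
    intro i j
    by_cases hdiv : (d.factorial : ℤ) ∣ (δ i : ℤ) + δ j
    · have h1 : A i j = B i j := by
        show w ^ (δ i : ℤ) * (w ^ (δ j : ℤ) * em L (ev d (gg i j))) = phE O L d (G i j)
        rw [hG1 i j hdiv]
        obtain ⟨k, hk⟩ := hdiv
        have hk' : ((δ i : ℤ) + δ j) / d.factorial = k := by
          rw [hk, Int.mul_ediv_cancel_left _ hNf.ne']
        rw [hk', map_mul, map_mul, ← ec_eq_ev, map_zpow₀, ← hy.rt.pow, ← zpow_natCast,
          ← zpow_mul, ← mul_assoc, ← mul_assoc, ← zpow_add₀ hy.rt.ne, ← zpow_add₀ hy.rt.ne, hk,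
          phE_apply]
        have h2 : (d.factorial : ℤ) * k + d.factorial * -k = 0 := by ring
        rw [h2, zpow_zero, one_mul]
      rw [h1, sub_self]
      exact FF_zero
    · have h1 : B i j = 0 := by
        show phE O L d (G i j) = 0
        rw [hG2 i j hdiv, map_zero]
      rw [h1, sub_zero]
      have h2 := FF_succ hy.rt (gg i j) (b := -(δ i : ℤ) - δ j) (by
        intro h
        apply hdiv
        have h3 : (δ i : ℤ) + δ j = -(-(δ i : ℤ) - δ j) := by ring
        rw [h3]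
        exact (dvd_neg).2 h) (hgF i j)
      have h3 := FF_wpow hy.rt _ (δ i : ℤ) (FF_wpow hy.rt _ (δ j : ℤ) h2)
      have h4 : (δ i : ℤ) + (δ j + (-(δ i : ℤ) - δ j + 1)) = 1 := by ring
      rw [h4] at h3
      exact h3
  have hdets := FF_det_sub hy.rt A B hA hB hAB
  -- the determinant of `A`
  obtain ⟨Γ, -, hΓ⟩ := gram_mini hy hm hf hu hdet
  have hAdet : A.det = (∏ i, w ^ (δ i : ℤ)) * ((∏ i, w ^ (δ i : ℤ)) * em L (gram H).det) := by
    have h1 : em L (gram H).det = (Matrix.of fun i j => em L (ev d (gg i j))).det := by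
      rw [RingHom.map_det]
      congr 1
      ext1 i j
      show em L (pr (0 : ZMod d) (H i * H j)) = em L (ev d (gg i j))
      rw [hgg]
    rw [h1, ← Matrix.det_mul_row, ← Matrix.det_mul_column]
    rfl
  have hprod : (∏ i, w ^ (δ i : ℤ)) = w ^ (∑ i, (δ i : ℤ)) := by
    simp only [zpow_natCast]
    rw [Finset.prod_pow_eq_pow_sum, ← Nat.cast_sum, zpow_natCast]
  have hsum : 1 ≤ ∑ i, (δ i : ℤ) := by
    obtain ⟨i, hi⟩ := hδ
    have h1 := Finset.single_le_sum (f := fun i => (δ i : ℤ)) (s := Finset.univ)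
      (fun j _ => by positivity) (Finset.mem_univ i)
    have h2 : (1 : ℤ) ≤ δ i := by omega
    exact h2.trans h1
  have hAF : FF O d w 1 A.det := by
    have h1 : FF O d w 0 (em L (gram H).det) := by
      rcases hΓ with h | h
      · rw [h]
        exact FF_O Γ
      · rw [h, map_neg]
        exact FF_neg (FF_O Γ)
    rw [hAdet, hprod]
    have h2 := FF_wpow hy.rt _ (∑ i, (δ i : ℤ)) (FF_wpow hy.rt _ (∑ i, (δ i : ℤ)) h1)
    exact FF_mono hy.rt (by omega) h2
  have hBF : FF O d w 1 B.det := by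
    have h1 := FF_sub hAF hdets
    rwa [sub_sub_cancel] at h1
  have hBdet : B.det = phE O L d (Matrix.of G).det := by
    rw [RingHom.map_det]
    rfl
  rw [hBdet] at hBF
  have h1 := residue_of_FF hy.rt hBF
  have h2 : ((Matrix.of G).map (mapRingHom (IsLocalRing.residue O))).det = 0 := by
    have h3 := RingHom.map_det (mapRingHom (IsLocalRing.residue O)) (Matrix.of G)
    rw [coe_mapRingHom, h1] at h3
    exact h3.symm
  obtain ⟨v, hv, hv'⟩ := Matrix.exists_mulVec_eq_zero_iff.2 h2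
  exact ⟨v, hv, fun i => congrFun hv' i⟩

end

end Pool.Agent.MG.G0.ZL
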