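import Pool.Agent.MG.G0.ZL.L11

/-!
# The minimal family has no defect: end of the proof
-/

namespace Pool.Agent.MG.G0.ZL

open Polynomial

section

variable {O L : Type} [CommRing O] [IsDomain O] [IsDiscreteValuationRing O] [Field L]
  [Algebra O L] [IsFractionRing O L] {d : ℕ} [NeZero d] {ϖ : O} {w : EL L} {g : ℕ}
  {R : Subalgebra L (LaurentSeries L)} {e : ZMod d → LaurentSeries L}
  {δ N : ZMod d → ℕ} {H : ZMod d → LaurentSeries L}

/-- The leading term of a combination of the minimal family. -/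
theorem exists_top (hm : Mini O w R δ N H) (q : ZMod d → L[X]) (hq : q ≠ 0) :
    ∃ (n : ℕ) (j : ZMod d), (n : ZMod d) = j ∧ q j ≠ 0 ∧
      ∑ j, ev d (q j) * H j ∈ Pl L n ∧
      (∑ j, ev d (q j) * H j).coeff (-(n : ℤ)) = (q j).leadingCoeff := by
  classical
  obtain ⟨j0, hj0⟩ : ∃ j, q j ≠ 0 := by
    by_contra hcon
    push Not at hcon
    exact hq (funext hcon)
  let ord : ZMod d → ℕ := fun j => d * (q j).natDegree + N j
  have hordm : ∀ j, ((ord j : ℕ) : ZMod d) = j := by
    intro j
    show ((d * (q j).natDegree + N j : ℕ) : ZMod d) = j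
    push_cast
    rw [ZMod.natCast_self, zero_mul, zero_add, hm.cl]
  obtain ⟨j1, hj1, hmax⟩ := Finset.exists_max_image (Finset.univ.filter fun j => q j ≠ 0) ord
    ⟨j0, by simpa using hj0⟩
  have hq1 : q j1 ≠ 0 := (Finset.mem_filter.1 hj1).2
  have hPl : ∀ j, ev d (q j) * H j ∈ Pl L (ord j) := by
    intro j
    have h1 := mul_mem_Pl (ev_mem_Pl d (q j) le_rfl) (hm.ord j)
    have h2 : ((d * (q j).natDegree : ℕ) : ℤ) + N j = ord j := by
      show ((d * (q j).natDegree : ℕ) : ℤ) + N j = ((d * (q j).natDegree + N j : ℕ) : ℤ)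
      push_cast
      rfl
    rwa [h2] at h1
  refine ⟨ord j1, j1, hordm j1, hq1, ?_, ?_⟩
  · refine Submodule.sum_mem _ fun j _ => ?_
    by_cases h0 : q j = 0
    · rw [h0, map_zero, zero_mul]
      exact Submodule.zero_mem _
    · refine Pl_mono ?_ (hPl j)
      exact_mod_cast hmax j (by simpa using h0)
  · rw [HahnSeries.coeff_sum, Finset.sum_eq_single j1]
    · have h1 := coeff_mul_Pl (ev_mem_Pl d (q j1) le_rfl) (hm.ord j1)
      have h2 : ((d * (q j1).natDegree : ℕ) : ℤ) + N j1 = ord j1 := by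
        show ((d * (q j1).natDegree : ℕ) : ℤ) + N j1 = ((d * (q j1).natDegree + N j1 : ℕ) : ℤ)
        push_cast
        rfl
      rw [h2, ev_coeff d (NeZero.ne d), hm.one, mul_one] at h1
      exact h1
    · intro j _ hj
      by_cases h0 : q j = 0
      · rw [h0, map_zero, zero_mul, HahnSeries.coeff_zero]
      · apply hPl j
        have h1 := hmax j (by simpa using h0)
        have h2 : ord j ≠ ord j1 := by
          intro h
          apply hj
          rw [← hordm j, h, hordm]
        omega
    · intro h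
      exact absurd (Finset.mem_univ _) h

/-- All defects vanish. -/
theorem mini_zero (hy : Hyp O ϖ w g R e) (hm : Mini O w R δ N H) {f : O[X]} (hf : f.Monic)
    {u : L[X]} (hu : IsUnit u) (hdet : (gram e).det = ev d (u * f.map (algebraMap O L))) :
    ∀ i, δ i = 0 := by
  classical
  by_contra hcon
  push Not at hcon
  obtain ⟨gg, G, hgg, hgF, hG1, hG2, v, hv, hv'⟩ := exists_resGram hy hm hf hu hdet hcon
  have hd : 0 < d := Nat.pos_of_ne_zero (NeZero.ne d)
  have hdO : IsUnit (d : O) := unit_of_factorial hy.un hd le_rfl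
  have hdL : IsUnit (d : L) := by
    have := hdO.map (algebraMap O L)
    rwa [map_natCast] at this
  have hNf : (0 : ℤ) < d.factorial := by exact_mod_cast hy.rt.pos
  obtain ⟨j0, hj0⟩ : ∃ j, v j ≠ 0 := by
    by_contra hcon
    push Not at hcon
    exact hv (funext hcon)
  obtain ⟨c, hc⟩ : ∃ c : ℤ, c = (δ j0 : ℤ) := ⟨_, rfl⟩
  -- the lifts
  have hU : ∀ j, ∃ U : O[X], U.map (IsLocalRing.residue O) = v j ∧ U.degree = (v j).degree := by
    intro j
    apply exists_degree_eq_of_mem_lifts
    rw [lifts_iff_coeff_lifts]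
    intro n
    exact IsLocalRing.residue_surjective _
  choose U hU1 hU2 using hU
  let q : ZMod d → L[X] := fun j => if (d.factorial : ℤ) ∣ (δ j : ℤ) - c then
    C (algebraMap O L ϖ ^ (((δ j : ℤ) - c) / d.factorial)) * (U j).map (algebraMap O L) else 0
  have hq1 : ∀ j, (d.factorial : ℤ) ∣ (δ j : ℤ) - c →
      q j = C (algebraMap O L ϖ ^ (((δ j : ℤ) - c) / d.factorial)) *
        (U j).map (algebraMap O L) := fun j h => if_pos h
  have hq2 : ∀ j, ¬ (d.factorial : ℤ) ∣ (δ j : ℤ) - c → q j = 0 := fun j h => if_neg h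
  have hUinj : Function.Injective (Polynomial.map (algebraMap O L)) :=
    Polynomial.map_injective _ (IsFractionRing.injective O L)
  -- the filtration
  have hqF : ∀ j, FF O d w ((δ j : ℤ) - c) (em L (ev d (q j))) := by
    intro j
    by_cases hdiv : (d.factorial : ℤ) ∣ (δ j : ℤ) - c
    · rw [hq1 j hdiv, map_mul, map_mul, ← ec_eq_ev]
      have h1 := (FF_pi_mul (d := d) hy.rt (((δ j : ℤ) - c) / d.factorial) (b := 0)
        (y := em L (ev d ((U j).map (algebraMap O L))))).2 (FF_O (U j))
      rw [zero_add, Int.mul_ediv_cancel' hdiv] at h1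
      exact h1
    · rw [hq2 j hdiv, map_zero, map_zero]
      exact FF_zero
  set x : LaurentSeries L := ∑ j, ev d (q j) * H j with hx
  have hxR : x ∈ R := sum_mem fun j _ => mul_mem (ev_mem hy.zm _) (hm.mem j)
  have hxF : FF O d w (-c) (em L x) := by
    rw [hx, map_sum]
    refine FF_sum _ _ fun j _ => ?_
    rw [map_mul]
    have h1 := FF_mul hy.rt (hqF j) (hm.flt j)
    have h2 : (δ j : ℤ) - c + -(δ j : ℤ) = -c := by ring
    rwa [h2] at h1
  -- the leading term
  have hqj0 : q j0 ≠ 0 := by
    rw [hq1 j0 (by rw [← hc, sub_self]; exact dvd_zero _)]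
    refine mul_ne_zero ?_ ?_
    · rw [Ne, C_eq_zero]
      exact zpow_ne_zero _ hy.rt.pi_ne
    · intro h
      apply hj0
      have h1 : U j0 = 0 := hUinj (by rw [h, Polynomial.map_zero])
      rw [← hU1 j0, h1, Polynomial.map_zero]
  obtain ⟨n, j1, hn, hqj1, htop1, htop2⟩ := exists_top hm q (by
    intro h
    exact hqj0 (congrFun h j0))
  rw [← hx] at htop1 htop2
  have hdiv1 : (d.factorial : ℤ) ∣ (δ j1 : ℤ) - c := by
    by_contra h
    exact hqj1 (hq2 j1 h)
  have hUj1 : U j1 ≠ 0 := by
    intro h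
    apply hqj1
    rw [hq1 j1 hdiv1, h, Polynomial.map_zero, mul_zero]
  have hlc : (q j1).leadingCoeff = algebraMap O L ϖ ^ (((δ j1 : ℤ) - c) / d.factorial) *
      algebraMap O L (U j1).leadingCoeff := by
    rw [hq1 j1 hdiv1, leadingCoeff_mul, leadingCoeff_C,
      leadingCoeff_map_of_injective (IsFractionRing.injective O L)]
  have hunit : IsUnit (U j1).leadingCoeff := by
    by_contra hnu
    have h1 : IsLocalRing.residue O (U j1).leadingCoeff = 0 := by
      rw [IsLocalRing.residue_eq_zero_iff, IsLocalRing.mem_maximalIdeal]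
      exact hnu
    have h2 : (v j1).coeff (U j1).natDegree = 0 := by
      rw [← hU1 j1, coeff_map]
      exact h1
    have h3 : (U j1).natDegree = (v j1).natDegree := natDegree_eq_of_degree_eq (hU2 j1)
    rw [h3] at h2
    have h4 : v j1 = 0 := leadingCoeff_eq_zero.1 h2
    have h5 := hU2 j1
    rw [h4, degree_zero, degree_eq_bot] at h5
    exact hUj1 h5
  -- traces with the minimal family
  have htr : ∀ i, FF O d w (-c - δ i + 1) (em L (pr (0 : ZMod d) (H i * x))) := by
    intro i
    have h1 : pr (0 : ZMod d) (H i * x) = ev d (∑ j, q j * gg i j) := by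
      rw [hx, Finset.mul_sum, map_sum, map_sum]
      refine Finset.sum_congr rfl fun j _ => ?_
      rw [map_mul (ev d), ← hgg, ← pr_ev_mul]
      congr 1
      ring
    rw [h1]
    by_cases hdiv : (d.factorial : ℤ) ∣ (δ i : ℤ) + c
    · have h2 : ∑ j, q j * gg i j =
          C (algebraMap O L ϖ ^ (-(((δ i : ℤ) + c) / d.factorial))) *
            (∑ j, G i j * U j).map (algebraMap O L) := by
        rw [Polynomial.map_sum, Finset.mul_sum]
        refine Finset.sum_congr rfl fun j _ => ?_
        rw [Polynomial.map_mul]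
        by_cases hj : (d.factorial : ℤ) ∣ (δ j : ℤ) - c
        · have h3 : (d.factorial : ℤ) ∣ (δ i : ℤ) + δ j := by
            have h4 : (δ i : ℤ) + δ j = (δ i + c) + (δ j - c) := by ring
            rw [h4]
            exact dvd_add hdiv hj
          rw [hq1 j hj, hG1 i j h3]
          have h4 : algebraMap O L ϖ ^ (-(((δ i : ℤ) + c) / d.factorial)) =
              algebraMap O L ϖ ^ (((δ j : ℤ) - c) / d.factorial) *
                algebraMap O L ϖ ^ (-(((δ i : ℤ) + δ j) / d.factorial)) := by
            rw [← zpow_add₀ hy.rt.pi_ne]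
            congr 1
            obtain ⟨a, ha⟩ := hdiv
            obtain ⟨b, hb⟩ := hj
            have h5 : (δ i : ℤ) + δ j = d.factorial * (a + b) := by
              rw [mul_add, ← ha, ← hb]
              ring
            rw [ha, hb, h5, Int.mul_ediv_cancel_left _ hNf.ne',
              Int.mul_ediv_cancel_left _ hNf.ne', Int.mul_ediv_cancel_left _ hNf.ne']
            ring
          rw [h4, C_mul]
          ring
        · have h3 : ¬ (d.factorial : ℤ) ∣ (δ i : ℤ) + δ j := by
            intro h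
            apply hj
            have h4 : (δ j : ℤ) - c = (δ i + δ j) - (δ i + c) := by ring
            rw [h4]
            exact dvd_sub h hdiv
          rw [hq2 j hj, hG2 i j h3, zero_mul, Polynomial.map_zero, zero_mul, mul_zero]
      have h3 : (∑ j, G i j * U j).map (IsLocalRing.residue O) = 0 := by
        rw [Polynomial.map_sum, ← hv' i]
        refine Finset.sum_congr rfl fun j _ => ?_
        rw [Polynomial.map_mul, hU1]
      rw [h2, map_mul, map_mul, ← ec_eq_ev]
      have h4 := FF_of_residue (d := d) hy.rt _ h3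
      have h5 := (FF_pi_mul (d := d) hy.rt (-(((δ i : ℤ) + c) / d.factorial))).2 h4
      refine FF_mono hy.rt ?_ h5
      rw [mul_neg, Int.mul_ediv_cancel' hdiv]
      omega
    · rw [map_sum, map_sum]
      refine FF_sum _ _ fun j _ => ?_
      by_cases hj : (d.factorial : ℤ) ∣ (δ j : ℤ) - c
      · have h3 : ¬ (d.factorial : ℤ) ∣ -(δ i : ℤ) - δ j := by
          intro h
          apply hdiv
          have h4 : (δ i : ℤ) + c = -((-δ i - δ j) + (δ j - c)) := by ring
          rw [h4]
          exact (dvd_neg).2 (dvd_add h hj)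
        have h4 := FF_succ hy.rt (gg i j) h3 (hgF i j)
        have h5 := FF_mul hy.rt (hqF j) h4
        rw [map_mul, map_mul]
        have h6 : (δ j : ℤ) - c + (-δ i - δ j + 1) = -c - δ i + 1 := by ring
        rwa [h6] at h5
      · rw [hq2 j hj, zero_mul, map_zero, map_zero]
        exact FF_zero
  -- traces with all elements
  have htr2 : ∀ (b : ℤ) (y : LaurentSeries L), y ∈ R → FF O d w b (em L y) →
      FF O d w (b - c + 1) (em L (pr (0 : ZMod d) (y * x))) := by
    intro b y hyR hyF
    obtain ⟨Ψ, hΨ, hΨ'⟩ := exists_Psi hy hm b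
    obtain ⟨s, hs1, hs2⟩ := hΨ' y hyR hyF
    obtain ⟨r, hr⟩ := pr_mem_ev hy.kr hy.sp hdL (mul_mem hyR hxR)
    rw [hr]
    have hres : Ψ.map (IsLocalRing.residue O) ≠ 0 := (hΨ.map _).ne_zero
    refine FF_gauss hy.rt Ψ hres r ?_
    have h1 : phK O L d Ψ * pr (0 : ZMod d) (y * x) =
        ∑ j, ev d (s j) * pr (0 : ZMod d) (H j * x) := by
      rw [phK_apply, ← pr_ev_mul, ← mul_assoc, ← phK_apply, hs2, Finset.sum_mul, map_sum]
      refine Finset.sum_congr rfl fun j _ => ?_
      rw [mul_assoc, pr_ev_mul]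
    have h2 : phE O L d Ψ * em L (ev d r) = em L (phK O L d Ψ * pr (0 : ZMod d) (y * x)) := by
      rw [map_mul, hr]
      rfl
    rw [h2, h1, map_sum]
    refine FF_sum _ _ fun j _ => ?_
    rw [map_mul]
    have h3 := FF_mul hy.rt (hs1 j) (htr j)
    have h4 : b + δ j + (-c - δ j + 1) = b - c + 1 := by ring
    rwa [h4] at h3
  -- the element is smaller than expected
  have hsmall : FF O d w (-c + 1) (em L x) := by
    refine FF_of_traces hy.kr hy.sp hy.rt hy.un hxR fun m hm0 hmd => ?_
    obtain ⟨k, rfl⟩ : ∃ k, m = k + 1 := ⟨m - 1, by omega⟩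
    have h1 : FF O d w (-c * k) (em L (x ^ k)) := by
      rw [map_pow]
      exact FF_pow hy.rt hxF k
    have h2 := htr2 _ _ (pow_mem hxR k) h1
    rw [← pow_succ] at h2
    have h3 : -c * k - c + 1 = ((k + 1 : ℕ) : ℤ) * -c + 1 := by
      push_cast
      ring
    rwa [h3] at h2
  have h1 := lead_min hy hm hxR htop1 hsmall
  rw [htop2, hlc, FF_ec_iff hy.rt rfl hunit, Int.mul_ediv_cancel' hdiv1, hn] at h1
  omega

end

end Pool.Agent.MG.G0.ZL
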