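import Pool.Agent.MG.G0.ZL.L12
import Pool.Agent.MG.G0.ZL.ZI

/-!
# The integral elements of the Krichever ring are the series with coefficients in `O`
-/

namespace Pool.Agent.MG.G0.ZL

open Polynomial

section

variable {A B : Type} [CommRing A] [CommRing B]

/-- Series with coefficients in a subring. -/
theorem exists_lmap {φ : A →+* B} (hφ : Function.Injective φ) {x : LaurentSeries B}
    (h : ∀ m, ∃ a, φ a = x.coeff m) : ∃ x' : LaurentSeries A, lmap φ x' = x := by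
  choose c hc using h
  refine ⟨⟨c, x.isPWO_support'.mono fun m hm => ?_⟩, ?_⟩
  · rw [Function.mem_support] at hm ⊢
    intro h0
    apply hm
    apply hφ
    rw [hc, map_zero]
    exact h0
  · ext m
    exact hc m

theorem ev_descend {d : ℕ} [NeZero d] {φ : A →+* B} (hφ : Function.Injective φ)
    {y : LaurentSeries A} {q : B[X]} (h : lmap φ y = ev d q) :
    ∃ q' : A[X], y = ev d q' ∧ q = q'.map φ := by
  have h1 : q ∈ lifts φ := by
    rw [lifts_iff_coeff_lifts]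
    intro k
    rw [← ev_coeff d (NeZero.ne d), ← h, lmap_coeff]
    exact ⟨_, rfl⟩
  obtain ⟨q', hq'⟩ := (mem_lifts _).1 h1
  refine ⟨q', lmap_injective hφ ?_, hq'.symm⟩
  rw [h, lmap_ev, hq']

end

section

variable {O L : Type} [CommRing O] [IsDomain O] [IsDiscreteValuationRing O] [Field L]
  [Algebra O L] [IsFractionRing O L] {d : ℕ} [NeZero d] {ϖ : O} {w : EL L} {g : ℕ}
  {R : Subalgebra L (LaurentSeries L)} {e : ZMod d → LaurentSeries L}
  {δ N : ZMod d → ℕ} {H : ZMod d → LaurentSeries L}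

/-- The integral elements of the Krichever ring. -/
def Pint (O : Type) [CommRing O] {L : Type} [Field L] [Algebra O L] (d : ℕ) [NeZero d] (w : EL L)
    (R : Subalgebra L (LaurentSeries L)) : Subring (LaurentSeries L) where
  carrier := {x | x ∈ R ∧ em L x ∈ SS (phE O L d)}
  mul_mem' := by
    rintro x y ⟨h1, h2⟩ ⟨h3, h4⟩
    exact ⟨mul_mem h1 h3, by rw [map_mul]; exact mul_mem h2 h4⟩
  one_mem' := ⟨one_mem R, by rw [map_one]; exact one_mem _⟩
  add_mem' := by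
    rintro x y ⟨h1, h2⟩ ⟨h3, h4⟩
    exact ⟨add_mem h1 h3, by rw [map_add]; exact add_mem h2 h4⟩
  zero_mem' := ⟨zero_mem R, by rw [map_zero]; exact zero_mem _⟩
  neg_mem' := by
    rintro x ⟨h1, h2⟩
    exact ⟨neg_mem h1, by rw [map_neg]; exact neg_mem h2⟩

theorem Pint_monic (hy : Hyp O ϖ w g R e) (hm : Mini O w R δ N H) (hδ : ∀ i, δ i = 0) :
    ∃ n₀ : ℕ, ∀ n : ℕ, n₀ ≤ n → ∃ h ∈ Pint O d w R, h ∈ Po L n ∧ h.coeff (-(n : ℤ)) = 1 := by
  refine ⟨Finset.univ.sup N, fun n hn => ?_⟩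
  have h1 : N (n : ZMod d) ≤ n := (Finset.le_sup (Finset.mem_univ _)).trans hn
  have h2 : d ∣ n - N (n : ZMod d) := by
    rw [← ZMod.natCast_eq_zero_iff, Nat.cast_sub h1, hm.cl, sub_self]
  obtain ⟨k, hk⟩ := h2
  have h3 : (n : ℤ) = (d * k : ℕ) + (N (n : ZMod d) : ℤ) := by omega
  refine ⟨ev d (X ^ k) * H (n : ZMod d), ⟨mul_mem (ev_mem hy.zm _) (hm.mem _), ?_⟩, ?_, ?_⟩
  · rw [map_mul]
    refine mul_mem ?_ ?_
    · have h4 : em L (ev d (X ^ k : L[X])) = phE O L d (X ^ k) := by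
        rw [phE_apply, Polynomial.map_pow, map_X]
      rw [h4]
      exact SS_map _ _
    · have h4 := hm.flt (n : ZMod d)
      rw [hδ, Nat.cast_zero, neg_zero, FF_zero_iff] at h4
      exact h4
  · have h4 := zzpow_mul_mem_Pl (d := d) k (hm.ord (n : ZMod d))
    rw [← h3] at h4
    exact h4
  · have h4 := zzpow_mul_coeff (d := d) k (hm.ord (n : ZMod d))
    rw [← h3, hm.one] at h4
    exact h4

theorem mem_O_of_FF (hy : Hyp O ϖ w g R e) {l : L} (hl : FF O d w 0 (ec L l)) :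
    l ∈ (algebraMap O L).range := by
  by_cases h0 : l = 0
  · rw [h0]
    exact zero_mem _
  · obtain ⟨v, c, hc, hv⟩ := exists_val_L (O := O) hy.rt.irr h0
    rw [FF_ec_iff hy.rt hv hc] at hl
    have hNf : (0 : ℤ) < d.factorial := by exact_mod_cast hy.rt.pos
    have h1 : 0 ≤ v := by
      have h2 : (d.factorial : ℤ) * 0 ≤ d.factorial * v := by rwa [mul_zero]
      exact le_of_mul_le_mul_left h2 hNf
    obtain ⟨k, rfl⟩ := Int.eq_ofNat_of_zero_le h1
    refine ⟨ϖ ^ k * c, ?_⟩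
    rw [map_mul, map_pow, hv, zpow_natCast]

theorem Pint_coeff (hy : Hyp O ϖ w g R e) (hm : Mini O w R δ N H) (hδ : ∀ i, δ i = 0)
    {x : LaurentSeries L} (hx : x ∈ R) (hF : FF O d w 0 (em L x)) (m : ℤ) :
    x.coeff m ∈ (algebraMap O L).range := by
  have hd : 0 < d := Nat.pos_of_ne_zero (NeZero.ne d)
  obtain ⟨n₀, hn₀⟩ := Pint_monic hy hm hδ
  refine t_ZINT L (algebraMap O L).range d (Pint O d w R) n₀ hd ?_ ?_ ?_ hn₀ ?_ x
    ⟨hx, FF_zero_iff.1 hF⟩ m
  · obtain ⟨u, hu⟩ := unit_of_factorial hy.un hd le_rfl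
    refine ⟨algebraMap O L ((u⁻¹ : Oˣ) : O), ⟨_, rfl⟩, ?_⟩
    rw [← map_natCast (algebraMap O L), ← map_mul, ← hu, Units.inv_mul, map_one]
  · rintro _ ⟨a, rfl⟩
    refine ⟨R.algebraMap_mem _, ?_⟩
    have h4 : em L (algebraMap L (LaurentSeries L) (algebraMap O L a)) = phE O L d (C a) := by
      rw [phE_apply, map_C, ev_C]
    rw [h4]
    exact SS_map _ _
  · refine ⟨hy.zm, ?_⟩
    have h3 : em L (zz L d) = phE O L d X := by
      rw [phE_apply, map_X, ev_X]
    rw [h3]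
    exact SS_map _ _
  · rintro n - y ⟨hy1, hy2⟩ hyn
    exact mem_O_of_FF hy (FF_lead hy.kr hy.sp hy.rt hy.un hy1 hyn (FF_zero_iff.2 hy2))

/-- Integral elements have coefficients in `O`. -/
theorem exists_cut (hy : Hyp O ϖ w g R e) (hm : Mini O w R δ N H) (hδ : ∀ i, δ i = 0)
    {x : LaurentSeries L} (hx : x ∈ R) (hF : FF O d w 0 (em L x)) :
    ∃ x' ∈ cut (algebraMap O L) R, lmap (algebraMap O L) x' = x := by
  obtain ⟨x', hx'⟩ := exists_lmap (IsFractionRing.injective O L) (Pint_coeff hy hm hδ hx hF)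
  exact ⟨x', by rw [mem_cut, hx']; exact hx, hx'⟩

/-- The coefficients of the characteristic polynomials. -/
theorem cut_charpoly (hR : Kr g R) (he : Spn R e) {p : LaurentSeries O}
    (hp : p ∈ cut (algebraMap O L) R) (i : ℕ) :
    ∃ q : O[X], (cm d p).charpoly.coeff i = ev d q := by
  obtain ⟨q, hq⟩ := charpoly_coeff_mem hR he hp i
  rw [charpoly_cm_lmap, coeff_map] at hq
  obtain ⟨q', h1, -⟩ := ev_descend (IsFractionRing.injective O L) hq
  exact ⟨q', h1⟩

/-- What is needed about the ring of the series with coefficients in `O`. -/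
structure Good (O : Type) {L : Type} [CommRing O] [Field L] [Algebra O L] (d : ℕ) [NeZero d]
    (R : Subalgebra L (LaurentSeries L)) : Prop where
  mon : ∃ n₀ : ℕ, ∀ n : ℕ, n₀ ≤ n → ∃ p ∈ cut (algebraMap O L) R, p ∈ Po O n ∧
    p.coeff (-(n : ℤ)) = 1
  den : ∀ x ∈ R, ∃ c : O, c ≠ 0 ∧ ∃ x' ∈ cut (algebraMap O L) R,
    lmap (algebraMap O L) x' = algebraMap L (LaurentSeries L) (algebraMap O L c) * x
  chp : ∀ p ∈ cut (algebraMap O L) R, ∀ i, ∃ q : O[X], (cm d p).charpoly.coeff i = ev d q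

theorem good (hy : Hyp O ϖ w g R e) (hm : Mini O w R δ N H) (hδ : ∀ i, δ i = 0) :
    Good O d R := by
  have hinj : Function.Injective (algebraMap O L) := IsFractionRing.injective O L
  refine ⟨?_, ?_, fun p hp i => cut_charpoly hy.kr hy.sp hp i⟩
  · obtain ⟨n₀, hn₀⟩ := Pint_monic hy hm hδ
    refine ⟨n₀, fun n hn => ?_⟩
    obtain ⟨h, ⟨h1, h2⟩, h3, h4⟩ := hn₀ n hn
    obtain ⟨h', h5, rfl⟩ := exists_cut hy hm hδ h1 (FF_zero_iff.2 h2)
    refine ⟨h', h5, fun m hm' => ?_, ?_⟩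
    · apply hinj
      rw [← lmap_coeff, h3 m hm', map_zero]
    · apply hinj
      rw [← lmap_coeff, h4, map_one]
  · intro x hx
    obtain ⟨b, hb⟩ := exists_FF hy.kr hy.sp hy.rt hx
    refine ⟨ϖ ^ b, pow_ne_zero _ hy.rt.irr.ne_zero, ?_⟩
    refine exists_cut hy hm hδ (mul_mem (R.algebraMap_mem _) hx) ?_
    have h1 := (FF_pi_mul (d := d) hy.rt (b : ℤ)).2 hb
    rw [map_mul, ← ec_apply, map_pow]
    rw [zpow_natCast] at h1
    refine FF_mono hy.rt ?_ h1
    have h2 : (1 : ℤ) ≤ d.factorial := by exact_mod_cast hy.rt.pos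
    nlinarith [Int.natCast_nonneg b]

end

end Pool.Agent.MG.G0.ZL
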