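import Pool.Agent.MG.G0.ZL.L13

/-!
# The series with coefficients in `O` form a Krichever ring
-/

namespace Pool.Agent.MG.G0.ZL

open Polynomial

section

variable {O : Type} [CommRing O] [IsDomain O] [IsDiscreteValuationRing O] {ϖ : O}

/-- Divisibility by the uniformizer. -/
theorem exists_pi_smul (hϖ : Irreducible ϖ) {p : LaurentSeries O}
    (h : lmap (IsLocalRing.residue O) p = 0) : ∃ p₁ : LaurentSeries O, p = ϖ • p₁ := by
  have h1 : ∀ m, ∃ c, p.coeff m = ϖ * c := by
    intro m
    have h2 : IsLocalRing.residue O (p.coeff m) = 0 := by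
      rw [← lmap_coeff, h, HahnSeries.coeff_zero]
    rw [IsLocalRing.residue_eq_zero_iff, hϖ.maximalIdeal_eq, Ideal.mem_span_singleton] at h2
    exact h2
  choose c hc using h1
  refine ⟨⟨c, p.isPWO_support'.mono fun m hm => ?_⟩, ?_⟩
  · rw [Function.mem_support] at hm ⊢
    rw [hc]
    exact mul_ne_zero hϖ.ne_zero hm
  · ext m
    exact hc m

variable {L : Type} [Field L] [Algebra O L] [IsFractionRing O L] {d : ℕ} [NeZero d] {g : ℕ}
  {R : Subalgebra L (LaurentSeries L)}

omit [IsDomain O] [IsDiscreteValuationRing O] [IsFractionRing O L] in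
theorem lmap_smulO (a : O) (p : LaurentSeries O) : lmap (algebraMap O L) (a • p) =
    algebraMap L (LaurentSeries L) (algebraMap O L a) * lmap (algebraMap O L) p := by
  ext m
  rw [lmap_coeff, HahnSeries.coeff_smul, smul_eq_mul, map_mul, algebraMap_mul_coeff, lmap_coeff]

omit [IsDiscreteValuationRing O] in
theorem mem_cut_of_smul {a : O} (ha : a ≠ 0) {p : LaurentSeries O}
    (h : a • p ∈ cut (algebraMap O L) R) : p ∈ cut (algebraMap O L) R := by
  rw [mem_cut, lmap_smulO] at h
  rw [mem_cut]
  have ha' : algebraMap O L a ≠ 0 := by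
    rw [Ne, IsFractionRing.to_map_eq_zero_iff (K := L)]
    exact ha
  have h1 := mul_mem (R.algebraMap_mem (algebraMap O L a)⁻¹) h
  rw [← mul_assoc, ← map_mul, inv_mul_cancel₀ ha', map_one, one_mul] at h1
  exact h1

/-- The regular series form a subring. -/
def P0 (A : Type) [CommRing A] : Subring (LaurentSeries A) where
  carrier := {f | f ∈ Pl A 0}
  mul_mem' := by
    intro a b ha hb
    have := mul_mem_Pl ha hb
    rwa [add_zero] at this
  one_mem' := one_mem_Pl le_rfl
  add_mem' := by
    intro a b ha hb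
    exact (Pl A 0).add_mem ha hb
  zero_mem' := (Pl A 0).zero_mem
  neg_mem' := by
    intro a ha
    exact (Pl A 0).neg_mem ha

theorem mem_P0 {A : Type} [CommRing A] {f : LaurentSeries A} : f ∈ P0 A ↔ f ∈ Pl A 0 := Iff.rfl

/-- An element with regular reduction has constant reduction. -/
theorem const_of_res [IsAlgClosed (IsLocalRing.ResidueField O)] (hG : Good O d R)
    {p : LaurentSeries O} (hp : p ∈ cut (algebraMap O L) R)
    (h : lmap (IsLocalRing.residue O) p ∈ Pl (IsLocalRing.ResidueField O) 0) :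
    ∃ a : O, lmap (IsLocalRing.residue O) p =
      lmap (IsLocalRing.residue O) (algebraMap O (LaurentSeries O) a) := by
  classical
  set pb : LaurentSeries (IsLocalRing.ResidueField O) := lmap (IsLocalRing.residue O) p with hpb
  -- the coefficients of the characteristic polynomial are regular
  have h1 : ∀ i, (cm d pb).charpoly.coeff i ∈ P0 (IsLocalRing.ResidueField O) := by
    let M : Matrix (ZMod d) (ZMod d) (P0 (IsLocalRing.ResidueField O)) := Matrix.of fun i j =>
      ⟨pr (j - i) pb, mem_P0.2 (pr_mem_Pl (j - i) h)⟩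
    have h2 : (P0 (IsLocalRing.ResidueField O)).subtype.mapMatrix M = cm d pb := by
      ext1 i j
      rfl
    intro i
    rw [← h2]
    have h3 := Matrix.charpoly_map M (P0 (IsLocalRing.ResidueField O)).subtype
    have h4 : ((P0 (IsLocalRing.ResidueField O)).subtype.mapMatrix M).charpoly = M.charpoly.map (P0 (IsLocalRing.ResidueField O)).subtype := h3
    rw [h4, coeff_map]
    exact (M.charpoly.coeff i).2
  have h2 : (cm d pb).charpoly ∈ lifts (algebraMap (IsLocalRing.ResidueField O) (LaurentSeries (IsLocalRing.ResidueField O))) := by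
    rw [lifts_iff_coeff_lifts]
    intro i
    obtain ⟨q, hq⟩ := hG.chp p hp i
    have h3 : (cm d pb).charpoly.coeff i = ev d (q.map (IsLocalRing.residue O)) := by
      rw [hpb, charpoly_cm_lmap, coeff_map, hq, lmap_ev]
    refine ⟨(q.map (IsLocalRing.residue O)).coeff 0, ?_⟩
    have h4 : q.map (IsLocalRing.residue O) = C ((q.map (IsLocalRing.residue O)).coeff 0) := by
      ext k
      rcases Nat.eq_zero_or_pos k with hk | hk
      · rw [hk, coeff_C_zero]
      · rw [coeff_C, if_neg hk.ne', ← ev_coeff d (NeZero.ne d), ← h3]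
        apply mem_P0.1 (h1 i)
        have h5 : 0 < d * k := Nat.mul_pos (Nat.pos_of_ne_zero (NeZero.ne d)) hk
        omega
    rw [h3]
    conv_rhs => rw [h4]
    rw [ev_C]
  obtain ⟨χ, hχ⟩ := (mem_lifts _).1 h2
  have hχm : χ.Monic := by
    refine monic_of_injective (FaithfulSMul.algebraMap_injective (IsLocalRing.ResidueField O) (LaurentSeries (IsLocalRing.ResidueField O))) ?_
    rw [hχ]
    exact Matrix.charpoly_monic _
  have hint : IsIntegral (IsLocalRing.ResidueField O) pb := by
    refine ⟨χ, hχm, ?_⟩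
    have h3 := charpoly_cm_eval (d := d) pb
    rw [← hχ, eval_map] at h3
    exact h3
  have h3 := IsAlgClosed.degree_eq_one_of_irreducible (IsLocalRing.ResidueField O) (minpoly.irreducible hint)
  obtain ⟨a, ha⟩ := minpoly.mem_range_of_degree_eq_one (IsLocalRing.ResidueField O) pb h3
  obtain ⟨b, hb⟩ := IsLocalRing.residue_surjective a
  refine ⟨b, ?_⟩
  rw [lmap_algebraMap, hb]
  exact ha.symm

/-- Divisibility modulo the regular series. -/
theorem key_tf [IsAlgClosed (IsLocalRing.ResidueField O)] (hϖ : Irreducible ϖ)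
    (hG : Good O d R) {f : LaurentSeries O}
    (h : ∃ p ∈ cut (algebraMap O L) R, ϖ • f - p ∈ Po O 0) :
    ∃ p ∈ cut (algebraMap O L) R, f - p ∈ Po O 0 := by
  obtain ⟨p, hp, hpf⟩ := h
  have hϖ0 : IsLocalRing.residue O ϖ = 0 := by
    rw [IsLocalRing.residue_eq_zero_iff, hϖ.maximalIdeal_eq]
    exact Ideal.mem_span_singleton_self _
  have h1 : lmap (IsLocalRing.residue O) p ∈ Pl (IsLocalRing.ResidueField O) 0 := by
    intro m hm
    have h2 : p.coeff m = ϖ * f.coeff m := by
      have h3 := hpf m hm
      rw [HahnSeries.coeff_sub, HahnSeries.coeff_smul, smul_eq_mul, sub_eq_zero] at h3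
      exact h3.symm
    rw [lmap_coeff, h2, map_mul, hϖ0, zero_mul]
  obtain ⟨a, ha⟩ := const_of_res hG hp h1
  obtain ⟨p₁, hp₁⟩ := exists_pi_smul hϖ (p := p - algebraMap O (LaurentSeries O) a) (by
    rw [map_sub, ha, sub_self])
  refine ⟨p₁, mem_cut_of_smul hϖ.ne_zero (by
    rw [← hp₁]
    exact sub_mem hp (Subalgebra.algebraMap_mem _ _)), ?_⟩
  intro m hm
  have h2 : ϖ * (f - p₁).coeff m = 0 := by
    have h3 := hpf m hm
    have h4 : p = ϖ • p₁ + algebraMap O (LaurentSeries O) a := by
      rw [← hp₁]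
      abel
    rw [h4, HahnSeries.coeff_sub, HahnSeries.coeff_add, HahnSeries.coeff_smul,
      HahnSeries.coeff_smul, coeff_algebraMap, if_neg (by omega), add_zero, smul_eq_mul,
      smul_eq_mul, ← mul_sub] at h3
    rw [HahnSeries.coeff_sub]
    exact h3
  exact (mul_eq_zero.1 h2).resolve_left hϖ.ne_zero

/-- The ring of the series with coefficients in `O` is a Krichever ring. -/
theorem cut_kr [IsAlgClosed (IsLocalRing.ResidueField O)] (hR : Kr g R) (hG : Good O d R) :
    ∃ r, Kr r (cut (algebraMap O L) R) := by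
  classical
  obtain ⟨ϖ, hϖ⟩ := IsDiscreteValuationRing.exists_irreducible O
  have hinj : Function.Injective (algebraMap O L) := IsFractionRing.injective O L
  set S : Submodule O (LaurentSeries O) :=
    Subalgebra.toSubmodule (cut (algebraMap O L) R) ⊔ Po O 0 with hS
  have hmemS : ∀ f, f ∈ S ↔ ∃ p ∈ cut (algebraMap O L) R, f - p ∈ Po O 0 := by
    intro f
    rw [hS, Submodule.mem_sup]
    constructor
    · rintro ⟨p, hp, h, hh, rfl⟩
      exact ⟨p, hp, by rwa [add_sub_cancel_left]⟩
    · rintro ⟨p, hp, h⟩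
      exact ⟨p, hp, f - p, h, by abel⟩
  have hmk : ∀ f, S.mkQ f = 0 ↔ ∃ p ∈ cut (algebraMap O L) R, f - p ∈ Po O 0 := by
    intro f
    rw [← LinearMap.mem_ker, Submodule.ker_mkQ, hmemS]
  -- finiteness
  have hfin : Module.Finite O (LaurentSeries O ⧸ S) := by
    obtain ⟨n₀, hn₀⟩ := hG.mon
    let s : ℕ → (LaurentSeries O ⧸ S) := fun m => S.mkQ (HahnSeries.single (-(m : ℤ)) 1)
    refine ⟨⟨(Finset.range n₀).image s, ?_⟩⟩
    rw [eq_top_iff]
    rintro v -
    obtain ⟨f, rfl⟩ := Submodule.mkQ_surjective S v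
    obtain ⟨n, hn⟩ := exists_Pl f
    have key : ∀ n : ℕ, ∀ f : LaurentSeries O, f ∈ Pl O n →
        S.mkQ f ∈ Submodule.span O (((Finset.range n₀).image s : Finset _) :
          Set (LaurentSeries O ⧸ S)) := by
      intro n
      induction n with
      | zero =>
        intro f hf
        have h1 : S.mkQ f = 0 := (hmk f).2 ⟨0, zero_mem _, by simpa using hf⟩
        rw [h1]
        exact Submodule.zero_mem _
      | succ n ih =>
        intro f hf
        have h5 : ((n + 1 : ℕ) : ℤ) - 1 = n := by push_cast; ring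
        by_cases hn : n + 1 < n₀
        · have h3 : f = (f - f.coeff (-((n + 1 : ℕ) : ℤ)) •
              (HahnSeries.single (-((n + 1 : ℕ) : ℤ)) (1 : O))) +
              f.coeff (-((n + 1 : ℕ) : ℤ)) •
                (HahnSeries.single (-((n + 1 : ℕ) : ℤ)) (1 : O)) := by abel
          rw [h3, map_add, map_smul]
          refine Submodule.add_mem _ (ih _ ?_) (Submodule.smul_mem _ _
            (Submodule.subset_span ?_))
          · have h4 := mem_Pl_pred (Submodule.sub_mem _ hf (Submodule.smul_mem _
              (f.coeff (-((n + 1 : ℕ) : ℤ)))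
              (single_mem_Pl (n := ((n + 1 : ℕ) : ℤ)) (1 : O) le_rfl))) (by
                rw [HahnSeries.coeff_sub, HahnSeries.coeff_smul, HahnSeries.coeff_single_same,
                  smul_eq_mul, mul_one, sub_self])
            rwa [h5] at h4
          · rw [Finset.coe_image]
            exact ⟨n + 1, by simpa using hn, rfl⟩
        · obtain ⟨p, hp, hp1, hp2⟩ := hn₀ (n + 1) (by omega)
          have h2 : S.mkQ p = 0 := (hmk p).2 ⟨p, hp, by
            rw [sub_self]
            exact Submodule.zero_mem _⟩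
          have h3 : f = (f - f.coeff (-((n + 1 : ℕ) : ℤ)) • p) +
              f.coeff (-((n + 1 : ℕ) : ℤ)) • p := by abel
          rw [h3, map_add, map_smul, h2, smul_zero, add_zero]
          refine ih _ ?_
          have h4 := mem_Pl_pred (Submodule.sub_mem _ hf (Submodule.smul_mem _
            (f.coeff (-((n + 1 : ℕ) : ℤ))) hp1)) (by
              rw [HahnSeries.coeff_sub, HahnSeries.coeff_smul, hp2, smul_eq_mul, mul_one,
                sub_self])
          rwa [h5] at h4
    exact key n f hn
  -- torsion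
  have htf : Module.IsTorsionFree O (LaurentSeries O ⧸ S) := by
    refine Module.IsTorsionFree.of_smul_eq_zero fun r v hrv => ?_
    by_cases hr : r = 0
    · exact Or.inl hr
    · right
      obtain ⟨n, u, hu⟩ := IsDiscreteValuationRing.eq_unit_mul_pow_irreducible hr hϖ
      have h1 : ϖ ^ n • v = 0 := by
        rw [hu, mul_smul] at hrv
        have h2 : ((u⁻¹ : Oˣ) : O) • ((u : O) • ϖ ^ n • v) = ϖ ^ n • v := by
          rw [smul_smul, Units.inv_mul, one_smul]
        rw [← h2, hrv, smul_zero]
      have h2 : ∀ (n : ℕ) (v : LaurentSeries O ⧸ S), ϖ ^ n • v = 0 → v = 0 := by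
        intro n
        induction n with
        | zero =>
          intro v hv
          rwa [pow_zero, one_smul] at hv
        | succ n ih =>
          intro v hv
          apply ih
          obtain ⟨f, hf⟩ := Submodule.mkQ_surjective S (ϖ ^ n • v)
          rw [pow_succ', mul_smul, ← hf, ← map_smul, hmk] at hv
          rw [← hf, hmk]
          exact key_tf hϖ hG hv
      exact h2 n v h1
  refine ⟨Module.finrank O (LaurentSeries O ⧸ S), Kr_iff.2 ⟨fun f hf hf0 => ?_, ?_⟩⟩
  · obtain ⟨a, ha⟩ := (Kr_iff.1 hR).1 _ hf (lmap_mem_Pl _ hf0)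
    refine ⟨f.coeff 0, lmap_injective hinj ?_⟩
    rw [lmap_algebraMap, ha]
    congr 1
    have h1 : (lmap (algebraMap O L) f).coeff 0 = a := by
      rw [ha, coeff_algebraMap, if_pos rfl]
    rw [← h1, lmap_coeff]
  · let b := Module.finBasis O (LaurentSeries O ⧸ S)
    refine ⟨b.equivFun.toLinearMap ∘ₗ S.mkQ, ?_, fun f => ?_⟩
    · exact b.equivFun.surjective.comp (Submodule.mkQ_surjective S)
    · rw [← hmk]
      exact b.equivFun.map_eq_zero_iff

end

end Pool.Agent.MG.G0.ZL
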