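import Pool.Agent.MG.G0.ZL.L5

/-!
# Integral elements of the algebraic closure of `L((τ))`
-/

namespace Pool.Agent.MG.G0.ZL

open Polynomial

section

variable {Q E : Type} [CommRing Q] [Field E] (φ : Q →+* E)

/-- The subring of the elements integral over the image of `φ`. -/
noncomputable def SS : Subring E :=
  letI := φ.toAlgebra
  (integralClosure Q E).toSubring

theorem mem_SS {y : E} : y ∈ SS φ ↔ φ.IsIntegralElem y := Iff.rfl

theorem SS_map (q : Q) : φ q ∈ SS φ := φ.isIntegralElem_map

theorem SS_pow {y : E} {m : ℕ} (hm : 0 < m) (h : y ^ m ∈ SS φ) : y ∈ SS φ := by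
  let _ := φ.toAlgebra
  exact IsIntegral.of_pow hm h

theorem SS_root {y : E} {p : E[X]} (hp : p.Monic) (hd : p.natDegree ≠ 0)
    (hc : ∀ i, p.coeff i ∈ SS φ) (h : p.eval y = 0) : y ∈ SS φ := by
  let _ := φ.toAlgebra
  refine IsIntegral.of_aeval_monic_of_isIntegral_coeff (p := p) hp hd ?_ ?_
  · rw [h]
    exact isIntegral_zero
  · intro i
    exact hc i

theorem SS_coeff {p : E[X]} (hp : p.Monic) (hs : p.Splits) (h : ∀ x, p.IsRoot x → x ∈ SS φ)
    (i : ℕ) : p.coeff i ∈ SS φ := by
  let _ := φ.toAlgebra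
  refine isIntegral_coeff_of_factors (R := Q) p ?_ hs h i
  rw [hp.leadingCoeff]
  exact isIntegral_one

end

section

variable {L : Type} [Field L] {d : ℕ} [NeZero d]

/-- The algebraic closure of `L((τ))`. -/
abbrev EL (L : Type) [Field L] : Type := AlgebraicClosure (LaurentSeries L)

/-- The embedding of `L((τ))`. -/
noncomputable def em (L : Type) [Field L] : LaurentSeries L →+* EL L :=
  algebraMap (LaurentSeries L) (EL L)

theorem em_injective : Function.Injective (em L) := (em L).injective

variable {O : Type} [CommRing O] [Algebra O L]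

/-- The polynomials in `z` with coefficients in `O`, in `L((τ))`. -/
noncomputable def phK (O L : Type) [CommRing O] [Field L] [Algebra O L] (d : ℕ) :
    O[X] →+* LaurentSeries L :=
  (ev d : L[X] →ₐ[L] LaurentSeries L).toRingHom.comp (mapRingHom (algebraMap O L))

theorem phK_apply (q : O[X]) : phK O L d q = ev d (q.map (algebraMap O L)) := rfl

/-- The polynomials in `z` with coefficients in `O`, in the algebraic closure of `L((τ))`. -/
noncomputable def phE (O L : Type) [CommRing O] [Field L] [Algebra O L] (d : ℕ) :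
    O[X] →+* EL L := (em L).comp (phK O L d)

theorem phE_apply (q : O[X]) : phE O L d q = em L (ev d (q.map (algebraMap O L))) := rfl

variable (O) in
/-- A polynomial with coefficients in `L` which is integral over `O[z]` has coefficients in
`O`. -/
theorem SS_poly [IsDomain O] [IsIntegrallyClosed O] [IsFractionRing O L] {q : L[X]}
    (h : em L (ev d q) ∈ SS (phE O L d)) : ∃ q' : O[X], q = q'.map (algebraMap O L) := by
  have h1 : (mapRingHom (algebraMap O L)).IsIntegralElem q := by
    obtain ⟨p, hp, hp'⟩ := h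
    refine ⟨p, hp, ?_⟩
    have h2 : em L (ev d (eval₂ (mapRingHom (algebraMap O L)) q p)) = 0 := by
      rw [← hp']
      have h3 := Polynomial.hom_eval₂ p (mapRingHom (algebraMap O L))
        ((em L).comp (ev d : L[X] →ₐ[L] LaurentSeries L).toRingHom) q
      exact h3
    have h3 : ev d (eval₂ (mapRingHom (algebraMap O L)) q p) = 0 :=
      em_injective (by rw [h2, map_zero])
    exact ev_injective (A := L) d (NeZero.ne d) (by rw [h3, map_zero])
  have h2 : ∀ i, IsIntegral O (q.coeff i) := by
    let _ := Polynomial.algebra O L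
    intro i
    exact IsIntegral.coeff (R := O) (S := L) (p := q) h1 i
  have h3 : q ∈ Polynomial.lifts (algebraMap O L) := by
    rw [Polynomial.lifts_iff_coeff_lifts]
    intro i
    exact IsIntegrallyClosed.isIntegral_iff.1 (h2 i)
  obtain ⟨q', hq'⟩ := (Polynomial.mem_lifts _).1 h3
  exact ⟨q', hq'.symm⟩

theorem aeval_cm_of_pr (y : LaurentSeries L) (p : (LaurentSeries L)[X])
    (hp : ∀ i, pr (0 : ZMod d) (p.coeff i) = p.coeff i) :
    aeval (cm d y) p = cm d (p.eval y) := by
  rw [aeval_eq_sum_range, eval_eq_sum_range, map_sum]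
  refine Finset.sum_congr rfl fun i _ => ?_
  rw [map_mul, map_pow, cm_of_pr (hp i), Algebra.smul_def]
  rfl

/-- The characteristic polynomial over the algebraic closure. -/
noncomputable def chE (d : ℕ) [NeZero d] (x : LaurentSeries L) : (EL L)[X] :=
  (cm d x).charpoly.map (em L)

theorem chE_monic (x : LaurentSeries L) : (chE d x).Monic :=
  (Matrix.charpoly_monic _).map _

theorem chE_natDegree (x : LaurentSeries L) : (chE d x).natDegree = d := by
  rw [chE, natDegree_map, Matrix.charpoly_natDegree_eq_dim, ZMod.card]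

theorem chE_eval (x : LaurentSeries L) : (chE d x).eval (em L x) = 0 := by
  rw [chE, eval_map, eval₂_at_apply, charpoly_cm_eval, map_zero]

theorem chE_coeff (x : LaurentSeries L) (i : ℕ) :
    (chE d x).coeff i = em L ((cm d x).charpoly.coeff i) := by
  rw [chE, coeff_map]

/-- The roots of the characteristic polynomial are conjugate to the element. -/
theorem root_mem {x : LaurentSeries L} {ρ : EL L} (hρ : ρ ≠ 0) {m : ℕ} (hm : 0 < m) {l : L}
    (hl : ρ ^ m = em L (algebraMap L (LaurentSeries L) l))
    (hx : ρ⁻¹ * em L x ∈ SS (phE O L d)) {lam : EL L} (hlam : (chE d x).IsRoot lam) :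
    ρ⁻¹ * lam ∈ SS (phE O L d) := by
  classical
  have hl0 : l ≠ 0 := by
    rintro rfl
    rw [map_zero, map_zero] at hl
    exact hρ (pow_eq_zero_iff hm.ne' |>.1 hl)
  have hal0 : (algebraMap L (LaurentSeries L) l) ≠ 0 := by
    intro h
    rw [h, map_zero] at hl
    exact hρ (pow_eq_zero_iff hm.ne' |>.1 hl)
  set y : LaurentSeries L := (algebraMap L (LaurentSeries L) l)⁻¹ * x ^ m with hy
  have hyE : em L y = (ρ⁻¹ * em L x) ^ m := by
    rw [hy, map_mul, map_pow, map_inv₀, ← hl, mul_pow, inv_pow]
  have hyS : em L y ∈ SS (phE O L d) := by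
    rw [hyE]
    exact pow_mem hx m
  obtain ⟨p, hp, hp'⟩ := hyS
  -- the equation in `L((τ))`
  set pK : (LaurentSeries L)[X] := p.map (phK O L d) with hpK
  have hpK0 : pK.eval y = 0 := by
    apply em_injective (L := L)
    rw [map_zero, hpK, eval_map, hom_eval₂]
    exact hp'
  have hpr : ∀ i, pr (0 : ZMod d) (pK.coeff i) = pK.coeff i := by
    intro i
    rw [hpK, coeff_map, phK_apply, pr_ev]
  have hcm : aeval (cm d y) pK = 0 := by
    rw [aeval_cm_of_pr y pK hpr, hpK0, map_zero]
  have hal : pr (0 : ZMod d) ((algebraMap L (LaurentSeries L) l)⁻¹) =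
      (algebraMap L (LaurentSeries L) l)⁻¹ := by
    rw [← map_inv₀, pr_algebraMap]
  have hcmy : cm d y = (algebraMap L (LaurentSeries L) l)⁻¹ • (cm d x) ^ m := by
    rw [hy, map_mul, map_pow, cm_of_pr hal, Algebra.smul_def]
    rfl
  -- matrices over the algebraic closure
  let M : Matrix (ZMod d) (ZMod d) (EL L) := (cm d x).map (em L)
  have hM : M.charpoly = chE d x := Matrix.charpoly_map (cm d x) (em L)
  let P : (EL L)[X] := (pK.map (em L)).comp (C (em L (algebraMap L (LaurentSeries L) l))⁻¹ * X ^ m)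
  have hPM : aeval M P = 0 := by
    have h1 : aeval M (C (em L (algebraMap L (LaurentSeries L) l))⁻¹ * X ^ m) =
        (cm d y).map (em L) := by
      rw [map_mul, aeval_C, map_pow, aeval_X, ← Algebra.smul_def, hcmy]
      have h2 : ((algebraMap L (LaurentSeries L) l)⁻¹ • (cm d x) ^ m).map (em L) =
          em L ((algebraMap L (LaurentSeries L) l)⁻¹) • ((cm d x) ^ m).map (em L) := by
        ext1 i j
        rw [Matrix.map_apply, Matrix.smul_apply, Matrix.smul_apply, Matrix.map_apply,
          smul_eq_mul, smul_eq_mul, map_mul]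
      rw [h2, map_inv₀]
      congr 1
      exact (map_pow (em L).mapMatrix (cm d x) m).symm
    show aeval M ((pK.map (em L)).comp _) = 0
    rw [aeval_comp, h1]
    have h3 : aeval ((cm d y).map (em L)) (pK.map (em L)) = (aeval (cm d y) pK).map (em L) := by
      rw [aeval_eq_sum_range, aeval_eq_sum_range, natDegree_map]
      have h4 : ((∑ i ∈ Finset.range (pK.natDegree + 1), pK.coeff i • cm d y ^ i).map (em L)) =
          ∑ i ∈ Finset.range (pK.natDegree + 1), (pK.coeff i • cm d y ^ i).map (em L) :=
        map_sum (em L).mapMatrix _ _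
      rw [h4]
      refine Finset.sum_congr rfl fun i _ => ?_
      have h5 : (pK.coeff i • cm d y ^ i).map (em L) =
          em L (pK.coeff i) • (cm d y ^ i).map (em L) := by
        ext1 a b
        rw [Matrix.map_apply, Matrix.smul_apply, Matrix.smul_apply, Matrix.map_apply,
          smul_eq_mul, smul_eq_mul, map_mul]
      rw [h5, coeff_map]
      congr 1
      exact (map_pow (em L).mapMatrix (cm d y) i).symm
    rw [h3, hcm]
    exact Matrix.map_zero _ (map_zero _)
  have hsp : lam ∈ spectrum (EL L) M := by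
    apply Matrix.mem_spectrum_of_isRoot_charpoly
    rw [hM]
    exact hlam
  have hsp2 : P.eval lam ∈ spectrum (EL L) (aeval M P) :=
    spectrum.subset_polynomial_aeval M P ⟨lam, hsp, rfl⟩
  rw [hPM, spectrum.zero_eq, Set.mem_singleton_iff] at hsp2
  have hev : (pK.map (em L)).eval ((ρ⁻¹ * lam) ^ m) = 0 := by
    have h1 : P.eval lam = (pK.map (em L)).eval
        ((em L (algebraMap L (LaurentSeries L) l))⁻¹ * lam ^ m) := by
      show ((pK.map (em L)).comp _).eval lam = _
      rw [eval_comp, eval_mul, eval_C, eval_pow, eval_X]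
    rw [h1, ← hl, ← inv_pow, ← mul_pow] at hsp2
    exact hsp2
  refine SS_pow _ hm ⟨p, hp, ?_⟩
  have h1 := hev
  rw [hpK, map_map, eval_map] at h1
  exact h1

/-- Integrality in terms of the characteristic polynomial. -/
theorem coeff_of_mem {x : LaurentSeries L} {ρ : EL L} (hρ : ρ ≠ 0) {m : ℕ} (hm : 0 < m) {l : L}
    (hl : ρ ^ m = em L (algebraMap L (LaurentSeries L) l))
    (hx : ρ⁻¹ * em L x ∈ SS (phE O L d)) (i : ℕ) :
    em L ((cm d x).charpoly.coeff i) * ρ⁻¹ ^ (d - i) ∈ SS (phE O L d) := by
  have h1 : ((chE d x).scaleRoots ρ⁻¹).coeff i ∈ SS (phE O L d) := by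
    refine SS_coeff _ ?_ (IsAlgClosed.splits _) ?_ i
    · rw [monic_scaleRoots_iff]
      exact chE_monic x
    · intro r hr
      have h2 : (chE d x).IsRoot (ρ * r) := by
        have h3 := scaleRoots_eval_mul (chE d x) (ρ * r) ρ⁻¹
        rw [← mul_assoc, inv_mul_cancel₀ hρ, one_mul] at h3
        have h4 : ((chE d x).scaleRoots ρ⁻¹).eval r = 0 := hr
        rw [h4] at h3
        have h5 : ρ⁻¹ ^ (chE d x).natDegree ≠ 0 := pow_ne_zero _ (inv_ne_zero hρ)
        exact (mul_eq_zero.1 h3.symm).resolve_left h5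
      have h3 := root_mem (O := O) hρ hm hl hx h2
      rwa [← mul_assoc, inv_mul_cancel₀ hρ, one_mul] at h3
  rw [coeff_scaleRoots, chE_coeff, chE_natDegree] at h1
  exact h1

theorem mem_of_coeff {x : LaurentSeries L} {ρ : EL L}
    (h : ∀ i < d, em L ((cm d x).charpoly.coeff i) * ρ⁻¹ ^ (d - i) ∈ SS (phE O L d)) :
    ρ⁻¹ * em L x ∈ SS (phE O L d) := by
  refine SS_root (phE O L d) (p := (chE d x).scaleRoots ρ⁻¹) ?_ ?_ ?_ ?_
  · rw [monic_scaleRoots_iff]
    exact chE_monic x
  · rw [natDegree_scaleRoots, chE_natDegree]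
    exact NeZero.ne d
  · intro i
    rw [coeff_scaleRoots, chE_coeff, chE_natDegree]
    rcases lt_trichotomy i d with h1 | h1 | h1
    · exact h i h1
    · subst h1
      have h2 : (cm i x).charpoly.coeff i = 1 := by
        have h3 := Matrix.charpoly_monic (cm i x)
        rw [Monic, leadingCoeff, Matrix.charpoly_natDegree_eq_dim, ZMod.card] at h3
        exact h3
      rw [h2, map_one, Nat.sub_self, pow_zero, one_mul]
      exact one_mem _
    · rw [coeff_eq_zero_of_natDegree_lt, map_zero, zero_mul]
      · exact zero_mem _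
      · rw [Matrix.charpoly_natDegree_eq_dim, ZMod.card]
        exact h1
  · rw [scaleRoots_eval_mul, chE_eval, mul_zero]

end

end Pool.Agent.MG.G0.ZL
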