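import Pool.Agent.MG.G0.ZL.L6

/-!
# The filtration by the powers of a root of the uniformizer
-/

namespace Pool.Agent.MG.G0.ZL

open Polynomial

section

variable {O L : Type} [CommRing O] [IsDomain O] [IsDiscreteValuationRing O] [Field L]
  [Algebra O L] [IsFractionRing O L] {d : ℕ} [NeZero d]

/-- Constants of `L` in the algebraic closure of `L((τ))`. -/
noncomputable def ec (L : Type) [Field L] : L →+* EL L :=
  (em L).comp (algebraMap L (LaurentSeries L))

theorem ec_apply (l : L) : ec L l = em L (algebraMap L (LaurentSeries L) l) := rfl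

theorem ec_eq_ev (d : ℕ) (l : L) : ec L l = em L (ev d (C l)) := by
  rw [ev_C]
  rfl

/-- `w` is an `N`-th root of the uniformizer `ϖ`. -/
structure Rt (ϖ : O) (N : ℕ) (w : EL L) : Prop where
  pos : 0 < N
  irr : Irreducible ϖ
  pow : w ^ N = ec L (algebraMap O L ϖ)

/-- The elements `w ^ b y` with `y` integral. -/
def FF (O : Type) [CommRing O] {L : Type} [Field L] [Algebra O L] (d : ℕ) (w : EL L) (b : ℤ)
    (y : EL L) : Prop := w ^ (-b) * y ∈ SS (phE O L d)

variable {ϖ : O} {N : ℕ} {w : EL L}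

theorem Rt.pi_ne (h : Rt (L := L) ϖ N w) : algebraMap O L ϖ ≠ 0 := by
  rw [Ne, IsFractionRing.to_map_eq_zero_iff (K := L)]
  exact h.irr.ne_zero

theorem Rt.ne (h : Rt ϖ N w) : w ≠ 0 := by
  rintro rfl
  have h1 := h.pow
  rw [zero_pow h.pos.ne'] at h1
  exact h.pi_ne ((map_eq_zero (ec L)).1 h1.symm)

theorem Rt.mem (h : Rt ϖ N w) : w ∈ SS (phE O L d) := by
  refine SS_pow _ h.pos ?_
  rw [h.pow]
  have h1 : ec L (algebraMap O L ϖ) = phE O L d (C ϖ) := by
    rw [phE_apply, map_C, ev_C]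
    rfl
  rw [h1]
  exact SS_map _ _

omit [IsDomain O] [IsDiscreteValuationRing O] [IsFractionRing O L] in
theorem FF_zero_iff {y : EL L} : FF O d w 0 y ↔ y ∈ SS (phE O L d) := by
  rw [FF, neg_zero, zpow_zero, one_mul]

omit [IsDomain O] [IsDiscreteValuationRing O] [IsFractionRing O L] in
theorem FF_add {b : ℤ} {x y : EL L} (hx : FF O d w b x) (hy : FF O d w b y) :
    FF O d w b (x + y) := by
  rw [FF, mul_add]
  exact add_mem hx hy

omit [IsDomain O] [IsDiscreteValuationRing O] [IsFractionRing O L] in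
theorem FF_neg {b : ℤ} {x : EL L} (hx : FF O d w b x) : FF O d w b (-x) := by
  rw [FF, mul_neg]
  exact neg_mem hx

omit [IsDomain O] [IsDiscreteValuationRing O] [IsFractionRing O L] in
theorem FF_sub {b : ℤ} {x y : EL L} (hx : FF O d w b x) (hy : FF O d w b y) :
    FF O d w b (x - y) := by
  rw [FF, mul_sub]
  exact sub_mem hx hy

omit [IsDomain O] [IsDiscreteValuationRing O] [IsFractionRing O L] in
theorem FF_zero {b : ℤ} : FF O d w b (0 : EL L) := by
  rw [FF, mul_zero]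
  exact zero_mem _

omit [IsDomain O] [IsDiscreteValuationRing O] [IsFractionRing O L] in
theorem FF_sum {ι : Type} (s : Finset ι) {b : ℤ} (f : ι → EL L) (h : ∀ i ∈ s, FF O d w b (f i)) :
    FF O d w b (∑ i ∈ s, f i) := by
  rw [FF, Finset.mul_sum]
  exact sum_mem h

theorem FF_mul (h : Rt ϖ N w) {b c : ℤ} {x y : EL L} (hx : FF O d w b x)
    (hy : FF O d w c y) : FF O d w (b + c) (x * y) := by
  have h1 : w ^ (-(b + c)) * (x * y) = (w ^ (-b) * x) * (w ^ (-c) * y) := by
    rw [neg_add, zpow_add₀ h.ne]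
    ring
  rw [FF, h1]
  exact mul_mem hx hy

theorem FF_mono (h : Rt ϖ N w) {b c : ℤ} (hbc : b ≤ c) {x : EL L} (hx : FF O d w c x) :
    FF O d w b x := by
  obtain ⟨n, hn⟩ := Int.eq_ofNat_of_zero_le (sub_nonneg.2 hbc)
  have h1 : w ^ (-b) * x = w ^ n * (w ^ (-c) * x) := by
    rw [← mul_assoc, ← zpow_natCast, ← hn, ← zpow_add₀ h.ne]
    congr 2
    ring
  rw [FF, h1]
  exact mul_mem (pow_mem h.mem n) hx

theorem FF_pow (h : Rt ϖ N w) {b : ℤ} {x : EL L} (hx : FF O d w b x) (m : ℕ) :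
    FF O d w (b * m) (x ^ m) := by
  have h1 : w ^ (-(b * m)) * x ^ m = (w ^ (-b) * x) ^ m := by
    have h2 : -(b * (m : ℤ)) = -b * m := by ring
    rw [mul_pow, h2, zpow_mul, zpow_natCast]
  rw [FF, h1]
  exact pow_mem hx m

omit [IsDomain O] [IsDiscreteValuationRing O] [IsFractionRing O L] in
theorem FF_O (q : O[X]) : FF O d w 0 (phE O L d q) := by
  rw [FF_zero_iff]
  exact SS_map _ _

theorem FF_pi (h : Rt ϖ N w) (a : ℤ) : FF O d w (N * a) (ec L (algebraMap O L ϖ ^ a)) := by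
  rw [FF, map_zpow₀, ← h.pow, ← zpow_natCast, ← zpow_mul, ← zpow_add₀ h.ne, neg_add_cancel,
    zpow_zero]
  exact one_mem _

theorem FF_pi_mul (h : Rt ϖ N w) (a : ℤ) {b : ℤ} {y : EL L} :
    FF O d w (b + N * a) (ec L (algebraMap O L ϖ ^ a) * y) ↔ FF O d w b y := by
  have h1 : w ^ (-(b + N * a)) * (ec L (algebraMap O L ϖ ^ a) * y) = w ^ (-b) * y := by
    rw [map_zpow₀, ← h.pow, ← zpow_natCast w N, ← zpow_mul, ← mul_assoc, ← zpow_add₀ h.ne]
    congr 2
    ring
  rw [FF, FF, h1]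

/-! ### The Gauss valuation -/

omit [Field L] [Algebra O L] [IsFractionRing O L] in
theorem map_residue_eq_zero (hϖ : Irreducible ϖ) {q : O[X]} :
    q.map (IsLocalRing.residue O) = 0 ↔ C ϖ ∣ q := by
  rw [C_dvd_iff_dvd_coeff, Polynomial.ext_iff]
  refine forall_congr' fun i => ?_
  rw [coeff_map, coeff_zero, IsLocalRing.residue_eq_zero_iff, hϖ.maximalIdeal_eq,
    Ideal.mem_span_singleton]

theorem exists_val (hϖ : Irreducible ϖ) {q : L[X]} (hq : q ≠ 0) :
    ∃ (v : ℤ) (q0 : O[X]), q = C (algebraMap O L ϖ ^ v) * q0.map (algebraMap O L) ∧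
      q0.map (IsLocalRing.residue O) ≠ 0 := by
  have hπ : algebraMap O L ϖ ≠ 0 := by
    rw [Ne, IsFractionRing.to_map_eq_zero_iff (K := L)]
    exact hϖ.ne_zero
  -- clearing denominators
  obtain ⟨c, hc⟩ := IsLocalization.integerNormalization_map_to_map (nonZeroDivisors O) q
  set q1 := IsLocalization.integerNormalization (nonZeroDivisors O) q with hq1
  have hc0 : (c : O) ≠ 0 := nonZeroDivisors.ne_zero c.2
  have hcL : algebraMap O L (c : O) ≠ 0 := by
    rw [Ne, IsFractionRing.to_map_eq_zero_iff (K := L)]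
    exact hc0
  have hq1' : q1.map (algebraMap O L) = C (algebraMap O L c) * q := by
    rw [hc, ← Polynomial.smul_eq_C_mul, algebraMap_smul]
  have hq10 : q1 ≠ 0 := by
    intro h
    rw [h, Polynomial.map_zero] at hq1'
    rcases mul_eq_zero.1 hq1'.symm with h1 | h1
    · exact hcL (C_eq_zero.1 h1)
    · exact hq h1
  obtain ⟨n, u, hu⟩ := IsDiscreteValuationRing.eq_unit_mul_pow_irreducible hc0 hϖ
  have hirr : Irreducible (C ϖ : O[X]) := by
    have : Prime ϖ := hϖ.prime
    exact (Polynomial.prime_C_iff.2 this).irreducible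
  obtain ⟨m, q2, hq2, hq2'⟩ := WfDvdMonoid.max_power_factor hq10 hirr
  refine ⟨(m : ℤ) - n, C ((u⁻¹ : Oˣ) : O) * q2, ?_, ?_⟩
  · have h1 : q = C ((algebraMap O L c)⁻¹) * q1.map (algebraMap O L) := by
      rw [hq1', ← mul_assoc, ← C_mul, inv_mul_cancel₀ hcL, C_1, one_mul]
    have h2 : algebraMap O L ((u⁻¹ : Oˣ) : O) = (algebraMap O L (u : O))⁻¹ := by
      apply eq_inv_of_mul_eq_one_left
      rw [← map_mul, Units.inv_mul, map_one]
    rw [h1, hq2', Polynomial.map_mul, Polynomial.map_pow, map_C, Polynomial.map_mul, map_C,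
      ← mul_assoc, ← mul_assoc, ← C_pow, ← C_mul, ← C_mul]
    congr 2
    rw [h2, hu, map_mul, map_pow, zpow_sub₀ hπ, zpow_natCast, zpow_natCast, mul_inv]
    ring
  · rw [Polynomial.map_mul, map_C]
    refine mul_ne_zero ?_ ?_
    · rw [Ne, C_eq_zero]
      exact ((Units.isUnit u⁻¹).map (IsLocalRing.residue O)).ne_zero
    · rw [Ne, map_residue_eq_zero hϖ]
      exact hq2

theorem FF_iff (h : Rt ϖ N w) {q : L[X]} {v : ℤ} {q0 : O[X]}
    (hq : q = C (algebraMap O L ϖ ^ v) * q0.map (algebraMap O L))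
    (h0 : q0.map (IsLocalRing.residue O) ≠ 0) {b : ℤ} :
    FF O d w b (em L (ev d q)) ↔ b ≤ N * v := by
  have h1 : em L (ev d q) = ec L (algebraMap O L ϖ ^ v) * phE O L d q0 := by
    rw [hq, map_mul, map_mul, ← ec_eq_ev, phE_apply]
  constructor
  · intro hb
    by_contra hcon
    push Not at hcon
    have h2 : FF O d w (1 + N * v) (em L (ev d q)) := FF_mono h (by omega) hb
    rw [h1, FF_pi_mul h] at h2
    have h3 : (w ^ (-1 : ℤ) * phE O L d q0) ^ N ∈ SS (phE O L d) := pow_mem h2 N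
    have h4 : (w ^ (-1 : ℤ) * phE O L d q0) ^ N =
        em L (ev d (C (algebraMap O L ϖ)⁻¹ * (q0 ^ N).map (algebraMap O L))) := by
      rw [mul_pow, ← map_pow, map_mul, map_mul, ← ec_eq_ev, phE_apply, zpow_neg_one, inv_pow,
        h.pow, map_inv₀]
    rw [h4] at h3
    obtain ⟨q', hq'⟩ := SS_poly O h3
    have h5 : (q0 ^ N).map (algebraMap O L) = (C ϖ * q').map (algebraMap O L) := by
      rw [Polynomial.map_mul, ← hq', map_C, ← mul_assoc, ← C_mul, mul_inv_cancel₀ h.pi_ne, C_1,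
        one_mul]
    have h6 : q0 ^ N = C ϖ * q' :=
      Polynomial.map_injective _ (IsFractionRing.injective O L) h5
    have h7 : (q0 ^ N).map (IsLocalRing.residue O) = 0 := by
      rw [map_residue_eq_zero h.irr]
      exact ⟨q', h6⟩
    rw [Polynomial.map_pow] at h7
    exact h0 (pow_eq_zero_iff h.pos.ne' |>.1 h7)
  · intro hb
    refine FF_mono h hb ?_
    have h2 := (FF_pi_mul (d := d) h v (b := 0) (y := phE O L d q0)).2 (FF_O q0)
    rw [zero_add] at h2
    rw [h1]
    exact h2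

/-- The valuation takes values divisible by `N`. -/
theorem FF_succ (h : Rt ϖ N w) (q : L[X]) {b : ℤ} (hb : ¬ (N : ℤ) ∣ b)
    (hq : FF O d w b (em L (ev d q))) : FF O d w (b + 1) (em L (ev d q)) := by
  by_cases h0 : q = 0
  · rw [h0, map_zero, map_zero]
    exact FF_zero
  · obtain ⟨v, q0, h1, h2⟩ := exists_val (L := L) h.irr h0
    rw [FF_iff h h1 h2] at hq ⊢
    have h3 : b ≠ N * v := by
      rintro rfl
      exact hb (dvd_mul_right _ _)
    omega

theorem FF_mul_succ (h : Rt ϖ N w) (q : L[X]) {b : ℤ} {k : ℕ} (hk : 0 < k) (hkN : k ∣ N)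
    (hq : FF O d w (k * b + 1) (em L (ev d q))) : FF O d w (k * (b + 1)) (em L (ev d q)) := by
  by_cases h0 : q = 0
  · rw [h0, map_zero, map_zero]
    exact FF_zero
  · obtain ⟨v, q0, h1, h2⟩ := exists_val (L := L) h.irr h0
    rw [FF_iff h h1 h2] at hq ⊢
    obtain ⟨N', hN'⟩ := hkN
    rw [hN'] at hq ⊢
    push_cast at hq ⊢
    have hk' : (0 : ℤ) < k := by exact_mod_cast hk
    have h3 : (k : ℤ) * b < k * (N' * v) := by
      rw [← mul_assoc]
      omega
    have h4 : b < N' * v := lt_of_mul_lt_mul_left h3 hk'.le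
    have h5 : b + 1 ≤ N' * v := h4
    calc (k : ℤ) * (b + 1) ≤ k * (N' * v) := mul_le_mul_of_nonneg_left h5 hk'.le
      _ = k * N' * v := by ring

/-- Gauss's lemma for a factor with coefficients in `O` which does not vanish modulo `ϖ`. -/
theorem FF_gauss (h : Rt ϖ N w) (Ψ : O[X]) (hΨ : Ψ.map (IsLocalRing.residue O) ≠ 0) (q : L[X])
    {b : ℤ} (hq : FF O d w b (phE O L d Ψ * em L (ev d q))) : FF O d w b (em L (ev d q)) := by
  by_cases h0 : q = 0
  · rw [h0, map_zero, map_zero]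
    exact FF_zero
  · obtain ⟨v, q0, h1, h2⟩ := exists_val (L := L) h.irr h0
    have h3 : Ψ.map (algebraMap O L) * q =
        C (algebraMap O L ϖ ^ v) * (Ψ * q0).map (algebraMap O L) := by
      rw [h1, Polynomial.map_mul]
      ring
    have h4 : (Ψ * q0).map (IsLocalRing.residue O) ≠ 0 := by
      rw [Polynomial.map_mul]
      exact mul_ne_zero hΨ h2
    have h5 : phE O L d Ψ * em L (ev d q) = em L (ev d (Ψ.map (algebraMap O L) * q)) := by
      rw [map_mul, map_mul, phE_apply]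
    rw [h5, FF_iff h h3 h4] at hq
    rw [FF_iff h h1 h2]
    exact hq

theorem FF_coeff (h : Rt ϖ N w) (q : L[X]) {b : ℤ} (hq : FF O d w b (em L (ev d q))) (k : ℕ) :
    FF O d w b (ec L (q.coeff k)) := by
  by_cases h0 : q = 0
  · rw [h0, coeff_zero, map_zero]
    exact FF_zero
  · obtain ⟨v, q0, h1, h2⟩ := exists_val (L := L) h.irr h0
    rw [FF_iff h h1 h2] at hq
    refine FF_mono h hq ?_
    have h3 := (FF_pi_mul (d := d) h v (b := 0) (y := phE O L d (C (q0.coeff k)))).2 (FF_O _)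
    rw [zero_add] at h3
    have h4 : ec L (q.coeff k) = ec L (algebraMap O L ϖ ^ v) * phE O L d (C (q0.coeff k)) := by
      rw [h1, coeff_C_mul, coeff_map, map_mul, phE_apply, map_C, ← ec_eq_ev]
    rw [h4]
    exact h3

/-- A polynomial with coefficients in `O` which vanishes modulo `ϖ`. -/
theorem FF_of_residue (h : Rt ϖ N w) (q : O[X]) (hq : q.map (IsLocalRing.residue O) = 0) :
    FF O d w N (phE O L d q) := by
  obtain ⟨q', rfl⟩ := (map_residue_eq_zero h.irr).1 hq
  have h1 := (FF_pi_mul (d := d) h 1 (b := 0) (y := phE O L d q')).2 (FF_O _)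
  rw [zero_add, mul_one, zpow_one] at h1
  have h2 : phE O L d (C ϖ * q') = ec L (algebraMap O L ϖ) * phE O L d q' := by
    rw [map_mul, phE_apply, map_C, ← ec_eq_ev]
  rw [h2]
  exact h1

/-- An element of `L` in terms of the valuation. -/
theorem FF_ec_iff (h : Rt ϖ N w) {l : L} {v : ℤ} {c : O}
    (hl : l = algebraMap O L ϖ ^ v * algebraMap O L c) (hc : IsUnit c) {b : ℤ} :
    FF O d w b (ec L l) ↔ b ≤ N * v := by
  rw [ec_eq_ev d]
  refine FF_iff h (q0 := C c) ?_ ?_
  · rw [hl, map_C, C_mul]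
  · rw [map_C, Ne, C_eq_zero]
    exact (hc.map (IsLocalRing.residue O)).ne_zero

theorem exists_val_L (hϖ : Irreducible ϖ) {l : L} (hl : l ≠ 0) :
    ∃ (v : ℤ) (c : O), IsUnit c ∧ l = algebraMap O L ϖ ^ v * algebraMap O L c := by
  obtain ⟨v, q0, h1, h2⟩ := exists_val (O := O) (L := L) hϖ (q := C l) (C_ne_zero.2 hl)
  have h3 : q0.map (algebraMap O L) = C (algebraMap O L (q0.coeff 0)) := by
    have hπ : algebraMap O L ϖ ≠ 0 := by
      rw [Ne, IsFractionRing.to_map_eq_zero_iff (K := L)]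
      exact hϖ.ne_zero
    have h4 : q0.map (algebraMap O L) = C ((algebraMap O L ϖ ^ v)⁻¹ * l) := by
      rw [C_mul, h1, ← mul_assoc, ← C_mul, inv_mul_cancel₀ (zpow_ne_zero _ hπ), C_1, one_mul]
    have h5 : (q0.map (algebraMap O L)).coeff 0 = (algebraMap O L ϖ ^ v)⁻¹ * l := by
      rw [h4, coeff_C_zero]
    rw [coeff_map] at h5
    rw [h4, h5]
  have h4 : q0 = C (q0.coeff 0) := by
    apply Polynomial.map_injective _ (IsFractionRing.injective O L)
    rw [h3, map_C]
  refine ⟨v, q0.coeff 0, ?_, ?_⟩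
  · rw [h4, map_C, Ne, C_eq_zero, IsLocalRing.residue_eq_zero_iff, IsLocalRing.mem_maximalIdeal,
      mem_nonunits_iff, not_not] at h2
    exact h2
  · rw [h3, ← C_mul] at h1
    exact C_injective h1

end

end Pool.Agent.MG.G0.ZL
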