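import Mathlib

/-!
# Newton's identities for the characteristic polynomial
-/

namespace Pool.Agent.MG.G0.ZL

open Polynomial

section

variable {R : Type} [CommRing R] {n : Type} [Fintype n] [DecidableEq n]

theorem derivative_det (N : Matrix n n R[X]) :
    derivative N.det = ∑ i, (N.updateCol i fun k => derivative (N k i)).det := by
  classical
  simp only [Matrix.det_apply, derivative_sum]
  rw [Finset.sum_comm]
  refine Finset.sum_congr rfl fun σ _ => ?_
  have h1 : derivative (Equiv.Perm.sign σ • ∏ i, N (σ i) i) =
      Equiv.Perm.sign σ • derivative (∏ i, N (σ i) i) := by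
    rcases Int.units_eq_one_or (Equiv.Perm.sign σ) with h | h
    · rw [h, one_smul, one_smul]
    · rw [h, Units.neg_smul, one_smul, Units.neg_smul, one_smul, derivative_neg]
  rw [h1, derivative_prod_finset, Finset.smul_sum]
  refine Finset.sum_congr rfl fun i _ => ?_
  congr 1
  rw [← Finset.mul_prod_erase Finset.univ _ (Finset.mem_univ i), Matrix.updateCol_self, mul_comm]
  congr 1
  refine Finset.prod_congr rfl fun j hj => ?_
  rw [Matrix.updateCol_ne (Finset.ne_of_mem_erase hj)]

theorem derivative_charpoly (M : Matrix n n R) :
    derivative M.charpoly = (Matrix.charmatrix M).adjugate.trace := by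
  rw [Matrix.charpoly, derivative_det, Matrix.trace]
  refine Finset.sum_congr rfl fun i _ => ?_
  rw [Matrix.diag_apply]
  have h1 : (fun k => derivative (Matrix.charmatrix M k i)) = Pi.single i 1 := by
    funext k
    by_cases h : k = i
    · subst h
      rw [Matrix.charmatrix_apply_eq, Pi.single_eq_same]
      simp
    · rw [Matrix.charmatrix_apply_ne _ _ _ h, Pi.single_eq_of_ne h]
      simp
  rw [h1]
  have h2 : (Matrix.charmatrix M).adjugate i i =
      ((Matrix.charmatrix M).transpose.adjugate.transpose) i i := by
    rw [← Matrix.adjugate_transpose, Matrix.transpose_transpose]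
  rw [h2, Matrix.transpose_apply, Matrix.adjugate_def, Matrix.of_apply,
    Matrix.transpose_transpose, Matrix.cramer_apply]

/-- Newton's identities. -/
theorem newton (M : Matrix n n R) (l : ℕ) :
    ∑ i ∈ Finset.Icc l (Fintype.card n), M.charpoly.coeff i * (M ^ (i - l)).trace =
      (l : R) * M.charpoly.coeff l := by
  classical
  nontriviality R
  set χ := M.charpoly with hχ
  have hdeg : χ.natDegree = Fintype.card n := Matrix.charpoly_natDegree_eq_dim M
  have hzero : ∀ i, Fintype.card n < i → χ.coeff i = 0 := fun i hi =>
    coeff_eq_zero_of_natDegree_lt (by rw [hdeg]; exact hi)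
  rcases Nat.eq_zero_or_pos l with hl | hl
  · subst hl
    have h1 := Matrix.aeval_self_charpoly M
    have h2 := congrArg Matrix.trace h1
    rw [← hχ, aeval_eq_sum_range, hdeg, Matrix.trace_sum, Matrix.trace_zero] at h2
    rw [Nat.cast_zero, zero_mul, ← h2, Finset.range_eq_Ico]
    refine Finset.sum_congr ?_ fun i _ => ?_
    · ext i
      simp only [Finset.mem_Icc, Finset.mem_Ico]
      omega
    · rw [Matrix.trace_smul, smul_eq_mul, Nat.sub_zero]
  · let Bm : ℕ → Matrix n n R := fun j =>
      Matrix.of fun a c => ((Matrix.charmatrix M).adjugate a c).coeff j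
    have hB : ∀ j, Bm j = M * Bm (j + 1) + χ.coeff (j + 1) • (1 : Matrix n n R) := by
      intro j
      ext1 a c
      have h1 := congrFun (congrFun (Matrix.mul_adjugate (Matrix.charmatrix M)) a) c
      rw [Matrix.mul_apply] at h1
      have h2 := congrArg (fun p : R[X] => p.coeff (j + 1)) h1
      simp only [finsetSum_coeff] at h2
      have h3 : ∀ b, ((Matrix.charmatrix M) a b * (Matrix.charmatrix M).adjugate b c).coeff
          (j + 1) = (if b = a then Bm j a c else 0) - M a b * Bm (j + 1) b c := by
        intro b
        by_cases hb : b = a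
        · subst hb
          rw [Matrix.charmatrix_apply_eq, sub_mul, coeff_sub, coeff_X_mul, coeff_C_mul,
            if_pos rfl]
          rfl
        · rw [Matrix.charmatrix_apply_ne _ _ _ (Ne.symm hb), neg_mul, coeff_neg, coeff_C_mul,
            if_neg hb, zero_sub]
          rfl
      rw [Finset.sum_congr rfl fun b _ => h3 b, Finset.sum_sub_distrib, Finset.sum_ite_eq',
        if_pos (Finset.mem_univ a)] at h2
      rw [Matrix.add_apply, Matrix.mul_apply, sub_eq_iff_eq_add.1 h2, add_comm]
      congr 1
      rw [Matrix.smul_apply, Matrix.smul_apply, Matrix.one_apply, Matrix.one_apply,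
        smul_eq_mul, smul_eq_mul]
      by_cases hac : a = c
      · rw [if_pos hac, if_pos hac, mul_one, mul_one]
        rfl
      · rw [if_neg hac, if_neg hac, mul_zero, mul_zero, coeff_zero]
    -- the coefficients vanish for large `j`
    obtain ⟨J, hJ⟩ : ∃ J : ℕ, ∀ j, J ≤ j → Bm j = 0 := by
      refine ⟨(Finset.univ.sup fun a => Finset.univ.sup fun c =>
        ((Matrix.charmatrix M).adjugate a c).natDegree) + 1, fun j hj => ?_⟩
      ext1 a c
      show ((Matrix.charmatrix M).adjugate a c).coeff j = 0
      apply coeff_eq_zero_of_natDegree_lt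
      have h1 : ((Matrix.charmatrix M).adjugate a c).natDegree ≤
          Finset.univ.sup fun c => ((Matrix.charmatrix M).adjugate a c).natDegree :=
        Finset.le_sup (f := fun c => ((Matrix.charmatrix M).adjugate a c).natDegree)
          (Finset.mem_univ c)
      have h2 : (Finset.univ.sup fun c => ((Matrix.charmatrix M).adjugate a c).natDegree) ≤
          Finset.univ.sup fun a => Finset.univ.sup fun c =>
            ((Matrix.charmatrix M).adjugate a c).natDegree :=
        Finset.le_sup (f := fun a => Finset.univ.sup fun c =>
          ((Matrix.charmatrix M).adjugate a c).natDegree) (Finset.mem_univ a)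
      omega
    have hsum : ∀ m j, J ≤ j + m → Bm j =
        ∑ i ∈ Finset.range m, χ.coeff (j + 1 + i) • M ^ i := by
      intro m
      induction m with
      | zero =>
        intro j hj
        rw [hJ j hj, Finset.range_zero, Finset.sum_empty]
      | succ m ih =>
        intro j hj
        rw [hB j, ih (j + 1) (by omega), Finset.sum_range_succ', add_zero, pow_zero,
          Matrix.mul_sum]
        congr 1
        refine Finset.sum_congr rfl fun i _ => ?_
        rw [Matrix.mul_smul, ← pow_succ']
        congr 2
        omega
    obtain ⟨j, rfl⟩ : ∃ j, l = j + 1 := ⟨l - 1, by omega⟩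
    have h1 : (derivative χ).coeff j = (Bm j).trace := by
      rw [hχ, derivative_charpoly, Matrix.trace, finsetSum_coeff]
      rfl
    rw [coeff_derivative] at h1
    have h2 : (Bm j).trace = ∑ i ∈ Finset.range (J + Fintype.card n),
        χ.coeff (j + 1 + i) * (M ^ i).trace := by
      rw [hsum (J + Fintype.card n) j (by omega), Matrix.trace_sum]
      refine Finset.sum_congr rfl fun i _ => ?_
      rw [Matrix.trace_smul, smul_eq_mul]
    push_cast
    rw [mul_comm, h1, h2]
    have h3 : ∑ i ∈ Finset.range (J + Fintype.card n), χ.coeff (j + 1 + i) * (M ^ i).trace =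
        ∑ i ∈ Finset.Ico (j + 1) (j + 1 + (J + Fintype.card n)),
          χ.coeff i * (M ^ (i - (j + 1))).trace := by
      rw [Finset.sum_Ico_eq_sum_range, Nat.add_sub_cancel_left]
      refine Finset.sum_congr rfl fun i _ => ?_
      rw [Nat.add_sub_cancel_left]
    rw [h3]
    refine Finset.sum_subset ?_ ?_
    · intro i hi
      simp only [Finset.mem_Icc, Finset.mem_Ico] at hi ⊢
      omega
    · intro i hi hi'
      simp only [Finset.mem_Icc, Finset.mem_Ico] at hi hi'
      rw [hzero i (by omega), zero_mul]

end

end Pool.Agent.MG.G0.ZL
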