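import Pool.Agent.MG.G0.ZL.L7
import Pool.Agent.MG.G0.ZL.NW

/-!
# The filtration on a Krichever ring; traces of powers
-/

namespace Pool.Agent.MG.G0.ZL

open Polynomial

section

variable {O L : Type} [CommRing O] [IsDomain O] [IsDiscreteValuationRing O] [Field L]
  [Algebra O L] [IsFractionRing O L] {d : ℕ} [NeZero d] {ϖ : O} {N : ℕ} {w : EL L}

/-- Division by an integer which is a unit. -/
theorem FF_div (h : Rt ϖ N w) {k : ℕ} (hk : IsUnit (k : O)) {b : ℤ} {y : EL L}
    (hy : FF O d w b ((k : EL L) * y)) : FF O d w b y := by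
  obtain ⟨u, hu⟩ := hk
  have h1 : y = phE O L d (C ((u⁻¹ : Oˣ) : O)) * ((k : EL L) * y) := by
    have h2 : phE O L d (C ((u⁻¹ : Oˣ) : O)) * (k : EL L) = 1 := by
      have h3 : (k : EL L) = phE O L d (C (k : O)) := by
        rw [map_natCast, map_natCast]
      rw [h3, ← map_mul, ← C_mul, ← hu, Units.inv_mul, C_1, map_one]
    rw [← mul_assoc, h2, one_mul]
  rw [h1]
  have h4 := FF_mul h (FF_O (L := L) (d := d) (w := w) (C ((u⁻¹ : Oˣ) : O))) hy
  rwa [zero_add] at h4

theorem unit_of_factorial (hu : IsUnit ((d.factorial : ℕ) : O)) {k : ℕ} (hk : 0 < k)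
    (hkd : k ≤ d) : IsUnit (k : O) := by
  obtain ⟨m, hm⟩ := Nat.dvd_factorial hk hkd
  rw [hm, Nat.cast_mul] at hu
  exact isUnit_of_mul_isUnit_left hu

/-- The filtration in terms of the characteristic polynomial. -/
theorem FF_char (h : Rt ϖ N w) (x : LaurentSeries L) (b : ℤ) :
    FF O d w b (em L x) ↔ ∀ i < d,
      FF O d w (((d - i : ℕ) : ℤ) * b) (em L ((cm d x).charpoly.coeff i)) := by
  have key : ∀ i, em L ((cm d x).charpoly.coeff i) * (w ^ b)⁻¹ ^ (d - i) =
      w ^ (-(((d - i : ℕ) : ℤ) * b)) * em L ((cm d x).charpoly.coeff i) := by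
    intro i
    rw [mul_comm, ← zpow_neg, ← zpow_natCast (w ^ (-b)) (d - i), ← zpow_mul]
    congr 2
    ring
  constructor
  · intro hx i _
    have h1 : (w ^ b) ^ N = em L (algebraMap L (LaurentSeries L) (algebraMap O L ϖ ^ b)) := by
      rw [← ec_apply, map_zpow₀, ← h.pow, ← zpow_natCast, ← zpow_natCast, ← zpow_mul,
        ← zpow_mul, mul_comm]
    have h2 : (w ^ b)⁻¹ * em L x ∈ SS (phE O L d) := by
      rw [← zpow_neg]
      exact hx
    have h3 := coeff_of_mem (zpow_ne_zero b h.ne) h.pos h1 h2 i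
    rw [key] at h3
    exact h3
  · intro hx
    have h1 : (w ^ b)⁻¹ * em L x ∈ SS (phE O L d) := by
      refine mem_of_coeff fun i hi => ?_
      rw [key]
      exact hx i hi
    rw [← zpow_neg] at h1
    exact h1

/-- Traces. -/
theorem FF_pr (h : Rt ϖ N w) (hu : IsUnit ((d.factorial : ℕ) : O)) {x : LaurentSeries L} {b : ℤ}
    (hx : FF O d w b (em L x)) : FF O d w b (em L (pr (0 : ZMod d) x)) := by
  have hd : 0 < d := Nat.pos_of_ne_zero (NeZero.ne d)
  have h1 := (FF_char h x b).1 hx (d - 1) (by omega)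
  have h2 : (((d - (d - 1) : ℕ)) : ℤ) = 1 := by omega
  rw [h2, one_mul] at h1
  have h3 := Matrix.trace_eq_neg_charpoly_coeff (cm d x)
  rw [trace_cm, ZMod.card] at h3
  have h4 : (d : EL L) * em L (pr (0 : ZMod d) x) = -em L ((cm d x).charpoly.coeff (d - 1)) := by
    rw [← map_natCast (em L), ← map_mul, h3, map_neg]
  refine FF_div h (unit_of_factorial hu hd le_rfl) ?_
  rw [h4]
  exact FF_neg h1

/-- Elements whose powers have small traces are small. -/
theorem FF_of_traces {g : ℕ} {R : Subalgebra L (LaurentSeries L)} (hR : Kr g R)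
    {e : ZMod d → LaurentSeries L} (he : Spn R e) (h : Rt ϖ d.factorial w)
    (hu : IsUnit ((d.factorial : ℕ) : O)) {x : LaurentSeries L} (hxR : x ∈ R) {b : ℤ}
    (hx : ∀ m : ℕ, 0 < m → m ≤ d → FF O d w (m * b + 1) (em L (pr (0 : ZMod d) (x ^ m)))) :
    FF O d w (b + 1) (em L x) := by
  classical
  have key : ∀ k : ℕ, 0 < k → k ≤ d →
      FF O d w (k * b + 1) (em L ((cm d x).charpoly.coeff (d - k))) := by
    intro k
    induction k using Nat.strong_induction_on with
    | _ k ih =>
      intro hk hkd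
      refine FF_div h (unit_of_factorial hu hk hkd) ?_
      have h1 := newton (cm d x) (d - k)
      rw [ZMod.card] at h1
      have h2 : Finset.Icc (d - k) d = insert (d - k) (Finset.Ioc (d - k) d) := by
        ext i
        simp only [Finset.mem_Icc, Finset.mem_insert, Finset.mem_Ioc]
        omega
      rw [h2, Finset.sum_insert (by simp), Nat.sub_self, pow_zero, Matrix.trace_one,
        ZMod.card] at h1
      have h3 : (k : LaurentSeries L) * (cm d x).charpoly.coeff (d - k) =
          -∑ i ∈ Finset.Ioc (d - k) d,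
            (cm d x).charpoly.coeff i * (cm d x ^ (i - (d - k))).trace := by
        have h4 : ((d - k : ℕ) : LaurentSeries L) = (d : LaurentSeries L) - k := by
          rw [Nat.cast_sub hkd]
        rw [h4] at h1
        linear_combination h1
      have h5 : (k : EL L) * em L ((cm d x).charpoly.coeff (d - k)) =
          -∑ i ∈ Finset.Ioc (d - k) d, em L ((cm d x).charpoly.coeff i) *
            ((d : EL L) * em L (pr (0 : ZMod d) (x ^ (i - (d - k))))) := by
        rw [← map_natCast (em L), ← map_mul, h3, map_neg, map_sum]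
        congr 1
        refine Finset.sum_congr rfl fun i _ => ?_
        rw [← map_pow, trace_cm, map_mul, map_mul, map_natCast]
      rw [h5]
      refine FF_neg (FF_sum _ _ fun i hi => ?_)
      rw [Finset.mem_Ioc] at hi
      obtain ⟨hi1, hi2⟩ := hi
      have hA : FF O d w (((d - i : ℕ) : ℤ) * b) (em L ((cm d x).charpoly.coeff i)) := by
        rcases Nat.lt_or_ge i d with hid | hid
        · have h6 := ih (d - i) (by omega) (by omega) (by omega)
          have h7 : d - (d - i) = i := by omega
          rw [h7] at h6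
          exact FF_mono h (by omega) h6
        · have hid' : i = d := by omega
          subst hid'
          have h8 : (cm i x).charpoly.coeff i = 1 := by
            have h9 := Matrix.charpoly_monic (cm i x)
            rw [Monic, leadingCoeff, Matrix.charpoly_natDegree_eq_dim, ZMod.card] at h9
            exact h9
          rw [h8, map_one, Nat.sub_self, Nat.cast_zero, zero_mul, FF_zero_iff]
          exact one_mem _
      have hB : FF O d w (((i - (d - k) : ℕ) : ℤ) * b + 1)
          ((d : EL L) * em L (pr (0 : ZMod d) (x ^ (i - (d - k))))) := by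
        have h6 := hx (i - (d - k)) (by omega) (by omega)
        have h7 : FF O d w 0 (d : EL L) := by
          have h8 : (d : EL L) = phE O L d (d : O[X]) := by rw [map_natCast]
          rw [h8]
          exact FF_O _
        have h9 := FF_mul h h7 h6
        rwa [zero_add] at h9
      have hC := FF_mul h hA hB
      have h10 : ((d - i : ℕ) : ℤ) * b + (((i - (d - k) : ℕ) : ℤ) * b + 1) = (k : ℤ) * b + 1 := by
        have h11 : ((d - i : ℕ) : ℤ) + ((i - (d - k) : ℕ) : ℤ) = k := by omega
        rw [← h11]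
        ring
      rwa [h10] at hC
  rw [FF_char h]
  intro i hi
  obtain ⟨q, hq⟩ := charpoly_coeff_mem hR he hxR i
  have h1 := key (d - i) (by omega) (by omega)
  have h2 : d - (d - i) = i := by omega
  rw [h2, hq] at h1
  rw [hq]
  exact FF_mul_succ h q (by omega) (Nat.dvd_factorial (by omega) (by omega)) h1

/-- The leading coefficient. -/
theorem FF_lead {g : ℕ} {R : Subalgebra L (LaurentSeries L)} (hR : Kr g R)
    {e : ZMod d → LaurentSeries L} (he : Spn R e) (h : Rt ϖ N w)
    (hu : IsUnit ((d.factorial : ℕ) : O)) {x : LaurentSeries L} (hxR : x ∈ R) {n : ℕ}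
    (hn : x ∈ Pl L n) {b : ℤ} (hx : FF O d w b (em L x)) :
    FF O d w b (ec L (x.coeff (-(n : ℤ)))) := by
  have hd : 0 < d := Nat.pos_of_ne_zero (NeZero.ne d)
  have hdO : IsUnit (d : O) := unit_of_factorial hu hd le_rfl
  have hdL : IsUnit (d : L) := by
    have := hdO.map (algebraMap O L)
    rwa [map_natCast] at this
  obtain ⟨q, hq⟩ := pr_mem_ev hR he hdL (pow_mem hxR d)
  have h1 : FF O d w (b * d) (em L (ev d q)) := by
    rw [← hq]
    refine FF_pr h hu ?_
    rw [map_pow]
    exact FF_pow h hx d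
  have h2 := FF_coeff h q h1 n
  have h3 : q.coeff n = x.coeff (-(n : ℤ)) ^ d := by
    rw [← ev_coeff d hd.ne', ← hq, pr_coeff_same]
    · have h4 := coeff_pow_Pl hn d
      have h5 : ((d * n : ℕ) : ℤ) = (d : ℤ) * n := by push_cast; ring
      rw [h5]
      exact h4
    · push_cast
      simp
  rw [h3, map_pow] at h2
  have h4 : (w ^ (-b) * ec L (x.coeff (-(n : ℤ)))) ^ d ∈ SS (phE O L d) := by
    have h5 : (w ^ (-b) * ec L (x.coeff (-(n : ℤ)))) ^ d =
        w ^ (-(b * d)) * ec L (x.coeff (-(n : ℤ))) ^ d := by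
      have h6 : -(b * (d : ℤ)) = -b * d := by ring
      rw [mul_pow, h6, zpow_mul, zpow_natCast]
    rw [h5]
    exact h2
  exact SS_pow _ hd h4

/-- Every element of the Krichever ring is in some step of the filtration. -/
theorem exists_FF {g : ℕ} {R : Subalgebra L (LaurentSeries L)} (hR : Kr g R)
    {e : ZMod d → LaurentSeries L} (he : Spn R e) (h : Rt ϖ N w) {x : LaurentSeries L}
    (hxR : x ∈ R) : ∃ δ : ℕ, FF O d w (-(δ : ℤ)) (em L x) := by
  classical
  choose q hq using charpoly_coeff_mem hR he hxR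
  have h1 : ∀ i, ∃ δ : ℕ, FF O d w (-(δ : ℤ)) (em L (ev d (q i))) := by
    intro i
    by_cases h0 : q i = 0
    · exact ⟨0, by rw [h0, map_zero, map_zero]; exact FF_zero⟩
    · obtain ⟨v, q0, h1, h2⟩ := exists_val (L := L) h.irr h0
      refine ⟨(-(N * v)).toNat, ?_⟩
      rw [FF_iff h h1 h2]
      omega
  choose δ hδ using h1
  refine ⟨(Finset.range d).sup δ, ?_⟩
  rw [FF_char h]
  intro i hi
  rw [hq]
  refine FF_mono h ?_ (hδ i)
  have h2 : δ i ≤ (Finset.range d).sup δ := Finset.le_sup (Finset.mem_range.2 hi)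
  have h3 : (1 : ℤ) ≤ ((d - i : ℕ) : ℤ) := by omega
  have h4 : (δ i : ℤ) ≤ (((Finset.range d).sup δ : ℕ) : ℤ) := by exact_mod_cast h2
  have h5 : (0 : ℤ) ≤ (((Finset.range d).sup δ : ℕ) : ℤ) := by positivity
  nlinarith

end

end Pool.Agent.MG.G0.ZL
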