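import Pool.Agent.MG.G0.ZL.L8

/-!
# Monic elements with minimal defect
-/

namespace Pool.Agent.MG.G0.ZL

open Polynomial

section

variable {O L : Type} [CommRing O] [IsDomain O] [IsDiscreteValuationRing O] [Field L]
  [Algebra O L] [IsFractionRing O L] {d : ℕ} [NeZero d] {ϖ : O} {w : EL L} {g : ℕ}
  {R : Subalgebra L (LaurentSeries L)} {e : ZMod d → LaurentSeries L}

/-- The general hypotheses. -/
structure Hyp (O : Type) {L : Type} [CommRing O] [IsDomain O] [IsDiscreteValuationRing O] [Field L]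
    [Algebra O L] [IsFractionRing O L] {d : ℕ} [NeZero d] (ϖ : O) (w : EL L) (g : ℕ)
    (R : Subalgebra L (LaurentSeries L)) (e : ZMod d → LaurentSeries L) : Prop where
  kr : Kr g R
  zm : zz L d ∈ R
  sp : Spn R e
  rt : Rt ϖ d.factorial w
  un : IsUnit ((d.factorial : ℕ) : O)

/-- Monic elements with minimal defect. -/
structure Mini (O : Type) {L : Type} [CommRing O] [Field L]
    [Algebra O L] {d : ℕ} [NeZero d] (w : EL L)
    (R : Subalgebra L (LaurentSeries L)) (δ N : ZMod d → ℕ) (H : ZMod d → LaurentSeries L) :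
    Prop where
  cl : ∀ i, (N i : ZMod d) = i
  mem : ∀ i, H i ∈ R
  ord : ∀ i, H i ∈ Pl L (N i)
  one : ∀ i, (H i).coeff (-(N i : ℤ)) = 1
  flt : ∀ i, FF O d w (-(δ i : ℤ)) (em L (H i))
  min : ∀ n : ℕ, ∀ x ∈ R, x ∈ Pl L n → x.coeff (-(n : ℤ)) = 1 → ∀ b : ℤ,
    FF O d w b (em L x) → b ≤ -(δ (n : ZMod d) : ℤ)

theorem exists_mini (hy : Hyp O ϖ w g R e) :
    ∃ (δ N : ZMod d → ℕ) (H : ZMod d → LaurentSeries L), Mini O w R δ N H := by
  classical
  have h1 : ∀ i : ZMod d, ∃ δ : ℕ, ∃ n : ℕ, (n : ZMod d) = i ∧ ∃ x ∈ R, x ∈ Pl L n ∧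
      x.coeff (-(n : ℤ)) = 1 ∧ FF O d w (-(δ : ℤ)) (em L x) := by
    intro i
    obtain ⟨M, hM⟩ := kr_monic hy.kr
    have hd : 0 < d := Nat.pos_of_ne_zero (NeZero.ne d)
    have h2 : M < i.val + d * (M + 1) := by
      have : M + 1 ≤ d * (M + 1) := Nat.le_mul_of_pos_left _ hd
      omega
    obtain ⟨x, hx, hx1, hx2⟩ := hM _ h2
    obtain ⟨δ, hδ⟩ := exists_FF hy.kr hy.sp hy.rt hx
    refine ⟨δ, _, ?_, x, hx, hx1, hx2, hδ⟩
    push_cast
    rw [ZMod.natCast_self, ZMod.natCast_zmod_val]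
    ring
  choose N hN H hH hH1 hH2 hH3 using fun i => Nat.find_spec (h1 i)
  refine ⟨fun i => Nat.find (h1 i), N, H, hN, hH, hH1, hH2, hH3, ?_⟩
  intro n x hx hx1 hx2 b hb
  by_contra hcon
  push Not at hcon
  rcases le_or_gt b 0 with hb0 | hb0
  · obtain ⟨δ, hδ⟩ := Int.eq_ofNat_of_zero_le (a := -b) (by omega)
    have h2 := Nat.find_min (h1 (n : ZMod d)) (m := δ) (by omega)
    apply h2
    refine ⟨n, rfl, x, hx, hx1, hx2, ?_⟩
    have h3 : -(δ : ℤ) = b := by omega
    rw [h3]
    exact hb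
  · have h2 := FF_lead hy.kr hy.sp hy.rt hy.un hx hx1 (FF_mono hy.rt (by omega : (1 : ℤ) ≤ b) hb)
    rw [hx2, FF_ec_iff hy.rt (v := 0) (c := 1) (by simp) isUnit_one] at h2
    omega

variable {δ N : ZMod d → ℕ} {H : ZMod d → LaurentSeries L}

/-- Minimality for arbitrary elements. -/
theorem lead_min (hy : Hyp O ϖ w g R e) (hm : Mini O w R δ N H) {n : ℕ} {x : LaurentSeries L}
    (hx : x ∈ R) (hn : x ∈ Pl L n) {b : ℤ} (hb : FF O d w b (em L x)) :
    FF O d w (b + δ (n : ZMod d)) (ec L (x.coeff (-(n : ℤ)))) := by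
  by_cases h0 : x.coeff (-(n : ℤ)) = 0
  · rw [h0, map_zero]
    exact FF_zero
  · obtain ⟨v, c, hc, hv⟩ := exists_val_L (O := O) hy.rt.irr h0
    set a := x.coeff (-(n : ℤ)) with ha
    have hinv : FF O d w ((d.factorial : ℤ) * -v) (ec L a⁻¹) := by
      obtain ⟨u, hu⟩ := hc
      rw [FF_ec_iff hy.rt (v := -v) (c := ((u⁻¹ : Oˣ) : O)) ?_ (Units.isUnit _)]
      have h2 : algebraMap O L ((u⁻¹ : Oˣ) : O) = (algebraMap O L c)⁻¹ := by
        apply eq_inv_of_mul_eq_one_left
        rw [← map_mul, ← hu, Units.inv_mul, map_one]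
      rw [hv, mul_inv, h2, zpow_neg]
    have h1 := hm.min n (algebraMap L _ a⁻¹ * x) (mul_mem (R.algebraMap_mem _) hx) ?_ ?_
      ((d.factorial : ℤ) * -v + b) ?_
    · rw [FF_ec_iff hy.rt hv hc]
      have h3 : (d.factorial : ℤ) * -v = -((d.factorial : ℤ) * v) := by ring
      omega
    · rw [← Algebra.smul_def]
      exact Submodule.smul_mem _ _ hn
    · rw [algebraMap_mul_coeff, ← ha, inv_mul_cancel₀ h0]
    · rw [map_mul, ← ec_apply]
      exact FF_mul hy.rt hinv hb

/-- Reduction to bounded order. -/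
theorem exists_red (hy : Hyp O ϖ w g R e) (hm : Mini O w R δ N H) {M : ℕ} (hM : ∀ i, N i ≤ M)
    (b : ℤ) (n : ℕ) : ∀ y ∈ R, y ∈ Pl L n → FF O d w b (em L y) →
      ∃ q : ZMod d → L[X], (∀ j, FF O d w (b + δ j) (em L (ev d (q j)))) ∧
        y - ∑ j, ev d (q j) * H j ∈ R ∧ y - ∑ j, ev d (q j) * H j ∈ Pl L M ∧
        FF O d w b (em L (y - ∑ j, ev d (q j) * H j)) := by
  classical
  have hzero : ∀ n : ℕ, n ≤ M → ∀ y ∈ R, y ∈ Pl L n → FF O d w b (em L y) →
      ∃ q : ZMod d → L[X], (∀ j, FF O d w (b + δ j) (em L (ev d (q j)))) ∧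
        y - ∑ j, ev d (q j) * H j ∈ R ∧ y - ∑ j, ev d (q j) * H j ∈ Pl L M ∧
        FF O d w b (em L (y - ∑ j, ev d (q j) * H j)) := by
    intro n hn y hyR hyn hyb
    refine ⟨0, fun j => ?_, ?_, ?_, ?_⟩
    · rw [Pi.zero_apply, map_zero, map_zero]
      exact FF_zero
    · simpa using hyR
    · simp only [Pi.zero_apply, map_zero, zero_mul, Finset.sum_const_zero, sub_zero]
      exact Pl_mono (by omega) hyn
    · simpa using hyb
  induction n with
  | zero => exact hzero 0 (Nat.zero_le _)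
  | succ n ih =>
    rcases Nat.lt_or_ge M (n + 1) with hMn | hMn
    swap
    · exact hzero (n + 1) hMn
    · intro y hyR hyn hyb
      have hlow : ((n + 1 : ℕ) : ℤ) - 1 = n := by push_cast; ring
      set a := y.coeff (-((n + 1 : ℕ) : ℤ)) with ha
      set i : ZMod d := ((n + 1 : ℕ) : ZMod d) with hi
      have hNi : N i ≤ n + 1 := (hM i).trans hMn.le
      have h2 : d ∣ (n + 1) - N i := by
        rw [← ZMod.natCast_eq_zero_iff, Nat.cast_sub hNi, hm.cl, ← hi, sub_self]
      obtain ⟨k, hk⟩ := h2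
      have h3 : ((n + 1 : ℕ) : ℤ) = (d * k : ℕ) + (N i : ℤ) := by omega
      have hFa : FF O d w (b + δ i) (em L (ev d (C a * X ^ k))) := by
        have h4 := lead_min hy hm hyR hyn hyb
        have h5 : em L (ev d (C a * X ^ k)) = ec L a * phE O L d (X ^ k) := by
          rw [map_mul, map_mul, ← ec_eq_ev, phE_apply, Polynomial.map_pow, map_X]
        rw [h5]
        have h6 := FF_mul hy.rt h4 (FF_O (L := L) (d := d) (w := w) ((X : O[X]) ^ k))
        rwa [add_zero] at h6
      set t : LaurentSeries L := ev d (C a * X ^ k) * H i with ht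
      have htR : t ∈ R := by
        refine mul_mem ?_ (hm.mem i)
        rw [map_mul, ev_C, map_pow, ev_X]
        exact mul_mem (R.algebraMap_mem _) (pow_mem hy.zm k)
      have ht1 : t = a • (ev d (X ^ k) * H i) := by
        rw [ht, map_mul, ev_C, mul_assoc, ← Algebra.smul_def]
      have ht2 : t ∈ Pl L ((n + 1 : ℕ) : ℤ) := by
        rw [ht1, h3]
        exact Submodule.smul_mem _ _ (zzpow_mul_mem_Pl k (hm.ord _))
      have ht3 : t.coeff (-((n + 1 : ℕ) : ℤ)) = a := by
        have h4 := zzpow_mul_coeff (d := d) k (hm.ord i)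
        rw [← h3, hm.one] at h4
        rw [ht1, HahnSeries.coeff_smul, h4, smul_eq_mul, mul_one]
      have htF : FF O d w b (em L t) := by
        rw [ht, map_mul]
        have h4 := FF_mul hy.rt hFa (hm.flt i)
        rwa [add_neg_cancel_right] at h4
      have h5 : y - t ∈ Pl L n := by
        have h6 := mem_Pl_pred (Submodule.sub_mem _ hyn ht2) (by
          rw [HahnSeries.coeff_sub, ht3, ← ha, sub_self])
        rwa [hlow] at h6
      obtain ⟨q, hq1, hq2, hq3, hq4⟩ := ih (y - t) (sub_mem hyR htR) h5 (by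
        rw [map_sub]
        exact FF_sub hyb htF)
      have hsum : y - ∑ j, ev d ((q + Pi.single i (C a * X ^ k) : ZMod d → L[X]) j) * H j =
          y - t - ∑ j, ev d (q j) * H j := by
        have h6 : ∀ j, ev d ((q + Pi.single i (C a * X ^ k) : ZMod d → L[X]) j) * H j =
            ev d (q j) * H j + if j = i then t else 0 := by
          intro j
          rw [Pi.add_apply, map_add, add_mul]
          congr 1
          by_cases hj : j = i
          · rw [if_pos hj, hj, Pi.single_eq_same]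
          · rw [if_neg hj, Pi.single_eq_of_ne hj, map_zero, zero_mul]
        rw [Finset.sum_congr rfl fun j _ => h6 j, Finset.sum_add_distrib, Finset.sum_ite_eq',
          if_pos (Finset.mem_univ _)]
        abel
      refine ⟨q + Pi.single i (C a * X ^ k), fun j => ?_, ?_, ?_, ?_⟩
      · rw [Pi.add_apply, map_add, map_add]
        refine FF_add (hq1 j) ?_
        by_cases hj : j = i
        · subst hj
          rw [Pi.single_eq_same]
          exact hFa
        · rw [Pi.single_eq_of_ne hj, map_zero, map_zero]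
          exact FF_zero
      · rw [hsum]
        exact hq2
      · rw [hsum]
        exact hq3
      · rw [hsum]
        exact hq4

end

end Pool.Agent.MG.G0.ZL
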